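import Pool.Agent.H68.GM.St

/-! # Fields supported in a chart -/

namespace Pool.Agent.H68.GM

open MeasureTheory Set Pool.Agent.H68.VD
open scoped ENNReal ContDiff Topology

noncomputable section

namespace PushKA

variable {n : ℕ} {M : Type} [TopologicalSpace M] {ι : Type}

theorem isOpen_dom (ch : ι → OpenPartialHomeomorph M (Eu n)) (i j : ι) : IsOpen (dom ch i j) :=
  (ch i).symm.isOpen_inter_preimage (ch j).open_source

theorem tr_mem (ch : ι → OpenPartialHomeomorph M (Eu n)) {i j : ι} {y : Eu n}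
    (hy : y ∈ dom ch i j) : tr ch i j y ∈ dom ch j i := by
  refine ⟨(ch j).map_source hy.2, ?_⟩
  show (ch j).symm (ch j ((ch i).symm y)) ∈ (ch i).source
  rw [(ch j).left_inv hy.2]
  exact (ch i).map_target hy.1

theorem tr_tr (ch : ι → OpenPartialHomeomorph M (Eu n)) {i j : ι} (l : ι) {y : Eu n}
    (hy : y ∈ dom ch i j) : tr ch j l (tr ch i j y) = tr ch i l y := by
  show ch l ((ch j).symm (ch j ((ch i).symm y))) = ch l ((ch i).symm y)
  rw [(ch j).left_inv hy.2]

theorem tr_self (ch : ι → OpenPartialHomeomorph M (Eu n)) {i : ι} {y : Eu n}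
    (hy : y ∈ (ch i).target) : tr ch i i y = y :=
  (ch i).right_inv hy

theorem diff_tr {ch : ι → OpenPartialHomeomorph M (Eu n)} (hA : VolAtlas ch) {i j : ι} {y : Eu n}
    (hy : y ∈ dom ch i j) : DifferentiableAt ℝ (tr ch i j) y :=
  ((hA.smooth i j).contDiffAt ((isOpen_dom ch i j).mem_nhds hy)).differentiableAt (by simp)

/-- The chain rule for transition maps. -/
theorem chain {ch : ι → OpenPartialHomeomorph M (Eu n)} (hA : VolAtlas ch) {i j l : ι} {w : Eu n}
    (hj : w ∈ dom ch i j) (hl : w ∈ dom ch i l) :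
    fderiv ℝ (tr ch i l) w = (fderiv ℝ (tr ch j l) (tr ch i j w)).comp (fderiv ℝ (tr ch i j) w) := by
  have h1 : tr ch i l =ᶠ[𝓝 w] fun y => tr ch j l (tr ch i j y) := by
    filter_upwards [(isOpen_dom ch i j).mem_nhds hj] with y hy
    exact (tr_tr ch l hy).symm
  have hm : tr ch i j w ∈ dom ch j l := by
    refine ⟨(ch j).map_source hj.2, ?_⟩
    show (ch j).symm (ch j ((ch i).symm w)) ∈ (ch l).source
    rw [(ch j).left_inv hj.2]
    exact hl.2
  rw [h1.fderiv_eq]
  exact fderiv_comp w (diff_tr hA hm) (diff_tr hA hj)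

/-- The image of the support in `M`. -/
theorem isClosed_img [T2Space M] (ch : ι → OpenPartialHomeomorph M (Eu n)) (i : ι)
    {K : Set (Eu n)} (hK : IsCompact K) (hKt : K ⊆ (ch i).target) :
    IsClosed ((ch i).symm '' K) :=
  (hK.image_of_continuousOn ((ch i).continuousOn_symm.mono hKt)).isClosed

theorem push_zero (ch : ι → OpenPartialHomeomorph M (Eu n)) {i j : ι} {K : Set (Eu n)}
    {u : Eu n → Eu n} (hu : ∀ y ∉ K, u y = 0) {y : Eu n}
    (hy : y ∈ dom ch j i → (ch j).symm y ∉ (ch i).symm '' K) : push ch i u j y = 0 := by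
  unfold push
  split_ifs with h
  · have h0 : u (tr ch j i y) = 0 := by
      apply hu
      intro hk
      apply hy h
      refine ⟨tr ch j i y, hk, ?_⟩
      exact (ch i).left_inv h.2
    rw [h0, map_zero]
  · rfl

theorem push_eq (ch : ι → OpenPartialHomeomorph M (Eu n)) {i j : ι} (u : Eu n → Eu n) {y : Eu n}
    (hy : y ∈ dom ch j i) :
    push ch i u j y = fderiv ℝ (tr ch i j) (tr ch j i y) (u (tr ch j i y)) := by
  unfold push
  rw [if_pos hy]

/-- Smoothness of the derivative of the transition map. -/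
theorem smooth_fd {ch : ι → OpenPartialHomeomorph M (Eu n)} (hA : VolAtlas ch) (i j : ι) :
    ContDiffOn ℝ ∞ (fun y => fderiv ℝ (tr ch i j) (tr ch j i y)) (dom ch j i) := by
  have h1 : ContDiffOn ℝ ∞ (fderiv ℝ (tr ch i j)) (dom ch i j) :=
    (hA.smooth i j).fderiv_of_isOpen (isOpen_dom ch i j) (by simp)
  exact h1.comp (hA.smooth j i) (fun y hy => tr_mem ch hy)

theorem smooth_push {ch : ι → OpenPartialHomeomorph M (Eu n)} (hA : VolAtlas ch) (i j : ι)
    {u : Eu n → Eu n} (hu : ContDiff ℝ ∞ u) : ContDiffOn ℝ ∞ (push ch i u j) (dom ch j i) := by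
  have h1 : ContDiffOn ℝ ∞ (fun y => fderiv ℝ (tr ch i j) (tr ch j i y) (u (tr ch j i y)))
      (dom ch j i) :=
    (smooth_fd hA i j).clm_apply (hu.comp_contDiffOn (hA.smooth j i))
  exact h1.congr (fun y hy => push_eq ch u hy)

theorem fld [T2Space M] {ch : ι → OpenPartialHomeomorph M (Eu n)} (hA : VolAtlas ch) (i : ι)
    (K : Set (Eu n)) (hK : IsCompact K) (hKt : K ⊆ (ch i).target) (u : Eu n → Eu n)
    (hu : ContDiff ℝ ∞ u) (hs : ∀ y ∉ K, u y = 0) : IsFld ch (push ch i u) := by
  have hC := isClosed_img ch i hK hKt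
  refine ⟨?_, ?_, ?_⟩
  · intro j y hy
    by_cases hd : y ∈ dom ch j i
    · exact ((smooth_push hA i j hu).contDiffAt ((isOpen_dom ch j i).mem_nhds hd)).contDiffWithinAt
    · have hz : (ch j).symm y ∉ (ch i).symm '' K := by
        rintro ⟨w, hw, he⟩
        apply hd
        refine ⟨hy, ?_⟩
        rw [← he]
        exact (ch i).map_target (hKt hw)
      have hopen : IsOpen ((ch j).target ∩ (ch j).symm ⁻¹' ((ch i).symm '' K)ᶜ) :=
        (ch j).symm.isOpen_inter_preimage hC.isOpen_compl
      have h0 : push ch i u j =ᶠ[𝓝 y] fun _ => 0 := by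
        filter_upwards [hopen.mem_nhds ⟨hy, hz⟩] with y' hy'
        exact push_zero ch hs (fun _ => hy'.2)
      exact (contDiffAt_const.congr_of_eventuallyEq h0).contDiffWithinAt
  · intro j y hy
    unfold push
    rw [if_neg (fun h => hy h.1)]
  · intro j l y hy
    by_cases hd : y ∈ dom ch j i
    · have hzl : (ch l).symm (tr ch j l y) = (ch j).symm y := (ch l).left_inv hy.2
      have hd' : tr ch j l y ∈ dom ch l i := by
        refine ⟨(ch l).map_source hy.2, ?_⟩
        rw [hzl]
        exact hd.2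
      have hw : tr ch l i (tr ch j l y) = tr ch j i y := tr_tr ch i hy
      rw [push_eq ch u hd', push_eq ch u hd, hw]
      have hwj : tr ch j i y ∈ dom ch i j := tr_mem ch hd
      have hsy : (ch i).symm (tr ch j i y) = (ch j).symm y := (ch i).left_inv hd.2
      have hwl : tr ch j i y ∈ dom ch i l := by
        refine ⟨hwj.1, ?_⟩
        rw [hsy]
        exact hy.2
      rw [chain hA hwj hwl]
      have hb : tr ch i j (tr ch j i y) = y := by
        rw [tr_tr ch j hd]
        exact tr_self ch hy.1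
      rw [hb]
      rfl
    · have hd' : tr ch j l y ∉ dom ch l i := by
        intro h
        apply hd
        refine ⟨hy.1, ?_⟩
        have h2 := h.2
        have hzl : (ch l).symm (tr ch j l y) = (ch j).symm y := (ch l).left_inv hy.2
        rw [hzl] at h2
        exact h2
      unfold push
      rw [if_neg hd', if_neg hd, map_zero]

theorem bound [T2Space M] {ch : ι → OpenPartialHomeomorph M (Eu n)} (hA : VolAtlas ch) (i : ι)
    (K : Set (Eu n)) (hK : IsCompact K) (hKt : K ⊆ (ch i).target) (j : ι) (K' : Set (Eu n))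
    (hK' : IsCompact K') (hKt' : K' ⊆ (ch j).target) :
    ∃ C : ℝ, 0 ≤ C ∧ ∀ u : Eu n → Eu n, (∀ y ∉ K, u y = 0) → ∀ b : ℝ,
    (∀ y, ‖u y‖ ≤ b) → ∀ y ∈ K', ‖push ch i u j y‖ ≤ C * b := by
  have hC := isClosed_img ch i hK hKt
  have hS : IsCompact (K' ∩ (ch j).symm ⁻¹' ((ch i).symm '' K)) := by
    have h1 : ContinuousOn (ch j).symm K' := (ch j).continuousOn_symm.mono hKt'
    exact hK'.of_isClosed_subset (h1.preimage_isClosed_of_isClosed hK'.isClosed hC)
      inter_subset_left
  have hcont : ContinuousOn (fun y => fderiv ℝ (tr ch i j) (tr ch j i y))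
      (K' ∩ (ch j).symm ⁻¹' ((ch i).symm '' K)) := by
    refine (smooth_fd hA i j).continuousOn.mono ?_
    rintro y ⟨hy1, w, hw, he⟩
    refine ⟨hKt' hy1, ?_⟩
    rw [← he]
    exact (ch i).map_target (hKt hw)
  obtain ⟨C0, hC0⟩ := hS.exists_bound_of_continuousOn hcont
  refine ⟨max C0 0, le_max_right _ _, fun u hu b hb y hy => ?_⟩
  have hb0 : 0 ≤ b := (norm_nonneg _).trans (hb y)
  by_cases hyS : y ∈ K' ∩ (ch j).symm ⁻¹' ((ch i).symm '' K)
  · have hd : y ∈ dom ch j i := by
      obtain ⟨hy1, w, hw, he⟩ := hyS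
      refine ⟨hKt' hy1, ?_⟩
      rw [← he]
      exact (ch i).map_target (hKt hw)
    rw [push_eq ch u hd]
    calc ‖fderiv ℝ (tr ch i j) (tr ch j i y) (u (tr ch j i y))‖
        ≤ ‖fderiv ℝ (tr ch i j) (tr ch j i y)‖ * ‖u (tr ch j i y)‖ :=
          ContinuousLinearMap.le_opNorm _ _
      _ ≤ max C0 0 * b := by
          apply mul_le_mul ((hC0 y hyS).trans (le_max_left _ _)) (hb _) (norm_nonneg _)
            (le_max_right _ _)
  · have h0 : push ch i u j y = 0 := push_zero ch hu (fun _ h => hyS ⟨hy, h⟩)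
    rw [h0, norm_zero]
    exact mul_nonneg (le_max_right _ _) hb0

theorem self (ch : ι → OpenPartialHomeomorph M (Eu n)) (i : ι) (u : Eu n → Eu n) (y : Eu n)
    (hy : y ∈ (ch i).target) : push ch i u i y = u y := by
  have hd : y ∈ dom ch i i := ⟨hy, (ch i).map_target hy⟩
  rw [push_eq ch u hd, tr_self ch hy]
  have h1 : tr ch i i =ᶠ[𝓝 y] fun y => y := by
    filter_upwards [(ch i).open_target.mem_nhds hy] with y' hy'
    exact tr_self ch hy'
  rw [h1.fderiv_eq]
  simp

end PushKA

theorem pushKit : PushKit where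
  fld := fun n M _ _ ι ch hA i K hK hKt u hu hs => PushKA.fld hA i K hK hKt u hu hs
  bound := fun n M _ _ ι ch hA i K hK hKt j K' hK' hKt' =>
    PushKA.bound hA i K hK hKt j K' hK' hKt'
  self := fun n M _ ι ch i u y hy => PushKA.self ch i u y hy
  sum := by
    intro n M _ ι ch i m u j y
    unfold push
    split_ifs with h
    · rw [map_sum]
    · simp
  sub := by
    intro n M _ ι ch i u v j y
    unfold push
    split_ifs with h
    · rw [map_sub]
    · simp

end

end Pool.Agent.H68.GM
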