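import Pool.Agent.H68.GM.St

/-! # The negative Sobolev norms on a closed manifold are weak norms (module WMW of project GM) -/

namespace Pool.Agent.H68.GM.WMWA

open MeasureTheory Set Pool.Agent.H68.VD Pool.Agent.H68.GM
open scoped ENNReal ContDiff Topology

noncomputable section

variable {n : ℕ} {M : Type} [TopologicalSpace M] {ι : Type}
  {ch : ι → OpenPartialHomeomorph M (Eu n)}

lemma dom_open (ch : ι → OpenPartialHomeomorph M (Eu n)) (i j : ι) : IsOpen (dom ch i j) :=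
  (ch i).isOpen_inter_preimage_symm (ch j).open_source

lemma tr_maps {i j : ι} {y : Eu n} (hy : y ∈ dom ch j i) : tr ch j i y ∈ dom ch i j := by
  refine ⟨(ch i).map_source hy.2, ?_⟩
  show (ch i).symm (ch i ((ch j).symm y)) ∈ (ch j).source
  rw [(ch i).left_inv hy.2]
  exact (ch j).map_target hy.1

lemma tr_tr {i j : ι} {y : Eu n} (hy : y ∈ dom ch j i) : tr ch i j (tr ch j i y) = y := by
  show ch j ((ch i).symm (ch i ((ch j).symm y))) = y
  rw [(ch i).left_inv hy.2, (ch j).right_inv hy.1]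

lemma glue {F : Type*} [NormedAddCommGroup F] [NormedSpace ℝ F] {V L : Set (Eu n)} (hV : IsOpen V)
    (hL : IsClosed L) (hLV : L ⊆ V) (f : Eu n → F) (hf : ContDiffOn ℝ ∞ f V)
    (h0 : ∀ y ∉ L, f y = 0) : ContDiff ℝ ∞ f := by
  rw [contDiff_iff_contDiffAt]
  intro y
  by_cases hy : y ∈ V
  · exact hf.contDiffAt (hV.mem_nhds hy)
  · have hy' : y ∉ L := fun h => hy (hLV h)
    have : f =ᶠ[𝓝 y] fun _ => 0 := by
      filter_upwards [hL.isOpen_compl.mem_nhds hy'] with z hz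
      exact h0 z hz
    exact contDiffAt_const.congr_of_eventuallyEq this

lemma fderiv_bound (PK : PushKit) [T2Space M] (hA : VolAtlas ch) (i : ι) (K : Set (Eu n))
    (hK : IsCompact K) (hKi : K ⊆ (ch i).target) (j : ι) (K' : Set (Eu n)) (hK' : IsCompact K')
    (hK'j : K' ⊆ (ch j).target) : ∃ C : ℝ, 0 ≤ C ∧ ∀ y ∈ K', y ∈ dom ch j i → tr ch j i y ∈ K →
    ∀ v, ‖fderiv ℝ (tr ch i j) (tr ch j i y) v‖ ≤ C * ‖v‖ := by
  obtain ⟨C, hC, h⟩ := PK.bound n M ι ch hA i K hK hKi j K' hK' hK'j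
  refine ⟨C, hC, fun y hy hd hz v => ?_⟩
  classical
  have h1 := h (fun w => if w = tr ch j i y then v else 0) (by
    intro w hw
    have : w ≠ tr ch j i y := by rintro rfl; exact hw hz
    simp [this]) ‖v‖ (by
    intro w
    split_ifs
    · exact le_rfl
    · simp) y hy
  unfold push at h1
  rw [if_pos hd] at h1
  simpa using h1

/-- change of variables -/
lemma cov (hA : VolAtlas ch) (i j : ι) (g : Eu n → ℝ≥0∞) :
    ∫⁻ y in dom ch j i, g (tr ch j i y) ≤ ∫⁻ z, g z := by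
  have hm : MeasurableSet (dom ch j i) := (dom_open ch j i).measurableSet
  have hd : ∀ x ∈ dom ch j i, HasFDerivWithinAt (tr ch j i) (fderiv ℝ (tr ch j i) x)
      (dom ch j i) x := fun x hx =>
    (((hA.smooth j i).contDiffAt ((dom_open ch j i).mem_nhds hx)).differentiableAt
      (by simp)).hasFDerivAt.hasFDerivWithinAt
  have hinj : InjOn (tr ch j i) (dom ch j i) := by
    intro x hx y hy hxy
    rw [← tr_tr (ch := ch) hx, ← tr_tr (ch := ch) hy, hxy]
  have h := lintegral_image_eq_lintegral_abs_det_fderiv_mul volume hm hd hinj g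
  have h2 : ∫⁻ x in dom ch j i, ENNReal.ofReal |(fderiv ℝ (tr ch j i) x).det| * g (tr ch j i x) =
      ∫⁻ y in dom ch j i, g (tr ch j i y) := by
    apply setLIntegral_congr_fun hm
    intro x hx
    dsimp only
    rw [hA.det j i x hx, ENNReal.ofReal_one, one_mul]
  rw [← h2, ← h]
  exact setLIntegral_le_lintegral _ _

/-- the overlap of two compact sets in two charts -/
def ov (ch : ι → OpenPartialHomeomorph M (Eu n)) (i j : ι) (K K' : Set (Eu n)) : Set (Eu n) :=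
  {y | y ∈ K' ∧ y ∈ dom ch j i ∧ tr ch j i y ∈ K}

lemma ov_compact [T2Space M] (i j : ι) (K K' : Set (Eu n)) (hK : IsCompact K)
    (hKi : K ⊆ (ch i).target) (hK' : IsCompact K') (hK'j : K' ⊆ (ch j).target) :
    IsCompact (ov ch i j K K') := by
  have h1 : IsClosed ((ch i).symm '' K) :=
    (hK.image_of_continuousOn ((ch i).continuousOn_symm.mono hKi)).isClosed
  have h2 : ov ch i j K K' = K' ∩ (ch j).symm ⁻¹' ((ch i).symm '' K) := by
    ext y
    constructor
    · rintro ⟨hy, hd, hz⟩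
      refine ⟨hy, ⟨tr ch j i y, hz, ?_⟩⟩
      exact (ch i).left_inv hd.2
    · rintro ⟨hy, ⟨z, hz, hzy⟩⟩
      have hs : (ch j).symm y ∈ (ch i).source := by
        rw [← hzy]; exact (ch i).map_target (hKi hz)
      refine ⟨hy, ⟨hK'j hy, hs⟩, ?_⟩
      show ch i ((ch j).symm y) ∈ K
      rw [← hzy, (ch i).right_inv (hKi hz)]
      exact hz
  rw [h2]
  have h3 : IsClosed (K' ∩ (ch j).symm ⁻¹' ((ch i).symm '' K)) :=
    ((ch j).continuousOn_symm.mono hK'j).preimage_isClosed_of_isClosed hK'.isClosed h1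
  exact hK'.of_isClosed_subset h3 inter_subset_left

/-- data of a cutoff function -/
lemma cut_bound {K' : Set (Eu n)} (hK' : IsCompact K') (χ : Eu n → ℝ) (hχ : ContDiff ℝ ∞ χ)
    (h0 : ∀ y ∉ K', χ y = 0) : ∃ c : ℝ, 0 ≤ c ∧ ∀ y, |χ y| ≤ c := by
  obtain ⟨C, hC⟩ := hχ.continuous.bounded_above_of_compact_support
    (HasCompactSupport.intro hK' h0)
  refine ⟨max C 0, le_max_right _ _, fun y => ?_⟩
  exact le_trans (hC y) (le_max_left _ _)

lemma push_smooth (PK : PushKit) [T2Space M] (hA : VolAtlas ch) (i : ι) (K : Set (Eu n))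
    (hK : IsCompact K) (hKi : K ⊆ (ch i).target) (j : ι) (K' : Set (Eu n)) (hK' : IsCompact K')
    (hK'j : K' ⊆ (ch j).target) (χ : Eu n → ℝ) (hχ : ContDiff ℝ ∞ χ) (h0 : ∀ y ∉ K', χ y = 0)
    (u : Eu n → Eu n) (hu : ContDiff ℝ ∞ u) (hu0 : ∀ y ∉ K, u y = 0) :
    ContDiff ℝ ∞ (fun y => χ y • push ch i u j y) := by
  refine glue (ch j).open_target hK'.isClosed hK'j _ ?_ (fun y hy => by simp [h0 y hy])
  exact hχ.contDiffOn.smul ((PK.fld n M ι ch hA i K hK hKi u hu hu0).smooth j)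

lemma lp_push (PK : PushKit) [T2Space M] (hA : VolAtlas ch) (i : ι) (K : Set (Eu n))
    (hK : IsCompact K) (hKi : K ⊆ (ch i).target) (j : ι) (K' : Set (Eu n)) (hK' : IsCompact K')
    (hK'j : K' ⊆ (ch j).target) (χ : Eu n → ℝ) (hχ : ContDiff ℝ ∞ χ) (h0 : ∀ y ∉ K', χ y = 0)
    (p : ℝ) (hp : 1 < p) : ∃ A : ℝ, 0 ≤ A ∧ ∀ u : Eu n → Eu n, (∀ y ∉ K, u y = 0) →
    (∫⁻ y, ‖χ y • push ch i u j y‖ₑ ^ p) ^ (1 / p) ≤
      ENNReal.ofReal A * (∫⁻ y, ‖u y‖ₑ ^ p) ^ (1 / p) := by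
  obtain ⟨C, hC, hb⟩ := fderiv_bound PK hA i K hK hKi j K' hK' hK'j
  obtain ⟨c, hc, hcb⟩ := cut_bound hK' χ hχ h0
  refine ⟨c * C, mul_nonneg hc hC, fun u hu => ?_⟩
  have hp0 : 0 < p := by linarith
  have hpt : ∀ y, ‖χ y • push ch i u j y‖ₑ ^ p ≤ (dom ch j i).indicator
      (fun y => ENNReal.ofReal (c * C) ^ p * ‖u (tr ch j i y)‖ₑ ^ p) y := by
    intro y
    by_cases hd : y ∈ dom ch j i
    · rw [indicator_of_mem hd]
      rw [← ENNReal.mul_rpow_of_nonneg _ _ hp0.le]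
      apply ENNReal.rpow_le_rpow _ hp0.le
      rw [← ofReal_norm, ← ofReal_norm, ← ENNReal.ofReal_mul (mul_nonneg hc hC)]
      apply ENNReal.ofReal_le_ofReal
      rw [norm_smul]
      by_cases hy : y ∈ K'
      · by_cases hz : tr ch j i y ∈ K
        · have h1 := hb y hy hd hz (u (tr ch j i y))
          unfold push
          rw [if_pos hd]
          calc ‖χ y‖ * ‖fderiv ℝ (tr ch i j) (tr ch j i y) (u (tr ch j i y))‖
              ≤ c * (C * ‖u (tr ch j i y)‖) := by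
                apply mul_le_mul (hcb y) h1 (norm_nonneg _) hc
            _ = c * C * ‖u (tr ch j i y)‖ := by ring
        · unfold push
          rw [if_pos hd, hu _ hz]
          simp
      · rw [h0 y hy]
        simp only [norm_zero, zero_mul]
        positivity
    · rw [indicator_of_notMem hd]
      unfold push
      rw [if_neg hd]
      simp [ENNReal.zero_rpow_of_pos hp0]
  have hm : MeasurableSet (dom ch j i) := (dom_open ch j i).measurableSet
  calc (∫⁻ y, ‖χ y • push ch i u j y‖ₑ ^ p) ^ (1 / p)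
      ≤ (∫⁻ y, (dom ch j i).indicator
        (fun y => ENNReal.ofReal (c * C) ^ p * ‖u (tr ch j i y)‖ₑ ^ p) y) ^ (1 / p) := by
        apply ENNReal.rpow_le_rpow (lintegral_mono hpt) (by positivity)
    _ = (ENNReal.ofReal (c * C) ^ p * ∫⁻ y in dom ch j i, ‖u (tr ch j i y)‖ₑ ^ p) ^ (1 / p) := by
        rw [lintegral_indicator hm, lintegral_const_mul']
        exact ENNReal.rpow_ne_top_of_nonneg hp0.le ENNReal.ofReal_ne_top
    _ ≤ (ENNReal.ofReal (c * C) ^ p * ∫⁻ z, ‖u z‖ₑ ^ p) ^ (1 / p) := by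
        apply ENNReal.rpow_le_rpow _ (by positivity)
        exact mul_le_mul' le_rfl (cov hA i j (fun z => ‖u z‖ₑ ^ p))
    _ = ENNReal.ofReal (c * C) * (∫⁻ z, ‖u z‖ₑ ^ p) ^ (1 / p) := by
        rw [ENNReal.mul_rpow_of_nonneg _ _ (by positivity), ← ENNReal.rpow_mul,
          mul_one_div_cancel hp0.ne', ENNReal.rpow_one]


lemma lp_bound {L : Set (Eu n)} (hL : IsCompact L) (p : ℝ) (hp : 1 < p) : ∃ V : ℝ, 0 ≤ V ∧
    ∀ (u : Eu n → Eu n) (b : ℝ), 0 ≤ b → (∀ y ∉ L, u y = 0) → (∀ y, ‖u y‖ ≤ b) →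
    (∫⁻ y, ‖u y‖ₑ ^ p) ^ (1 / p) ≤ ENNReal.ofReal (V * b) := by
  have hp0 : 0 < p := by linarith
  have hfin : volume L < ⊤ := hL.measure_lt_top
  have hfin' : (volume L) ^ (1 / p) ≠ ⊤ := ENNReal.rpow_ne_top_of_nonneg (by positivity) hfin.ne
  refine ⟨((volume L) ^ (1 / p)).toReal, ENNReal.toReal_nonneg, fun u b hb h0 hu => ?_⟩
  have hpt : ∀ y, ‖u y‖ₑ ^ p ≤ L.indicator (fun _ => ENNReal.ofReal b ^ p) y := by
    intro y
    by_cases hy : y ∈ L
    · rw [indicator_of_mem hy]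
      apply ENNReal.rpow_le_rpow _ hp0.le
      rw [← ofReal_norm]
      exact ENNReal.ofReal_le_ofReal (hu y)
    · rw [h0 y hy]
      simp [ENNReal.zero_rpow_of_pos hp0]
  calc (∫⁻ y, ‖u y‖ₑ ^ p) ^ (1 / p)
      ≤ (∫⁻ y, L.indicator (fun _ => ENNReal.ofReal b ^ p) y) ^ (1 / p) :=
        ENNReal.rpow_le_rpow (lintegral_mono hpt) (by positivity)
    _ = (ENNReal.ofReal b ^ p * volume L) ^ (1 / p) := by
        rw [lintegral_indicator hL.measurableSet, lintegral_const, Measure.restrict_apply_univ]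
    _ = ENNReal.ofReal b * (volume L) ^ (1 / p) := by
        rw [ENNReal.mul_rpow_of_nonneg _ _ (by positivity), ← ENNReal.rpow_mul,
          mul_one_div_cancel hp0.ne', ENNReal.rpow_one]
    _ = ENNReal.ofReal (((volume L) ^ (1 / p)).toReal * b) := by
        rw [ENNReal.ofReal_mul ENNReal.toReal_nonneg, ENNReal.ofReal_toReal hfin', mul_comm]

/-- the gradient -/
def gr (χ : Eu n → ℝ) (y : Eu n) : Eu n := ∑ k, (fderiv ℝ χ y (ev k)) • ev k

lemma gr_smooth {χ : Eu n → ℝ} (hχ : ContDiff ℝ ∞ χ) : ContDiff ℝ ∞ (gr χ) := by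
  unfold gr
  apply ContDiff.sum
  intro k _
  have h1 : ContDiff ℝ ∞ (fderiv ℝ χ) := hχ.fderiv_right (by simp)
  exact (h1.clm_apply contDiff_const).smul contDiff_const

lemma gr_zero {χ : Eu n → ℝ} {K' : Set (Eu n)} (hK' : IsClosed K') (h0 : ∀ y ∉ K', χ y = 0)
    (y : Eu n) (hy : y ∉ K') : gr χ y = 0 := by
  have : χ =ᶠ[𝓝 y] fun _ => 0 := by
    filter_upwards [hK'.isOpen_compl.mem_nhds hy] with z hz
    exact h0 z hz
  unfold gr
  simp [this.fderiv_eq]

lemma dv_zero {T : Eu n → (Eu n →L[ℝ] Eu n)} {K' : Set (Eu n)} (hK' : IsClosed K')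
    (h0 : ∀ y ∉ K', T y = 0) (y : Eu n) (hy : y ∉ K') : dv T y = 0 := by
  have : T =ᶠ[𝓝 y] fun _ => 0 := by
    filter_upwards [hK'.isOpen_compl.mem_nhds hy] with z hz
    exact h0 z hz
  unfold dv
  simp [this.fderiv_eq]

/-- the adjoint as a continuous linear map -/
def adj (n : ℕ) : (Eu n →L[ℝ] Eu n) →L[ℝ] (Eu n →L[ℝ] Eu n) :=
  LinearMap.toContinuousLinearMap
    { toFun := fun A => ContinuousLinearMap.adjoint A
      map_add' := fun A B => map_add _ A B
      map_smul' := fun c A => by simp }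

lemma adj_apply (A : Eu n →L[ℝ] Eu n) : adj n A = ContinuousLinearMap.adjoint A := rfl

/-- the transported matrix field -/
def TT (ch : ι → OpenPartialHomeomorph M (Eu n)) (i j : ι) (T : Eu n → (Eu n →L[ℝ] Eu n))
    (y : Eu n) : Eu n →L[ℝ] Eu n :=
  (fderiv ℝ (tr ch i j) (tr ch j i y)) ∘L T (tr ch j i y) ∘L
    (ContinuousLinearMap.adjoint (fderiv ℝ (tr ch i j) (tr ch j i y)))

lemma TT_smooth (hA : VolAtlas ch) (i j : ι) (T : Eu n → (Eu n →L[ℝ] Eu n))
    (hT : ContDiff ℝ ∞ T) : ContDiffOn ℝ ∞ (TT ch i j T) (dom ch j i) := by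
  have h1 : ContDiffOn ℝ ∞ (fderiv ℝ (tr ch i j)) (dom ch i j) :=
    (hA.smooth i j).fderiv_of_isOpen (dom_open ch i j) (by simp)
  have h2 : ContDiffOn ℝ ∞ (fun y => fderiv ℝ (tr ch i j) (tr ch j i y)) (dom ch j i) :=
    h1.comp (hA.smooth j i) (fun y hy => tr_maps hy)
  have h3 : ContDiffOn ℝ ∞ (fun y => T (tr ch j i y)) (dom ch j i) :=
    hT.comp_contDiffOn (hA.smooth j i)
  have h4 : ContDiffOn ℝ ∞ (fun y => adj n (fderiv ℝ (tr ch i j) (tr ch j i y))) (dom ch j i) :=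
    (adj n).contDiff.comp_contDiffOn h2
  exact h2.clm_comp (h3.clm_comp h4)

open Classical in
/-- the transported matrix field, extended by zero -/
def TZ (ch : ι → OpenPartialHomeomorph M (Eu n)) (i j : ι) (T : Eu n → (Eu n →L[ℝ] Eu n))
    (y : Eu n) : Eu n →L[ℝ] Eu n := if y ∈ dom ch j i then TT ch i j T y else 0

lemma TZ_eq {i j : ι} (T : Eu n → (Eu n →L[ℝ] Eu n)) {y : Eu n} (hy : y ∈ dom ch j i) :
    TZ ch i j T y = TT ch i j T y := if_pos hy

lemma TZ_out {i j : ι} (T : Eu n → (Eu n →L[ℝ] Eu n)) {K : Set (Eu n)} (hT : ∀ y ∉ K, T y = 0)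
    {y : Eu n} (hy : ¬ (y ∈ dom ch j i ∧ tr ch j i y ∈ K)) : TZ ch i j T y = 0 := by
  unfold TZ
  split_ifs with h
  · have : tr ch j i y ∉ K := fun h' => hy ⟨h, h'⟩
    unfold TT
    rw [hT _ this]
    simp
  · rfl

lemma TZ_smooth (hA : VolAtlas ch) (i j : ι) (T : Eu n → (Eu n →L[ℝ] Eu n))
    (hT : ContDiff ℝ ∞ T) : ContDiffOn ℝ ∞ (TZ ch i j T) (dom ch j i) :=
  (TT_smooth hA i j T hT).congr fun _ hy => TZ_eq T hy

/-- the divergence of a product -/
lemma dv_smul (χ : Eu n → ℝ) (T : Eu n → (Eu n →L[ℝ] Eu n)) (y : Eu n)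
    (hχ : DifferentiableAt ℝ χ y) (hT : DifferentiableAt ℝ T y) :
    dv (fun y => χ y • T y) y = χ y • dv T y + T y (gr χ y) := by
  unfold dv gr
  have h : fderiv ℝ (fun y => χ y • T y) y = _ := fderiv_fun_smul hχ hT
  rw [h]
  simp [Finset.sum_add_distrib, Finset.smul_sum, map_sum]


section

variable {i j : ι} {K K' : Set (Eu n)} {χ : Eu n → ℝ} {T : Eu n → (Eu n →L[ℝ] Eu n)}

lemma ov_sub : ov ch i j K K' ⊆ dom ch j i := fun _ h => h.2.1

lemma S_out (h0 : ∀ y ∉ K', χ y = 0) (hT0 : ∀ y ∉ K, T y = 0) (y : Eu n)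
    (hy : y ∉ ov ch i j K K') : χ y • TZ ch i j T y = 0 := by
  by_cases h : y ∈ K'
  · rw [TZ_out T hT0 (fun hh => hy ⟨h, hh.1, hh.2⟩)]
    ext v
    simp
  · rw [h0 y h]
    ext v
    simp

lemma R_out (hK' : IsCompact K') (h0 : ∀ y ∉ K', χ y = 0) (hT0 : ∀ y ∉ K, T y = 0) (y : Eu n)
    (hy : y ∉ ov ch i j K K') : TZ ch i j T y (gr χ y) = 0 := by
  by_cases h : y ∈ K'
  · rw [TZ_out T hT0 (fun hh => hy ⟨h, hh.1, hh.2⟩)]
    rfl
  · rw [gr_zero hK'.isClosed h0 y h, map_zero]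

lemma S_smooth [T2Space M] (hA : VolAtlas ch) (hK : IsCompact K) (hKi : K ⊆ (ch i).target)
    (hK' : IsCompact K') (hK'j : K' ⊆ (ch j).target) (hχ : ContDiff ℝ ∞ χ)
    (h0 : ∀ y ∉ K', χ y = 0) (hT : ContDiff ℝ ∞ T) (hT0 : ∀ y ∉ K, T y = 0) :
    ContDiff ℝ ∞ (fun y => χ y • TZ ch i j T y) :=
  glue (dom_open ch j i) (ov_compact i j K K' hK hKi hK' hK'j).isClosed ov_sub _
    (hχ.contDiffOn.smul (TZ_smooth hA i j T hT)) (S_out h0 hT0)

lemma R_smooth [T2Space M] (hA : VolAtlas ch) (hK : IsCompact K) (hKi : K ⊆ (ch i).target)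
    (hK' : IsCompact K') (hK'j : K' ⊆ (ch j).target) (hχ : ContDiff ℝ ∞ χ)
    (h0 : ∀ y ∉ K', χ y = 0) (hT : ContDiff ℝ ∞ T) (hT0 : ∀ y ∉ K, T y = 0) :
    ContDiff ℝ ∞ (fun y => TZ ch i j T y (gr χ y)) :=
  glue (dom_open ch j i) (ov_compact i j K K' hK hKi hK' hK'j).isClosed ov_sub _
    ((TZ_smooth hA i j T hT).clm_apply (gr_smooth hχ).contDiffOn) (R_out hK' h0 hT0)

/-- the decomposition -/
lemma decomp [T2Space M] (Q : Piola) (hA : VolAtlas ch) (hK : IsCompact K) (hKi : K ⊆ (ch i).target)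
    (hK' : IsCompact K') (hK'j : K' ⊆ (ch j).target) (hχ : ContDiff ℝ ∞ χ)
    (h0 : ∀ y ∉ K', χ y = 0) (hT : ContDiff ℝ ∞ T) (hT0 : ∀ y ∉ K, T y = 0)
    (hsk : ∀ y a b, inner ℝ (T y a) b = - inner ℝ a (T y b)) (y : Eu n) :
    χ y • push ch i (dv T) j y =
      dv (fun y => χ y • TZ ch i j T y) y + (-1 : ℝ) • TZ ch i j T y (gr χ y) := by
  by_cases hy : y ∈ dom ch j i
  · have hZ : DifferentiableAt ℝ (TZ ch i j T) y :=
      ((TZ_smooth hA i j T hT).contDiffAt ((dom_open ch j i).mem_nhds hy)).differentiableAt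
        (by simp)
    rw [dv_smul χ _ y (hχ.differentiable (by simp) y) hZ]
    have h1 : dv (TZ ch i j T) y = dv (TT ch i j T) y := by
      have : TZ ch i j T =ᶠ[𝓝 y] TT ch i j T := by
        filter_upwards [(dom_open ch j i).mem_nhds hy] with z hz
        exact TZ_eq T hz
      unfold dv
      rw [this.fderiv_eq]
    have h2 := Q n (dom ch i j) (dom ch j i) (dom_open ch i j) (dom_open ch j i) (tr ch i j)
      (tr ch j i) (hA.smooth i j) (hA.smooth j i) (fun y hy => tr_maps hy) (fun y hy => tr_tr hy)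
      (hA.det i j) T hT hsk y hy
    have h3 : dv (TT ch i j T) y = fderiv ℝ (tr ch i j) (tr ch j i y) (dv T (tr ch j i y)) := h2
    rw [h1, h3]
    unfold push
    rw [if_pos hy]
    simp
  · have hL := (ov_compact i j K K' hK hKi hK' hK'j).isClosed
    have hyL : y ∉ ov ch i j K K' := fun h => hy (ov_sub h)
    rw [dv_zero hL (S_out h0 hT0) y hyL, R_out hK' h0 hT0 y hyL]
    unfold push
    rw [if_neg hy]
    simp

lemma TZ_bound (C : ℝ) (hC : 0 ≤ C) (hb : ∀ y ∈ K', y ∈ dom ch j i → tr ch j i y ∈ K →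
    ∀ v, ‖fderiv ℝ (tr ch i j) (tr ch j i y) v‖ ≤ C * ‖v‖) (δ : ℝ) (hδ : ∀ y, ‖T y‖ ≤ δ)
    (y : Eu n) (hy : y ∈ ov ch i j K K') : ‖TZ ch i j T y‖ ≤ C ^ 2 * δ := by
  have hδ0 : 0 ≤ δ := le_trans (norm_nonneg _) (hδ 0)
  have hF : ‖fderiv ℝ (tr ch i j) (tr ch j i y)‖ ≤ C :=
    ContinuousLinearMap.opNorm_le_bound _ hC (hb y hy.1 hy.2.1 hy.2.2)
  have hF' : ‖ContinuousLinearMap.adjoint (fderiv ℝ (tr ch i j) (tr ch j i y))‖ ≤ C := by
    rw [LinearIsometryEquiv.norm_map]; exact hF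
  rw [TZ_eq T hy.2.1]
  unfold TT
  calc _ ≤ ‖fderiv ℝ (tr ch i j) (tr ch j i y)‖ * ‖T (tr ch j i y) ∘L
        (ContinuousLinearMap.adjoint (fderiv ℝ (tr ch i j) (tr ch j i y)))‖ :=
        ContinuousLinearMap.opNorm_comp_le _ _
    _ ≤ ‖fderiv ℝ (tr ch i j) (tr ch j i y)‖ * (‖T (tr ch j i y)‖ *
        ‖ContinuousLinearMap.adjoint (fderiv ℝ (tr ch i j) (tr ch j i y))‖) := by
        gcongr
        exact ContinuousLinearMap.opNorm_comp_le _ _
    _ ≤ C * (δ * C) := by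
        gcongr
        exact hδ _
    _ = C ^ 2 * δ := by ring

/-- one term of the norm of a pushed divergence -/
lemma weak_term [T2Space M] (W : WRKit) (Q : Piola) (PK : PushKit) (hA : VolAtlas ch) (hK : IsCompact K)
    (hKi : K ⊆ (ch i).target) (hK' : IsCompact K') (hK'j : K' ⊆ (ch j).target)
    (hχ : ContDiff ℝ ∞ χ) (h0 : ∀ y ∉ K', χ y = 0) (s p : ℝ) (hn : 1 ≤ n) (hs : s < 0)
    (hp : 1 < p) (B ε : ℝ) (hε : 0 < ε) : ∃ δ : ℝ, 0 < δ ∧ ∀ δ' ≤ δ,
    ∀ T : Eu n → (Eu n →L[ℝ] Eu n), ContDiff ℝ ∞ T → (∀ y ∉ K, T y = 0) →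
    (∀ y a b, inner ℝ (T y a) b = - inner ℝ a (T y b)) → (∀ y, ‖dv T y‖ ≤ B) →
    (∀ y, ‖T y‖ ≤ δ') → wR s p (fun y => χ y • push ch i (dv T) j y) ≤ ENNReal.ofReal ε := by
  obtain ⟨C, hC, hb⟩ := fderiv_bound PK hA i K hK hKi j K' hK' hK'j
  obtain ⟨c, hc, hcb⟩ := cut_bound hK' χ hχ h0
  have hL := ov_compact (ch := ch) i j K K' hK hKi hK' hK'j
  obtain ⟨G, hG⟩ : ∃ G : ℝ, ∀ y, ‖gr χ y‖ ≤ G :=
    (gr_smooth hχ).continuous.bounded_above_of_compact_support
      (HasCompactSupport.intro hK' (gr_zero hK'.isClosed h0))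
  have hG0 : 0 ≤ G := le_trans (norm_nonneg _) (hG 0)
  obtain ⟨V, hV, hlp⟩ := lp_bound hL p hp
  obtain ⟨δ1, hδ1, hw⟩ := W.weak n s p hn hs hp (ov ch i j K K') hL (c * (C * B) + C ^ 2 * G)
    (ε / 2) (by linarith)
  refine ⟨min 1 (min (δ1 / (c * C ^ 2 + 1)) (ε / 2 / (V * (C ^ 2 * G) + 1))), ?_, ?_⟩
  · refine lt_min one_pos (lt_min ?_ ?_) <;> positivity
  intro δ hδle T hT hT0 hsk hB hδ
  have hδ0 : 0 ≤ δ := le_trans (norm_nonneg _) (hδ 0)
  have hB0 : 0 ≤ B := le_trans (norm_nonneg _) (hB 0)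
  have hδa : δ ≤ 1 := le_trans hδle (min_le_left _ _)
  have hδb : δ * (c * C ^ 2 + 1) ≤ δ1 := by
    rw [← le_div_iff₀ (by positivity)]
    exact le_trans hδle (le_trans (min_le_right _ _) (min_le_left _ _))
  have hδc : δ * (V * (C ^ 2 * G) + 1) ≤ ε / 2 := by
    rw [← le_div_iff₀ (by positivity)]
    exact le_trans hδle (le_trans (min_le_right _ _) (min_le_right _ _))
  set S : Eu n → (Eu n →L[ℝ] Eu n) := fun y => χ y • TZ ch i j T y with hS
  set R : Eu n → Eu n := fun y => TZ ch i j T y (gr χ y) with hR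
  have hSs : ContDiff ℝ ∞ S := S_smooth hA hK hKi hK' hK'j hχ h0 hT hT0
  have hRs : ContDiff ℝ ∞ R := R_smooth hA hK hKi hK' hK'j hχ h0 hT hT0
  have hS0 : ∀ y ∉ ov ch i j K K', S y = 0 := S_out h0 hT0
  have hR0 : ∀ y ∉ ov ch i j K K', R y = 0 := R_out hK' h0 hT0
  have hdec : ∀ y, χ y • push ch i (dv T) j y = dv S y + (-1 : ℝ) • R y :=
    decomp Q hA hK hKi hK' hK'j hχ h0 hT hT0 hsk
  have hRb : ∀ y, ‖R y‖ ≤ C ^ 2 * δ * G := by
    intro y
    by_cases hy : y ∈ ov ch i j K K'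
    · have h1 := TZ_bound C hC hb δ hδ y hy
      calc ‖R y‖ ≤ ‖TZ ch i j T y‖ * ‖gr χ y‖ := ContinuousLinearMap.le_opNorm _ _
        _ ≤ C ^ 2 * δ * G := by
          apply mul_le_mul h1 (hG y) (norm_nonneg _) (by positivity)
    · rw [hR0 y hy, norm_zero]; positivity
  have hSb : ∀ y, ‖S y‖ ≤ δ1 := by
    intro y
    by_cases hy : y ∈ ov ch i j K K'
    · have h1 := TZ_bound C hC hb δ hδ y hy
      have h2 : ‖S y‖ ≤ c * (C ^ 2 * δ) := by
        rw [hS]
        dsimp only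
        rw [norm_smul]
        exact mul_le_mul (hcb y) h1 (norm_nonneg _) hc
      nlinarith
    · rw [hS0 y hy, norm_zero]; exact hδ1.le
  have hdS : ∀ y, ‖dv S y‖ ≤ c * (C * B) + C ^ 2 * G := by
    intro y
    have h1 : dv S y = χ y • push ch i (dv T) j y + R y := by
      rw [hdec y]; simp
    have h2 : ‖χ y • push ch i (dv T) j y‖ ≤ c * (C * B) := by
      rw [norm_smul]
      by_cases hy : y ∈ K'
      · by_cases hd : y ∈ dom ch j i
        · unfold push
          rw [if_pos hd]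
          by_cases hz : tr ch j i y ∈ K
          · have h3 := hb y hy hd hz (dv T (tr ch j i y))
            have h4 : C * ‖dv T (tr ch j i y)‖ ≤ C * B := mul_le_mul_of_nonneg_left (hB _) hC
            exact mul_le_mul (hcb y) (h3.trans h4) (norm_nonneg _) hc
          · rw [dv_zero hK.isClosed hT0 _ hz]
            simp only [map_zero, norm_zero, mul_zero]
            positivity
        · unfold push
          rw [if_neg hd]
          simp only [norm_zero, mul_zero]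
          positivity
      · rw [h0 y hy]
        simp only [norm_zero, zero_mul]
        positivity
    rw [h1]
    refine (norm_add_le _ _).trans (add_le_add h2 ((hRb y).trans ?_))
    have h5 : C ^ 2 * δ * G = (C ^ 2 * G) * δ := by ring
    rw [h5]
    exact mul_le_of_le_one_right (by positivity) hδa
  have hw1 : wR s p (dv S) ≤ ENNReal.ofReal (ε / 2) := hw S hSs hS0 hdS hSb
  have hcS : Continuous (dv S) := by
    have h1 : ContDiff ℝ ∞ (fderiv ℝ S) := hSs.fderiv_right (by simp)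
    unfold dv
    apply continuous_finsetSum
    intro k _
    exact (h1.continuous.clm_apply continuous_const).clm_apply continuous_const
  have hcR : Continuous (fun y => (-1 : ℝ) • R y) := hRs.continuous.const_smul (-1 : ℝ)
  have hw2 : wR s p (fun y => (-1 : ℝ) • R y) ≤ ENNReal.ofReal (ε / 2) := by
    have h1 := W.lp n s p hs hp (fun y => (-1 : ℝ) • R y) hcR
    refine h1.trans ((hlp (fun y => (-1 : ℝ) • R y) (C ^ 2 * δ * G) (by positivity)
      (fun y hy => by simp only [hR0 y hy, smul_zero]) (fun y => ?_)).trans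
      (ENNReal.ofReal_le_ofReal ?_))
    · have := hRb y
      simpa [norm_neg] using this
    · nlinarith
  have hfun : (fun y => χ y • push ch i (dv T) j y) = fun y => dv S y + (-1 : ℝ) • R y :=
    funext hdec
  rw [hfun]
  refine (W.add n s p hs _ _ hcS hcR (HasCompactSupport.intro hL (fun y hy => ?_))
    (HasCompactSupport.intro hL (fun y hy => ?_))).trans ?_
  · exact dv_zero hL.isClosed hS0 y hy
  · simp only [hR0 y hy, smul_zero]
  · refine (add_le_add hw1 hw2).trans (le_of_eq ?_)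
    rw [← ENNReal.ofReal_add (by linarith) (by linarith)]
    congr 1
    ring

end

end

end Pool.Agent.H68.GM.WMWA

namespace Pool.Agent.H68.GM

open MeasureTheory Set Pool.Agent.H68.VD Pool.Agent.H68.GM.WMWA
open scoped ENNReal ContDiff Topology

/-- The negative Sobolev norms on `M` are weak norms. -/
theorem wmWeak (W : WRKit) (Q : Piola) (PK : PushKit) : WMWeak := by
  intro n M _ _ _ ι _ ch hA χ hχ s p hn hs hp
  choose K' hK' hK'j h0 using hχ.supp
  have hsm := hχ.smooth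
  refine ⟨hp.le, ?_, ?_, ?_, ?_⟩
  · intro c X
    unfold wM
    rw [Finset.mul_sum]
    refine Finset.sum_congr rfl fun i _ => ?_
    rw [← W.smul n s p hs c]
    congr 1
    funext y
    rw [smul_comm]
  · choose c hc hcb using fun i => cut_bound (hK' i) (χ i) (hsm i) (h0 i)
    choose V hV hlp using fun i => lp_bound (hK' i) p hp
    refine ⟨K', ∑ i, V i * c i, Finset.sum_nonneg fun i _ => mul_nonneg (hV i) (hc i),
      fun i => ⟨hK' i, hK'j i⟩, fun X hX b hb hXb => ?_⟩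
    unfold wM
    rw [Finset.sum_mul, ENNReal.ofReal_sum_of_nonneg
      (fun i _ => mul_nonneg (mul_nonneg (hV i) (hc i)) hb)]
    refine Finset.sum_le_sum fun i _ => ?_
    have hcont : ContDiff ℝ ∞ (fun y => χ i y • X i y) :=
      glue (ch i).open_target (hK' i).isClosed (hK'j i) _
        ((hsm i).contDiffOn.smul (hX.smooth i)) (fun y hy => by simp [h0 i y hy])
    refine (W.lp n s p hs hp _ hcont.continuous).trans ?_
    have h1 := hlp i (fun y => χ i y • X i y) (c i * b) (mul_nonneg (hc i) hb)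
      (fun y hy => by simp [h0 i y hy]) (fun y => by
        by_cases hy : y ∈ K' i
        · rw [norm_smul]
          exact mul_le_mul (hcb i y) (hXb i y hy) (norm_nonneg _) (hc i)
        · rw [h0 i y hy, zero_smul, norm_zero]
          exact mul_nonneg (hc i) hb)
    refine h1.trans (le_of_eq ?_)
    congr 1
    ring
  · intro i K hK hKi
    choose A hA0 hAb using fun j => lp_push PK hA i K hK hKi j (K' j) (hK' j) (hK'j j) (χ j)
      (hsm j) (h0 j) p hp
    refine ⟨∑ j, A j, Finset.sum_nonneg fun j _ => hA0 j, fun u hu hu0 => ?_⟩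
    unfold wM
    rw [ENNReal.ofReal_sum_of_nonneg (fun j _ => hA0 j), Finset.sum_mul]
    refine Finset.sum_le_sum fun j _ => ?_
    have hcont := push_smooth PK hA i K hK hKi j (K' j) (hK' j) (hK'j j) (χ j) (hsm j) (h0 j)
      u hu hu0
    exact (W.lp n s p hs hp _ hcont.continuous).trans (hAb j u hu0)
  · intro i K hK hKi B ε hε
    set N : ℝ := (Fintype.card ι : ℝ) + 1 with hN
    have hN0 : 0 < N := by positivity
    choose δ hδ hδb using fun j => weak_term (i := i) (j := j) W Q PK hA hK hKi (hK' j) (hK'j j)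
      (hsm j) (h0 j) s p hn hs hp B (ε / N) (by positivity)
    obtain ⟨δ0, hδ0, hδ00⟩ : ∃ δ0 : ℝ, (∀ j, δ0 ≤ δ j) ∧ 0 < δ0 := by
      have h1 : ∀ᶠ x : ℝ in 𝓝[>] 0, ∀ j, x ≤ δ j := by
        rw [Filter.eventually_all]
        intro j
        have := (eventually_lt_nhds (hδ j)).filter_mono (nhdsWithin_le_nhds (s := Set.Ioi 0))
        exact this.mono fun x hx => hx.le
      exact (h1.and self_mem_nhdsWithin).exists
    refine ⟨δ0, hδ00, fun T hT hT0 hsk hB hTδ => ?_⟩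
    unfold wM
    calc ∑ j, wR s p (fun y => χ j y • push ch i (dv T) j y)
        ≤ ∑ _j : ι, ENNReal.ofReal (ε / N) :=
          Finset.sum_le_sum fun j _ => hδb j δ0 (hδ0 j) T hT hT0 hsk hB hTδ
      _ = ENNReal.ofReal (Fintype.card ι * (ε / N)) := by
          rw [Finset.sum_const, Finset.card_univ, nsmul_eq_mul,
            ENNReal.ofReal_mul (Nat.cast_nonneg _), ENNReal.ofReal_natCast]
      _ ≤ ENNReal.ofReal ε := by
          apply ENNReal.ofReal_le_ofReal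
          rw [← mul_div_assoc, div_le_iff₀ hN0, hN]
          nlinarith

end Pool.Agent.H68.GM
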