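import Pool.Agent.H68.GM.St
import Pool.Agent.H68.VD.CostK

/-! # The calculus of costs on a closed manifold -/

set_option autoImplicit false

namespace Pool.Agent.H68.GM.MCostKA

open MeasureTheory Set Pool.Agent.H68.VD Pool.Agent.H68.VD.CostKA
open scoped ENNReal ContDiff

noncomputable section

variable {n : ℕ} {M : Type} [TopologicalSpace M] [Nonempty M] {ι : Type}
  {ch : ι → OpenPartialHomeomorph M (Eu n)}

omit [Nonempty M] in
theorem const_fam (F : MFamKit) {φ : ℝ → M → M} {f : M → M} (hφ : MFam ch φ) (h1 : φ 1 = f) :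
    MFam ch (fun (_ : ℝ) => f) := by
  have := F.re n M ι ch ℝ ℝ φ (fun _ => (1 : ℝ)) hφ contDiff_const
  rw [← h1]
  exact this

theorem mvel_out (φ : ℝ → M → M) (t : ℝ) (i : ι) (y : Eu n) (hy : y ∉ (ch i).target) :
    mvel ch φ t i y = 0 := by
  unfold mvel
  rw [if_neg hy]

theorem cost_path (F : MFamKit) (hA : VolAtlas ch) (N : (ι → Eu n → Eu n) → ℝ≥0∞) (p : ℝ)
    (hN : MWeak ch N p) (φ : ℝ → M → M)
    (hφ : MFam ch φ) (h0 : φ 0 = id) (T C : ℝ) (hT : 0 ≤ T) (hC : 0 ≤ C)
    (hb : ∀ t ∈ Set.Icc (0 : ℝ) T, N (mvel ch φ t) ≤ ENNReal.ofReal C) :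
    MCost ch N (φ T) (C * T) := by
  have hsm : ContDiff ℝ ∞ (fun t : ℝ => T * t) := contDiff_const.mul contDiff_id
  refine ⟨fun t => φ (T * t), fun _ => C * T, F.re n M ι ch ℝ ℝ φ (fun t => T * t) hφ hsm, ?_, ?_,
    continuous_const, fun _ => mul_nonneg hC hT, ?_, ?_⟩
  · simp only [mul_zero]
    exact h0
  · simp only [mul_one]
  · intro t ht
    have hder : HasDerivAt (fun t : ℝ => T * t) T t := by
      simpa using (hasDerivAt_id t).const_mul T
    have h1 : mvel ch (fun t => φ (T * t)) t = fun i y => T • mvel ch φ (T * t) i y := by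
      funext i y
      have := F.velRe n M ι ch hA φ (fun t => T * t) hφ t hder.differentiableAt i y
      rw [this, hder.deriv]
    rw [h1, hN.smul, abs_of_nonneg hT]
    have h2 : N (mvel ch φ (T * t)) ≤ ENNReal.ofReal C := by
      apply hb
      constructor
      · exact mul_nonneg hT ht.1
      · calc T * t ≤ T * 1 := mul_le_mul_of_nonneg_left ht.2 hT
          _ = T := mul_one T
    calc ENNReal.ofReal T * N (mvel ch φ (T * t)) ≤ ENNReal.ofReal T * ENNReal.ofReal C := by
          gcongr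
      _ = ENNReal.ofReal (C * T) := by rw [← ENNReal.ofReal_mul hT, mul_comm]
  · simp

theorem cost_inv (F : MFamKit) (hA : VolAtlas ch) (N : (ι → Eu n → Eu n) → ℝ≥0∞) (p : ℝ)
    (hN : MWeak ch N p) (f : M → M) (a : ℝ)
    (h : MCost ch N f a) : MCost ch N (Function.invFun f) a := by
  obtain ⟨φ, l, hφ, h0, h1, hl, hl0, hb, hi⟩ := h
  have hsm : ContDiff ℝ ∞ (fun t : ℝ => 1 - t) := contDiff_const.sub contDiff_id
  have hconst : MFam ch (fun (_ : ℝ) => f) := const_fam F hφ h1
  have hinv : MFam ch (fun (_ : ℝ) => Function.invFun f) :=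
    F.inv n M ι ch hA ℝ (fun _ => f) hconst
  have hre : MFam ch (fun t => φ (1 - t)) := F.re n M ι ch ℝ ℝ φ (fun t => 1 - t) hφ hsm
  have hfb : Function.Bijective f := hconst.bij 0
  refine ⟨fun t x => φ (1 - t) (Function.invFun f x), fun t => l (1 - t),
    F.comp n M ι ch hA ℝ (fun t => φ (1 - t)) (fun _ => Function.invFun f) hre hinv, ?_, ?_,
    hl.comp (continuous_const.sub continuous_id), fun t => hl0 _, ?_, ?_⟩
  · funext x
    simp only [sub_zero]
    rw [h1]
    exact Function.rightInverse_invFun hfb.2 x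
  · funext x
    simp only [sub_self]
    rw [h0]
    rfl
  · intro t ht
    have hder : HasDerivAt (fun t : ℝ => 1 - t) (-1) t := by
      simpa using (hasDerivAt_id t).const_sub 1
    have h2 : mvel ch (fun t x => φ (1 - t) (Function.invFun f x)) t =
        fun i y => (-1 : ℝ) • mvel ch φ (1 - t) i y := by
      funext i y
      rw [F.velConst n M ι ch (fun t => φ (1 - t)) (Function.invFun f) (fun t => hφ.bij _)
        (hinv.bij 0) t i y]
      have := F.velRe n M ι ch hA φ (fun t => 1 - t) hφ t hder.differentiableAt i y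
      rw [this, hder.deriv]
    rw [h2, hN.smul]
    simp only [abs_neg, abs_one, ENNReal.ofReal_one, one_mul]
    exact hb _ ⟨by linarith [ht.2], by linarith [ht.1]⟩
  · have h3 := intervalIntegral.integral_comp_sub_left (a := 0) (b := 1) l 1
    simp only [sub_self, sub_zero] at h3
    rw [h3]
    exact hi

theorem vel_left (F : MFamKit) (hA : VolAtlas ch) (φ ψ : ℝ → M → M) (hφ : MFam ch φ)
    (hψ : MFam ch ψ) (t : ℝ) (hid : φ t = id) (hz : ∀ i y, mvel ch φ t i y = 0) (i : ι)
    (y : Eu n) : mvel ch (fun t x => φ t (ψ t x)) t i y = mvel ch ψ t i y := by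
  by_cases hy : y ∈ (ch i).target
  · obtain ⟨x, hx⟩ := (hψ.bij t).2 ((ch i).symm y)
    have hs : (ch i).symm y ∈ (ch i).source := (ch i).map_target hy
    have h1 : ψ t x ∈ (ch i).source := by rw [hx]; exact hs
    have h2 : φ t (ψ t x) ∈ (ch i).source := by rw [hid]; exact h1
    have h3 := F.velComp n M ι ch hA φ ψ hφ hψ t x i i h1 h2
    rw [hz, zero_add, hid] at h3
    simp only [id] at h3
    have h4 : ch i (ψ t x) = y := by rw [hx]; exact (ch i).right_inv hy
    rw [h4] at h3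
    have h5 : fderiv ℝ (fun y => ch i ((ch i).symm y)) y = ContinuousLinearMap.id ℝ (Eu n) := by
      have h6 : (fun y => ch i ((ch i).symm y)) =ᶠ[nhds y] id := by
        filter_upwards [(ch i).open_target.mem_nhds hy] with z hz'
        exact (ch i).right_inv hz'
      rw [h6.fderiv_eq, fderiv_id]
    rw [h5] at h3
    exact h3
  · rw [mvel_out _ _ _ _ hy, mvel_out _ _ _ _ hy]

theorem vel_right (F : MFamKit) (hA : VolAtlas ch) (φ ψ : ℝ → M → M) (hφ : MFam ch φ)
    (hψ : MFam ch ψ) (t : ℝ) (hz : ∀ i y, mvel ch ψ t i y = 0) (j : ι)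
    (y : Eu n) : mvel ch (fun t x => φ t (ψ t x)) t j y = mvel ch φ t j y := by
  by_cases hy : y ∈ (ch j).target
  · obtain ⟨x', hx'⟩ := (hφ.bij t).2 ((ch j).symm y)
    obtain ⟨x, hx⟩ := (hψ.bij t).2 x'
    have hs : (ch j).symm y ∈ (ch j).source := (ch j).map_target hy
    obtain ⟨i, hi⟩ := hA.cover (ψ t x)
    have h2 : φ t (ψ t x) ∈ (ch j).source := by rw [hx, hx']; exact hs
    have h3 := F.velComp n M ι ch hA φ ψ hφ hψ t x i j hi h2
    rw [hz, map_zero, add_zero] at h3
    have h4 : ch j (φ t (ψ t x)) = y := by rw [hx, hx']; exact (ch j).right_inv hy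
    rw [h4] at h3
    exact h3
  · rw [mvel_out _ _ _ _ hy, mvel_out _ _ _ _ hy]

theorem cost_comp (F : MFamKit) (hA : VolAtlas ch) (N : (ι → Eu n → Eu n) → ℝ≥0∞) (p : ℝ)
    (hN : MWeak ch N p) (f g : M → M) (a b : ℝ)
    (hf : MCost ch N f a) (hg : MCost ch N g b) : MCost ch N (fun x => f (g x)) (a + b) := by
  obtain ⟨φ, l, hφ, hφ0, hφ1, hl, hl0, hlb, hli⟩ := hf
  obtain ⟨ψ, m, hψ, hψ0, hψ1, hm, hm0, hmb, hmi⟩ := hg
  have hφ' : MFam ch (fun t => φ (chi2 t)) := F.re n M ι ch ℝ ℝ φ chi2 hφ chi2_smooth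
  have hψ' : MFam ch (fun t => ψ (chi1 t)) := F.re n M ι ch ℝ ℝ ψ chi1 hψ chi1_smooth
  have hvφ : ∀ t i y, mvel ch (fun t => φ (chi2 t)) t i y =
      deriv chi2 t • mvel ch φ (chi2 t) i y :=
    fun t i y => F.velRe n M ι ch hA φ chi2 hφ t (chi2_diff t) i y
  have hvψ : ∀ t i y, mvel ch (fun t => ψ (chi1 t)) t i y =
      deriv chi1 t • mvel ch ψ (chi1 t) i y :=
    fun t i y => F.velRe n M ι ch hA ψ chi1 hψ t (chi1_diff t) i y
  have hc1 : Continuous (fun t => deriv chi1 t * m (chi1 t)) :=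
    chi1_deriv_cont.mul (hm.comp chi1_diff.continuous)
  have hc2 : Continuous (fun t => deriv chi2 t * l (chi2 t)) :=
    chi2_deriv_cont.mul (hl.comp chi2_diff.continuous)
  refine ⟨fun t x => φ (chi2 t) (ψ (chi1 t) x),
    fun t => deriv chi1 t * m (chi1 t) + deriv chi2 t * l (chi2 t),
    F.comp n M ι ch hA ℝ (fun t => φ (chi2 t)) (fun t => ψ (chi1 t)) hφ' hψ', ?_, ?_,
    hc1.add hc2, ?_, ?_, ?_⟩
  · funext x
    simp only [chi1_zero, chi2_zero, hφ0, hψ0, id]
  · funext x
    simp only [chi1_one, chi2_one, hφ1, hψ1]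
  · intro t
    exact add_nonneg (mul_nonneg (chi1_deriv_nonneg t) (hm0 _))
      (mul_nonneg (chi2_deriv_nonneg t) (hl0 _))
  · intro t _
    have hn1 : 0 ≤ deriv chi1 t * m (chi1 t) := mul_nonneg (chi1_deriv_nonneg t) (hm0 _)
    have hn2 : 0 ≤ deriv chi2 t * l (chi2 t) := mul_nonneg (chi2_deriv_nonneg t) (hl0 _)
    rcases le_total t (1 / 2) with ht | ht
    · obtain ⟨e1, e2⟩ := chi2_left ht
      have hid : φ (chi2 t) = id := by rw [e1, hφ0]
      have h2 : mvel ch (fun t x => φ (chi2 t) (ψ (chi1 t) x)) t =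
          fun i y => deriv chi1 t • mvel ch ψ (chi1 t) i y := by
        funext i y
        have h3 := vel_left F hA (fun t => φ (chi2 t)) (fun t => ψ (chi1 t)) hφ' hψ' t hid
          (fun i y => by rw [hvφ, e2, zero_smul]) i y
        rw [hvψ] at h3
        exact h3
      rw [h2, hN.smul, abs_of_nonneg (chi1_deriv_nonneg t)]
      calc ENNReal.ofReal (deriv chi1 t) * N (mvel ch ψ (chi1 t))
          ≤ ENNReal.ofReal (deriv chi1 t) * ENNReal.ofReal (m (chi1 t)) := by
            gcongr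
            exact hmb _ chi1_mem
        _ = ENNReal.ofReal (deriv chi1 t * m (chi1 t)) := by
            rw [← ENNReal.ofReal_mul (chi1_deriv_nonneg t)]
        _ ≤ _ := ENNReal.ofReal_le_ofReal (by linarith)
    · obtain ⟨e1, e2⟩ := chi1_right ht
      have h2 : mvel ch (fun t x => φ (chi2 t) (ψ (chi1 t) x)) t =
          fun i y => deriv chi2 t • mvel ch φ (chi2 t) i y := by
        funext i y
        have h3 := vel_right F hA (fun t => φ (chi2 t)) (fun t => ψ (chi1 t)) hφ' hψ' t
          (fun i y => by rw [hvψ, e2, zero_smul]) i y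
        rw [hvφ] at h3
        exact h3
      rw [h2, hN.smul, abs_of_nonneg (chi2_deriv_nonneg t)]
      calc ENNReal.ofReal (deriv chi2 t) * N (mvel ch φ (chi2 t))
          ≤ ENNReal.ofReal (deriv chi2 t) * ENNReal.ofReal (l (chi2 t)) := by
            gcongr
            exact hlb _ chi2_mem
        _ = ENNReal.ofReal (deriv chi2 t * l (chi2 t)) := by
            rw [← ENNReal.ofReal_mul (chi2_deriv_nonneg t)]
        _ ≤ _ := ENNReal.ofReal_le_ofReal (by linarith)
  · rw [intervalIntegral.integral_add (hc1.intervalIntegrable _ _) (hc2.intervalIntegrable _ _),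
      integral_sub1 m hm, integral_sub2 l hl]
    linarith

theorem cost_dist (F : MFamKit) (hA : VolAtlas ch) (N : (ι → Eu n → Eu n) → ℝ≥0∞)
    (h f g : M → M) (a : ℝ) (hh : MCost ch N h a) (hf : InGM ch f)
    (hg : ∀ x, h (f x) = g x) : mdist ch N f g ≤ ENNReal.ofReal a := by
  obtain ⟨φ, l, hφ, h0, h1, hl, hl0, hb, hi⟩ := hh
  obtain ⟨ψ, hψ, hψ0, hψ1⟩ := hf
  have hconst : MFam ch (fun (_ : ℝ) => f) := const_fam F hψ hψ1
  have hpath : MFam ch (fun t x => φ t (f x)) := F.comp n M ι ch hA ℝ φ (fun _ => f) hφ hconst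
  have hle : mlen ch N (fun t x => φ t (f x)) ≤ ENNReal.ofReal a := by
    unfold mlen
    have hv : ∀ t, mvel ch (fun t x => φ t (f x)) t = mvel ch φ t := by
      intro t
      funext i y
      exact F.velConst n M ι ch φ f (fun t => hφ.bij t) (hconst.bij 0) t i y
    simp only [hv]
    calc ∫⁻ t in Set.Icc (0 : ℝ) 1, N (mvel ch φ t)
        ≤ ∫⁻ t in Set.Icc (0 : ℝ) 1, ENNReal.ofReal (l t) := by
          apply setLIntegral_mono (hl.measurable.ennreal_ofReal) hb
      _ = ENNReal.ofReal (∫ t in Set.Icc (0 : ℝ) 1, l t) := by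
          rw [ofReal_integral_eq_lintegral_ofReal]
          · exact (hl.continuousOn).integrableOn_Icc
          · exact Filter.Eventually.of_forall hl0
      _ ≤ ENNReal.ofReal a := by
          apply ENNReal.ofReal_le_ofReal
          rw [integral_Icc_eq_integral_Ioc, ← intervalIntegral.integral_of_le zero_le_one]
          exact hi
  refine le_trans ?_ hle
  unfold mdist
  refine iInf₂_le (fun t x => φ t (f x)) ⟨hpath, ?_, ?_⟩
  · funext x
    simp only [h0, id]
  · funext x
    simp only [h1]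
    exact hg x

end

end Pool.Agent.H68.GM.MCostKA

namespace Pool.Agent.H68.GM

theorem mCostKit (F : MFamKit) : MCostKit where
  comp := fun _ _ _ _ _ _ hA N p hN f g a b hf hg => MCostKA.cost_comp F hA N p hN f g a b hf hg
  inv := fun _ _ _ _ _ _ hA N p hN f a h => MCostKA.cost_inv F hA N p hN f a h
  path := fun _ _ _ _ _ _ hA N p hN φ hφ h0 T C hT hC hb =>
    MCostKA.cost_path F hA N p hN φ hφ h0 T C hT hC hb
  dist := fun _ _ _ _ _ _ hA N h f g a hh hf hg => MCostKA.cost_dist F hA N h f g a hh hf hg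

end Pool.Agent.H68.GM
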