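import Pool.Agent.H68.GM.St
import Pool.Agent.H68.VD.DensB

/-! # Divergences of antisymmetric matrix fields are limits of sums of swirls -/

namespace Pool.Agent.H68.GM

open MeasureTheory Set Pool.Agent.H68.VD
open scoped ENNReal ContDiff

noncomputable section

variable {n : ℕ}

namespace MDensA

/-! ### Continuous functions with compact support -/

theorem supp_compact {F : Type*} [NormedAddCommGroup F] {g : Eu n → F} {K : Set (Eu n)}
    (hK : IsCompact K) (h0 : ∀ x ∉ K, g x = 0) : HasCompactSupport g :=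
  HasCompactSupport.intro hK fun x hx => h0 x hx

theorem c_bdd {F : Type*} [NormedAddCommGroup F] {g : Eu n → F} (hg : Continuous g)
    (hc : HasCompactSupport g) : ∃ M : ℝ, 0 ≤ M ∧ ∀ x, ‖g x‖ ≤ M := by
  obtain ⟨C, hC⟩ := hc.exists_bound_of_continuous hg
  exact ⟨max C 0, le_max_right _ _, fun x => (hC x).trans (le_max_left _ _)⟩

theorem c_unif {F : Type*} [NormedAddCommGroup F] {g : Eu n → F} (hg : Continuous g)
    (hc : HasCompactSupport g) {ε : ℝ} (hε : 0 < ε) :
    ∃ δ : ℝ, 0 < δ ∧ ∀ x y, ‖x - y‖ < δ → ‖g x - g y‖ ≤ ε := by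
  have hU := hc.uniformContinuous_of_continuous hg
  rw [Metric.uniformContinuous_iff] at hU
  obtain ⟨δ, hδ, h⟩ := hU ε hε
  refine ⟨δ, hδ, fun x y hxy => ?_⟩
  have h2 := h (a := x) (b := y) (by rwa [dist_eq_norm])
  rw [dist_eq_norm] at h2
  exact h2.le

/-! ### The bump -/

theorem bu_cs {r : ℝ} (hr : 0 < r) : HasCompactSupport (DensBA.bu (n := n) r) :=
  supp_compact (isCompact_closedBall (0 : Eu n) r) fun x hx => DensBA.bu_zero hr (by
    rw [Metric.mem_closedBall, dist_zero_right] at hx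
    linarith)

theorem jbu_cs {r : ℝ} (hr : 0 < r) (i m : Fin n) :
    HasCompactSupport (jgrad i m (DensBA.bu (n := n) r)) :=
  supp_compact (isCompact_closedBall (0 : Eu n) r) fun x hx => by
    rw [Metric.mem_closedBall, dist_zero_right, not_le] at hx
    rw [DensBA.bu_jgrad, DensBA.dbp_zero hr (by gcongr)]
    simp

theorem jgrad_cont (i m : Fin n) {f : Eu n → ℝ} (hf : ContDiff ℝ ∞ f) :
    Continuous (jgrad i m f) := by
  unfold jgrad
  have h1 : ∀ j, Continuous fun y : Eu n => fderiv ℝ f y (ev j) := fun j =>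
    (hf.continuous_fderiv (by simp)).clm_apply continuous_const
  exact ((h1 m).smul continuous_const).sub ((h1 i).smul continuous_const)

theorem fderiv_out {F : Type*} [NormedAddCommGroup F] [NormedSpace ℝ F] {f : Eu n → F}
    {K : Set (Eu n)} (hK : IsCompact K) (h0 : ∀ x ∉ K, f x = 0) {x : Eu n} (hx : x ∉ K) :
    fderiv ℝ f x = 0 := by
  have h1 : f =ᶠ[nhds x] fun _ => (0 : F) := by
    filter_upwards [hK.isClosed.isOpen_compl.mem_nhds hx] with y hy
    exact h0 y hy
  rw [h1.fderiv_eq]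
  simp

theorem jgrad_out (i m : Fin n) {f : Eu n → ℝ} {K : Set (Eu n)} (hK : IsCompact K)
    (h0 : ∀ x ∉ K, f x = 0) (x : Eu n) (hx : x ∉ K) : jgrad i m f x = 0 := by
  unfold jgrad
  rw [fderiv_out hK h0 hx]
  simp

/-- The integral of the bump. -/
def cb (n : ℕ) (r : ℝ) : ℝ := ∫ y : Eu n, DensBA.bu r y

theorem cb_eq (r : ℝ) (x : Eu n) : ∫ y, DensBA.bu (n := n) r (x - y) = cb n r :=
  integral_sub_left_eq_self (fun y => DensBA.bu (n := n) r y) volume x

theorem bux_cont (r : ℝ) (x : Eu n) : Continuous fun y : Eu n => DensBA.bu (n := n) r (x - y) :=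
  (DensBA.bu_smooth r).continuous.comp (by fun_prop)

theorem bux_cs {r : ℝ} (hr : 0 < r) (x : Eu n) :
    HasCompactSupport fun y : Eu n => DensBA.bu (n := n) r (x - y) :=
  supp_compact (isCompact_closedBall x r) fun y hy => DensBA.bu_zero hr (by
    rw [Metric.mem_closedBall, dist_comm, dist_eq_norm, not_le] at hy
    exact hy.le)

theorem bux_int {r : ℝ} (hr : 0 < r) (x : Eu n) :
    Integrable fun y : Eu n => DensBA.bu (n := n) r (x - y) :=
  (bux_cont r x).integrable_of_hasCompactSupport (bux_cs hr x)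

theorem cb_pos {r : ℝ} (hr : 0 < r) : 0 < cb n r := by
  have hc : Continuous (DensBA.bu (n := n) r) := (DensBA.bu_smooth r).continuous
  unfold cb
  refine (integral_pos_iff_support_of_nonneg_ae
    (Filter.Eventually.of_forall fun y => DensBA.bu_nonneg _ _)
    (hc.integrable_of_hasCompactSupport (bu_cs hr))).2 ?_
  have hopen : IsOpen (Metric.ball (0 : Eu n) r) := Metric.isOpen_ball
  refine lt_of_lt_of_le (hopen.measure_pos volume ⟨0, Metric.mem_ball_self hr⟩)
    (measure_mono ?_)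
  intro y hy
  rw [Metric.mem_ball, dist_zero_right] at hy
  rw [Function.mem_support]
  exact (DensBA.bu_pos hr hy).ne'

/-- The mean value against the bump. -/
theorem avg_est {r : ℝ} (hr : 0 < r) {F : Type*} [NormedAddCommGroup F]
    [NormedSpace ℝ F] [CompleteSpace F] {g : Eu n → F} (hg : Continuous g) {ε : ℝ}
    (hε : ∀ x y, ‖x - y‖ < r → ‖g x - g y‖ ≤ ε) (x : Eu n) :
    ‖cb n r • g x - ∫ y, DensBA.bu (n := n) r (x - y) • g y‖ ≤ cb n r * ε := by
  have hc := bux_cont (n := n) r x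
  have hcs := bux_cs (n := n) hr x
  have h1 : cb n r • g x = ∫ y, DensBA.bu (n := n) r (x - y) • g x := by
    rw [integral_smul_const, cb_eq]
  have i1 : Integrable fun y : Eu n => DensBA.bu (n := n) r (x - y) • g x :=
    (bux_int hr x).smul_const _
  have i2 : Integrable fun y : Eu n => DensBA.bu (n := n) r (x - y) • g y :=
    (hc.smul hg).integrable_of_hasCompactSupport hcs.smul_right
  rw [h1, ← integral_sub i1 i2, ← cb_eq r x, ← integral_mul_const]
  refine norm_integral_le_of_norm_le ((bux_int hr x).mul_const _) ?_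
  refine Filter.Eventually.of_forall fun y => ?_
  rw [← smul_sub, norm_smul, Real.norm_of_nonneg (DensBA.bu_nonneg _ _)]
  by_cases h0 : r ≤ ‖x - y‖
  · rw [DensBA.bu_zero hr h0]
    simp
  · exact mul_le_mul_of_nonneg_left (hε _ _ (not_le.1 h0)) (DensBA.bu_nonneg _ _)

/-! ### Integration by parts -/

theorem parts (f U : Eu n → ℝ) (hf : ContDiff ℝ ∞ f) (hfc : HasCompactSupport f)
    (hU : ContDiff ℝ ∞ U) (j : Fin n) (x : Eu n) :
    ∫ y, U (x - y) * fderiv ℝ f y (ev j) = ∫ y, f y * fderiv ℝ U (x - y) (ev j) := by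
  have hUx : ContDiff ℝ ∞ fun y : Eu n => U (x - y) := hU.comp (contDiff_const.sub contDiff_id)
  have hfd : Continuous fun y : Eu n => fderiv ℝ f y (ev j) :=
    (hf.continuous_fderiv (by simp)).clm_apply continuous_const
  have hUd : Continuous fun y : Eu n => fderiv ℝ U (x - y) (ev j) :=
    Continuous.clm_apply ((hU.continuous_fderiv (by simp)).comp (by fun_prop)) continuous_const
  have hder : ∀ y, fderiv ℝ (fun y : Eu n => U (x - y)) y (ev j) = -fderiv ℝ U (x - y) (ev j) := by
    intro y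
    have hb : HasFDerivAt U (fderiv ℝ U (x - y)) (x - y) :=
      (hU.differentiable (by simp)).differentiableAt.hasFDerivAt
    have hc : HasFDerivAt (fun y : Eu n => x - y) (-ContinuousLinearMap.id ℝ (Eu n)) y := by
      simpa using (hasFDerivAt_id y).const_sub x
    have hd : HasFDerivAt (fun y : Eu n => U (x - y)) _ y := hb.comp y hc
    rw [hd.fderiv]
    simp
  have hfdc : HasCompactSupport fun y : Eu n => fderiv ℝ f y (ev j) := by
    have h1 := hfc.fderiv ℝ
    exact h1.comp_left (g := fun L : Eu n →L[ℝ] ℝ => L (ev j)) (by simp)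
  have h := integral_mul_fderiv_eq_neg_fderiv_mul_of_integrable (μ := (volume : Measure (Eu n)))
    (f := fun y : Eu n => U (x - y)) (g := f) (v := ev j) ?_ ?_ ?_
    (fun y _ => (hUx.differentiable (by simp)).differentiableAt)
    (fun y _ => (hf.differentiable (by simp)).differentiableAt)
  · rw [h, ← integral_neg]
    refine integral_congr_ae (Filter.Eventually.of_forall fun y => ?_)
    simp only [hder]
    ring
  · simp only [hder]
    exact (hUd.neg.mul hf.continuous).integrable_of_hasCompactSupport hfc.mul_left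
  · exact (hUx.continuous.mul hfd).integrable_of_hasCompactSupport hfdc.mul_left
  · exact (hUx.continuous.mul hf.continuous).integrable_of_hasCompactSupport hfc.mul_left

theorem jparts (f U : Eu n → ℝ) (hf : ContDiff ℝ ∞ f) (hfc : HasCompactSupport f)
    (hU : ContDiff ℝ ∞ U) (i m : Fin n) (x : Eu n) :
    ∫ y, U (x - y) • jgrad i m f y = ∫ y, f y • jgrad i m U (x - y) := by
  have hUx : Continuous fun y : Eu n => U (x - y) := hU.continuous.comp (by fun_prop)
  have hfd : ∀ j, Continuous fun y : Eu n => fderiv ℝ f y (ev j) := fun j =>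
    (hf.continuous_fderiv (by simp)).clm_apply continuous_const
  have hUd : ∀ j, Continuous fun y : Eu n => fderiv ℝ U (x - y) (ev j) := fun j =>
    Continuous.clm_apply ((hU.continuous_fderiv (by simp)).comp (by fun_prop)) continuous_const
  have hfdc : ∀ j, HasCompactSupport fun y : Eu n => fderiv ℝ f y (ev j) := by
    intro j
    have h1 := hfc.fderiv ℝ
    exact h1.comp_left (g := fun L : Eu n →L[ℝ] ℝ => L (ev j)) (by simp)
  have e1 : ∀ y, U (x - y) • jgrad i m f y =
      (U (x - y) * fderiv ℝ f y (ev m)) • ev i - (U (x - y) * fderiv ℝ f y (ev i)) • ev m := by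
    intro y
    unfold jgrad
    module
  have e2 : ∀ y, f y • jgrad i m U (x - y) =
      (f y * fderiv ℝ U (x - y) (ev m)) • ev i - (f y * fderiv ℝ U (x - y) (ev i)) • ev m := by
    intro y
    unfold jgrad
    module
  have I1 : ∀ j k : Fin n, Integrable fun y : Eu n => (f y * fderiv ℝ U (x - y) (ev j)) • ev k := fun j k =>
    ((hf.continuous.mul (hUd j)).integrable_of_hasCompactSupport hfc.mul_right).smul_const _
  have I2 : ∀ j k : Fin n, Integrable fun y : Eu n => (U (x - y) * fderiv ℝ f y (ev j)) • ev k := fun j k =>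
    ((hUx.mul (hfd j)).integrable_of_hasCompactSupport (hfdc j).mul_left).smul_const _
  simp only [e1, e2]
  rw [integral_sub (I2 m i) (I2 i m), integral_sub (I1 m i) (I1 i m), integral_smul_const,
    integral_smul_const, integral_smul_const, integral_smul_const, parts f U hf hfc hU,
    parts f U hf hfc hU]

/-! ### The Riemann sum -/

/-- A measurable choice of finitely many points that are near to the points of a compact set. -/
theorem exists_near {K : Set (Eu n)} (hK : IsCompact K) {δ : ℝ} (hδ : 0 < δ) :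
    ∃ s : SimpleFunc (Eu n) (Eu n), ∀ y ∈ K, ‖y - s y‖ < δ := by
  have hcov : K ⊆ ⋃ k : ℕ, Metric.ball (TopologicalSpace.denseSeq (Eu n) k) δ := by
    intro x _
    obtain ⟨k, hk⟩ := (TopologicalSpace.denseRange_denseSeq (Eu n)).exists_dist_lt x hδ
    exact mem_iUnion.2 ⟨k, hk⟩
  obtain ⟨t, ht⟩ := hK.elim_finite_subcover _ (fun _ => Metric.isOpen_ball) hcov
  refine ⟨SimpleFunc.nearestPt (TopologicalSpace.denseSeq (Eu n)) (t.sup id), fun y hy => ?_⟩
  obtain ⟨k, hk, hy2⟩ := mem_iUnion₂.1 (ht hy)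
  have h1 := SimpleFunc.edist_nearestPt_le (TopologicalSpace.denseSeq (Eu n)) y
    (Finset.le_sup (f := id) hk : k ≤ t.sup id)
  have h2 : edist (TopologicalSpace.denseSeq (Eu n) k) y < ENNReal.ofReal δ := by
    rw [edist_dist]
    refine (ENNReal.ofReal_lt_ofReal_iff hδ).2 ?_
    rw [dist_comm]
    exact hy2
  have h3 := h1.trans_lt h2
  rw [edist_dist, ENNReal.ofReal_lt_ofReal_iff hδ, dist_comm, dist_eq_norm] at h3
  exact h3

/-- The integral of a function of a simple function. -/
theorem int_simple {K : Set (Eu n)} (hK : IsCompact K) (s : SimpleFunc (Eu n) (Eu n))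
    {F : Type*} [NormedAddCommGroup F] [NormedSpace ℝ F] [CompleteSpace F] (h : Eu n → F) :
    ∫ y in K, h (s y) =
      ∑ v ∈ s.range, (volume.restrict K).real (s ⁻¹' {v}) • h v ∧
    IntegrableOn (fun y => h (s y)) K volume := by
  have : IsFiniteMeasure ((volume : Measure (Eu n)).restrict K) :=
    ⟨by rw [Measure.restrict_apply_univ]; exact hK.measure_lt_top⟩
  have e1 : (fun y => h (s y)) = fun y => ∑ v ∈ s.range,
      (s ⁻¹' {v}).indicator (fun _ => h v) y := by
    funext y
    rw [Finset.sum_eq_single (s y)]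
    · rw [indicator_of_mem]
      simp
    · intro v _ hv
      rw [indicator_of_notMem]
      simpa using fun h => hv h.symm
    · intro hy
      exact absurd (s.mem_range_self y) hy
  have hi : ∀ v ∈ s.range, Integrable ((s ⁻¹' {v}).indicator (fun _ => h v))
      ((volume : Measure (Eu n)).restrict K) := fun v _ =>
    (integrable_const (h v)).indicator (s.measurableSet_fiber v)
  constructor
  · rw [e1, integral_finsetSum _ hi]
    refine Finset.sum_congr rfl fun v _ => ?_
    rw [integral_indicator_const _ (s.measurableSet_fiber v)]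
  · show Integrable _ _
    rw [e1]
    exact integrable_finsetSum _ hi

/-- Uniform Riemann sums for a convolution. -/
theorem riemann {K : Set (Eu n)} (hK : IsCompact K) (f : Eu n → ℝ) (hf : Continuous f)
    (hf0 : ∀ x ∉ K, f x = 0) {F : Type*} [NormedAddCommGroup F] [NormedSpace ℝ F]
    [CompleteSpace F] (J : Eu n → F) (hJ : Continuous J) (hJc : HasCompactSupport J) {ε : ℝ}
    (hε : 0 < ε) : ∃ (s : Finset (Eu n)) (w : Eu n → ℝ), (∀ v ∈ s, v ∈ K) ∧ ∀ x,
    ‖(∫ y, f y • J (x - y)) - ∑ v ∈ s, (w v * f v) • J (x - v)‖ ≤ ε := by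
  classical
  have hfc := supp_compact hK hf0
  set V : ℝ := (volume : Measure (Eu n)).real K with hV
  have hV0 : 0 ≤ V := measureReal_nonneg
  have hfin : IsFiniteMeasure ((volume : Measure (Eu n)).restrict K) :=
    ⟨by rw [Measure.restrict_apply_univ]; exact hK.measure_lt_top⟩
  obtain ⟨Mf, hMf0, hMf⟩ := c_bdd hf hfc
  obtain ⟨MJ, hMJ0, hMJ⟩ := c_bdd hJ hJc
  set e : ℝ := ε / (V + 1) with he
  have he0 : 0 < e := by positivity
  obtain ⟨δ1, hδ1, h1⟩ := c_unif hf hfc (ε := e / (2 * (MJ + 1))) (by positivity)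
  obtain ⟨δ2, hδ2, h2⟩ := c_unif hJ hJc (ε := e / (2 * (Mf + 1))) (by positivity)
  obtain ⟨s, hs⟩ := exists_near hK (lt_min hδ1 hδ2)
  refine ⟨s.range.filter (· ∈ K), fun v => (volume.restrict K).real (s ⁻¹' {v}),
    fun v hv => (Finset.mem_filter.1 hv).2, fun x => ?_⟩
  have h0 : ∑ v ∈ s.range.filter (· ∈ K),
      ((volume.restrict K).real (s ⁻¹' {v}) * f v) • J (x - v) =
      ∑ v ∈ s.range, ((volume.restrict K).real (s ⁻¹' {v}) * f v) • J (x - v) := by
    rw [Finset.sum_filter]
    refine Finset.sum_congr rfl fun v _ => ?_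
    split_ifs with hv
    · rfl
    · rw [hf0 v hv]
      simp
  rw [h0]
  have h3 := (int_simple hK s fun v => f v • J (x - v)).1
  have h4 := (int_simple hK s fun v => f v • J (x - v)).2
  have h5 : ∑ v ∈ s.range, ((volume.restrict K).real (s ⁻¹' {v}) * f v) • J (x - v) =
      ∑ v ∈ s.range, (volume.restrict K).real (s ⁻¹' {v}) • f v • J (x - v) :=
    Finset.sum_congr rfl fun v _ => by rw [mul_smul]
  have h8 : ∫ y, f y • J (x - y) = ∫ y in K, f y • J (x - y) := by
    rw [setIntegral_eq_integral_of_forall_compl_eq_zero]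
    intro y hy
    rw [hf0 y hy, zero_smul]
  have hint : IntegrableOn (fun y => f y • J (x - y)) K volume :=
    ((hf.smul (hJ.comp (by fun_prop))).continuousOn).integrableOn_compact hK
  rw [h5, ← h3, h8, ← integral_sub hint h4]
  have h6 : ∀ᵐ y ∂((volume : Measure (Eu n)).restrict K),
      ‖f y • J (x - y) - f (s y) • J (x - s y)‖ ≤ e := by
    rw [ae_restrict_iff' hK.measurableSet]
    refine Filter.Eventually.of_forall fun y hy => ?_
    have hd := hs y hy
    have e1 : f y • J (x - y) - f (s y) • J (x - s y) =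
        (f y - f (s y)) • J (x - y) + f (s y) • (J (x - y) - J (x - s y)) := by
      module
    have a1 := h1 y (s y) (hd.trans_le (min_le_left _ _))
    have a2 := h2 (x - y) (x - s y) (by
      have : x - y - (x - s y) = -(y - s y) := by abel
      rw [this, norm_neg]
      exact hd.trans_le (min_le_right _ _))
    have b1 : ‖f y - f (s y)‖ * ‖J (x - y)‖ ≤ e / (2 * (MJ + 1)) * (MJ + 1) := by
      refine mul_le_mul a1 ((hMJ _).trans (by linarith)) (norm_nonneg _) (by positivity)
    have b2 : ‖f (s y)‖ * ‖J (x - y) - J (x - s y)‖ ≤ (Mf + 1) * (e / (2 * (Mf + 1))) := by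
      refine mul_le_mul ((hMf _).trans (by linarith)) a2 (norm_nonneg _) (by positivity)
    have c1 : e / (2 * (MJ + 1)) * (MJ + 1) = e / 2 := by
      field_simp
    have c2 : (Mf + 1) * (e / (2 * (Mf + 1))) = e / 2 := by
      field_simp
    rw [e1]
    refine (norm_add_le _ _).trans ?_
    rw [norm_smul, norm_smul]
    linarith
  have h7 := norm_integral_le_of_norm_le_const h6
  rw [Measure.real, Measure.restrict_apply_univ] at h7
  refine h7.trans ?_
  have h9 : (volume K).toReal = V := rfl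
  rw [h9, he, div_mul_eq_mul_div, div_le_iff₀ (by positivity)]
  nlinarith

/-! ### One skew gradient -/

theorem one (i m : Fin n) {K : Set (Eu n)} (hK : IsCompact K) (f : Eu n → ℝ)
    (hf : ContDiff ℝ ∞ f) (hf0 : ∀ x ∉ K, f x = 0) {r0 η : ℝ} (hr0 : 0 < r0) (hη : 0 < η) :
    ∃ (N : ℕ) (c : Fin N → Eu n) (r : Fin N → ℝ) (β : Fin N → ℝ → ℝ),
      (∀ k, 0 < r k ∧ r k ≤ r0) ∧ (∀ k, c k ∈ K) ∧ (∀ k, ContDiff ℝ ∞ (β k)) ∧
      (∀ k ρ, (r k) ^ 2 ≤ ρ → β k ρ = 0) ∧
      ∀ x, ‖jgrad i m f x - ∑ k, swirl (c k) i m (β k) x‖ ≤ η := by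
  have hfc := supp_compact hK hf0
  have hgc := jgrad_cont i m hf
  have hgs := supp_compact hK (jgrad_out i m hK hf0)
  obtain ⟨δ, hδ, hδ2⟩ := c_unif hgc hgs (half_pos hη)
  obtain ⟨r, hr, hr1⟩ := exists_between (lt_min hδ hr0)
  have hrδ : r < δ := hr1.trans_le (min_le_left _ _)
  have hrr : r < r0 := hr1.trans_le (min_le_right _ _)
  have hc := cb_pos (n := n) hr
  set c := cb n r with hcdef
  have hU := DensBA.bu_smooth (n := n) r
  obtain ⟨s, w, hsK, hs⟩ := riemann hK f hf.continuous hf0 _ (jgrad_cont i m hU) (jbu_cs hr i m)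
    (ε := c * (η / 2)) (by positivity)
  refine ⟨s.card, fun k => (s.equivFin.symm k : Eu n), fun _ => r0,
    fun k ρ => (w (s.equivFin.symm k : Eu n) * f (s.equivFin.symm k : Eu n) / c) *
      (-2 * deriv (DensBA.bp r) ρ), fun k => ⟨hr0, le_rfl⟩,
      fun k => hsK _ (s.equivFin.symm k).2, fun k => ?_, fun k ρ hρ => ?_, fun x => ?_⟩
  · exact contDiff_const.mul (contDiff_const.mul (DensBA.dbp_smooth r))
  · show _ * (-2 * deriv (DensBA.bp r) ρ) = 0
    rw [DensBA.dbp_zero hr (by nlinarith)]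
    simp
  · have e1 : ∀ v : Eu n, swirl v i m
        (fun ρ => (w v * f v / c) * (-2 * deriv (DensBA.bp r) ρ)) x =
        c⁻¹ • ((w v * f v) • jgrad i m (DensBA.bu (n := n) r) (x - v)) := by
      intro v
      rw [smul_smul, DensBA.bu_jgrad]
      unfold swirl
      rw [smul_smul]
      congr 1
      ring
    have e2 : ∑ k : Fin s.card, swirl (s.equivFin.symm k : Eu n) i m
        (fun ρ => (w (s.equivFin.symm k : Eu n) * f (s.equivFin.symm k : Eu n) / c) *
          (-2 * deriv (DensBA.bp r) ρ)) x =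
        c⁻¹ • ∑ v ∈ s, (w v * f v) • jgrad i m (DensBA.bu (n := n) r) (x - v) := by
      rw [Finset.smul_sum, ← Finset.sum_coe_sort s, ← s.equivFin.symm.sum_comp]
      exact Finset.sum_congr rfl fun k _ => e1 _
    rw [e2]
    have a1 := avg_est hr hgc (ε := η / 2) (fun x y hxy => hδ2 x y (hxy.trans hrδ)) x
    rw [jparts f _ hf hfc hU i m x] at a1
    have a2 := hs x
    have e3 : jgrad i m f x - c⁻¹ • ∑ v ∈ s, (w v * f v) • jgrad i m (DensBA.bu (n := n) r) (x - v)
        = c⁻¹ • ((c • jgrad i m f x - ∫ y, f y • jgrad i m (DensBA.bu (n := n) r) (x - y)) +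
          ((∫ y, f y • jgrad i m (DensBA.bu (n := n) r) (x - y)) -
            ∑ v ∈ s, (w v * f v) • jgrad i m (DensBA.bu (n := n) r) (x - v))) := by
      rw [sub_add_sub_cancel, smul_sub, smul_smul, inv_mul_cancel₀ hc.ne', one_smul]
    rw [e3, norm_smul, norm_inv, Real.norm_of_nonneg hc.le]
    have a3 := (norm_add_le (c • jgrad i m f x -
      ∫ y, f y • jgrad i m (DensBA.bu (n := n) r) (x - y)) (
        (∫ y, f y • jgrad i m (DensBA.bu (n := n) r) (x - y)) -
            ∑ v ∈ s, (w v * f v) • jgrad i m (DensBA.bu (n := n) r) (x - v)))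
    have a4 : c⁻¹ * (c * η) = η := by
      field_simp
    rw [← a4]
    refine mul_le_mul_of_nonneg_left (a3.trans ?_) (by positivity)
    linarith

/-! ### The divergence of an antisymmetric field -/

/-- The entry. -/
def ent (A : Eu n → (Eu n →L[ℝ] Eu n)) (i m : Fin n) (x : Eu n) : ℝ := (1 / 2) * (A x (ev m)) i

theorem ent_smooth {A : Eu n → (Eu n →L[ℝ] Eu n)} (hA : ContDiff ℝ ∞ A) (i m : Fin n) :
    ContDiff ℝ ∞ (ent A i m) :=
  contDiff_const.mul ((EuclideanSpace.proj (𝕜 := ℝ) i).contDiff.comp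
    (hA.clm_apply contDiff_const))

theorem ent_fderiv {A : Eu n → (Eu n →L[ℝ] Eu n)} (hA : ContDiff ℝ ∞ A) (i m : Fin n)
    (x h : Eu n) : fderiv ℝ (ent A i m) x h = (1 / 2) * (fderiv ℝ A x h (ev m)) i := by
  have h1 : HasFDerivAt A (fderiv ℝ A x) x :=
    (hA.differentiable (by simp)).differentiableAt.hasFDerivAt
  have h2 : HasFDerivAt (fun x => A x (ev m))
      ((ContinuousLinearMap.apply ℝ (Eu n) (ev m)).comp (fderiv ℝ A x)) x :=
    (ContinuousLinearMap.apply ℝ (Eu n) (ev m)).hasFDerivAt.comp x h1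
  have h3 : HasFDerivAt (fun x => (A x (ev m)) i) ((EuclideanSpace.proj (𝕜 := ℝ) i).comp
      ((ContinuousLinearMap.apply ℝ (Eu n) (ev m)).comp (fderiv ℝ A x))) x :=
    (EuclideanSpace.proj (𝕜 := ℝ) i).hasFDerivAt.comp x h2
  have h4 : HasFDerivAt (ent A i m) ((1 / 2 : ℝ) • ((EuclideanSpace.proj (𝕜 := ℝ) i).comp
      ((ContinuousLinearMap.apply ℝ (Eu n) (ev m)).comp (fderiv ℝ A x)))) x :=
    h3.const_mul (1 / 2)
  rw [h4.fderiv]
  rfl

theorem inner_ev (x : Eu n) (i : Fin n) : inner ℝ x (ev i) = x i := by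
  unfold ev
  rw [EuclideanSpace.inner_single_right]
  simp

theorem ent_skew {A : Eu n → (Eu n →L[ℝ] Eu n)}
    (hs : ∀ y a b, inner ℝ (A y a) b = - inner ℝ a (A y b)) (i m : Fin n) (x : Eu n) :
    ent A m i x = - ent A i m x := by
  have h := hs x (ev i) (ev m)
  rw [inner_ev, real_inner_comm, inner_ev] at h
  unfold ent
  rw [h]
  ring

theorem dv_eq {A : Eu n → (Eu n →L[ℝ] Eu n)} (hA : ContDiff ℝ ∞ A)
    (hs : ∀ y a b, inner ℝ (A y a) b = - inner ℝ a (A y b)) (x : Eu n) :
    dv A x = ∑ p : Fin n × Fin n, jgrad p.1 p.2 (ent A p.1 p.2) x := by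
  have hsk : ∀ i m : Fin n, ∀ h : Eu n, fderiv ℝ (ent A m i) x h = - fderiv ℝ (ent A i m) x h := by
    intro i m h
    have h1 : ent A m i = fun x => - ent A i m x := funext fun x => ent_skew hs i m x
    rw [h1]
    have h2 : HasFDerivAt (fun x => - ent A i m x) (-fderiv ℝ (ent A i m) x) x :=
      (((ent_smooth hA i m).differentiable (by simp)).differentiableAt.hasFDerivAt).neg
    rw [h2.fderiv]
    rfl
  have e1 : ∀ i m : Fin n, jgrad i m (ent A i m) x =
      ((1 / 2) * (fderiv ℝ A x (ev m) (ev m)) i) • ev i +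
        ((1 / 2) * (fderiv ℝ A x (ev i) (ev i)) m) • ev m := by
    intro i m
    unfold jgrad
    rw [← ent_fderiv hA, ← ent_fderiv hA, hsk i m (ev i)]
    module
  rw [Fintype.sum_prod_type]
  simp only [e1, Finset.sum_add_distrib]
  rw [Finset.sum_comm]
  have e2 : ∀ y : Eu n, ∑ i, ((1 / 2) * y i) • ev i = (1 / 2 : ℝ) • y := by
    intro y
    ext j
    simp [ev, Pi.single_apply]
  simp only [e2]
  unfold dv
  rw [← Finset.sum_add_distrib]
  refine Finset.sum_congr rfl fun j _ => ?_
  module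

end MDensA

open MDensA in
theorem mDens : MDens := by
  intro n U hU A hA
  obtain ⟨K0, hK0, hK0U, hA0⟩ := hA.supp
  obtain ⟨r0, hr0, hr0U⟩ := hK0.exists_cthickening_subset_open hU hK0U
  refine ⟨Metric.cthickening r0 K0, hK0.cthickening, hr0U, fun η hη => ?_⟩
  have hent0 : ∀ i m : Fin n, ∀ x ∉ K0, ent A i m x = 0 := by
    intro i m x hx
    unfold ent
    rw [hA0 x hx]
    simp
  have hηn : 0 < η / ((n : ℝ) ^ 2 + 1) := by positivity
  have hpair : ∀ p : Fin n × Fin n, ∃ (N : ℕ) (c : Fin N → Eu n) (r : Fin N → ℝ)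
      (β : Fin N → ℝ → ℝ), (∀ k : Fin N, p.1 ≠ p.2) ∧
      (∀ k, 0 < r k ∧ r k ≤ r0) ∧ (∀ k, c k ∈ K0) ∧ (∀ k, ContDiff ℝ ∞ (β k)) ∧
      (∀ k ρ, (r k) ^ 2 ≤ ρ → β k ρ = 0) ∧
      ∀ x, ‖jgrad p.1 p.2 (ent A p.1 p.2) x - ∑ k, swirl (c k) p.1 p.2 (β k) x‖ ≤
        η / ((n : ℝ) ^ 2 + 1) := by
    intro p
    by_cases hp : p.1 = p.2
    · refine ⟨0, Fin.elim0, Fin.elim0, Fin.elim0, fun k => k.elim0, fun k => k.elim0,
        fun k => k.elim0, fun k => k.elim0, fun k => k.elim0, fun x => ?_⟩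
      have h1 : jgrad p.1 p.2 (ent A p.1 p.2) x = 0 := by
        unfold jgrad
        rw [hp]
        simp
      rw [h1]
      simpa using hηn.le
    · obtain ⟨N, c, r, β, h1, h2, h3, h4, h5⟩ := one p.1 p.2 hK0 _
        (ent_smooth hA.smooth p.1 p.2) (hent0 p.1 p.2) hr0 hηn
      exact ⟨N, c, r, β, fun _ => hp, h1, h2, h3, h4, h5⟩
  choose N c r β hne hr hc hβ hβ0 hest using hpair
  let κ := Σ p : Fin n × Fin n, Fin (N p)
  let e := Fintype.equivFin κ
  refine ⟨Fintype.card κ, fun k => c (e.symm k).1 (e.symm k).2, fun k => r (e.symm k).1 (e.symm k).2,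
    fun k => (e.symm k).1.1, fun k => (e.symm k).1.2, fun k => β (e.symm k).1 (e.symm k).2,
    fun k => (hr _ _).1, fun k => ?_, fun k => hne _ (e.symm k).2, fun k => hβ _ _,
    fun k => hβ0 _ _, fun y hy => ?_, fun x => ?_⟩
  · exact (Metric.closedBall_subset_closedBall (hr _ _).2).trans
      (Metric.closedBall_subset_cthickening (hc _ _) r0)
  · have hy0 : y ∉ K0 := fun h => hy (Metric.self_subset_cthickening _ h)
    unfold dv
    rw [fderiv_out hK0 hA0 hy0]
    simp
  · have h1 : ∑ k : Fin (Fintype.card κ), swirl (c (e.symm k).1 (e.symm k).2) (e.symm k).1.1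
        (e.symm k).1.2 (β (e.symm k).1 (e.symm k).2) x =
        ∑ p : Fin n × Fin n, ∑ k : Fin (N p), swirl (c p k) p.1 p.2 (β p k) x := by
      rw [e.symm.sum_comp (fun q : κ => swirl (c q.1 q.2) q.1.1 q.1.2 (β q.1 q.2) x),
        Fintype.sum_sigma]
    rw [h1, dv_eq hA.smooth hA.skew, ← Finset.sum_sub_distrib]
    refine (norm_sum_le _ _).trans ((Finset.sum_le_sum fun p _ => hest p x).trans ?_)
    rw [Finset.sum_const, Finset.card_univ, Fintype.card_prod, Fintype.card_fin, nsmul_eq_mul]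
    push_cast
    rw [mul_div_assoc', div_le_iff₀ (by positivity)]
    nlinarith

end

end Pool.Agent.H68.GM
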