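import Pool.Agent.H68.GM.St
import Pool.Agent.H68.VD.ExtK

/-! # Extension of maps from a ball in a chart -/

namespace Pool.Agent.H68.GM

open MeasureTheory Set Pool.Agent.H68.VD
open scoped ENNReal ContDiff

noncomputable section

namespace MExtKA

variable {n : ℕ} {M : Type} [TopologicalSpace M] {ι : Type}

theorem dom_open (ch : ι → OpenPartialHomeomorph M (Eu n)) (i j : ι) : IsOpen (dom ch i j) :=
  (ch i).isOpen_inter_preimage_symm (ch j).open_source

theorem in_target (ch : ι → OpenPartialHomeomorph M (Eu n)) {i : ι} {c : Eu n} {r : ℝ}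
    (hc : Metric.closedBall c r ⊆ (ch i).target) {T : Eu n → Eu n} (hi : Function.Injective T)
    (hT : ∀ x, r ≤ dist x c → T x = x) {y : Eu n} (hy : y ∈ (ch i).target) :
    T y ∈ (ch i).target := by
  by_cases h : dist y c < r
  · exact hc (Metric.mem_closedBall.2 (ExtKA.maps_ball hi hT h).le)
  · rw [hT y (not_lt.1 h)]
    exact hy

theorem ext_in (ch : ι → OpenPartialHomeomorph M (Eu n)) {i : ι} (T : Eu n → Eu n) {x : M}
    (hx : x ∈ (ch i).source) : extM ch i T x = (ch i).symm (T (ch i x)) := by
  unfold extM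
  rw [if_pos hx]

theorem ext_out (ch : ι → OpenPartialHomeomorph M (Eu n)) {i : ι} (T : Eu n → Eu n) {x : M}
    (hx : x ∉ (ch i).source) : extM ch i T x = x := by
  unfold extM
  rw [if_neg hx]

theorem ext_symm (ch : ι → OpenPartialHomeomorph M (Eu n)) {i : ι} (T : Eu n → Eu n) {y : Eu n}
    (hy : y ∈ (ch i).target) : extM ch i T ((ch i).symm y) = (ch i).symm (T y) := by
  rw [ext_in ch T ((ch i).map_target hy), (ch i).right_inv hy]

/-- The extension is the identity off the image of the closed ball. -/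
theorem ext_off (ch : ι → OpenPartialHomeomorph M (Eu n)) {i : ι} {c : Eu n} {r : ℝ}
    {T : Eu n → Eu n} (hT : ∀ x, r ≤ dist x c → T x = x) {x : M}
    (hx : x ∉ (ch i).symm '' Metric.closedBall c r) : extM ch i T x = x := by
  by_cases h : x ∈ (ch i).source
  · rw [ext_in ch T h, hT, (ch i).left_inv h]
    by_contra h2
    push Not at h2
    exact hx ⟨ch i x, Metric.mem_closedBall.2 h2.le, (ch i).left_inv h⟩
  · exact ext_out ch T h

theorem comp_raw (ch : ι → OpenPartialHomeomorph M (Eu n)) {i : ι} {c : Eu n} {r : ℝ}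
    (hc : Metric.closedBall c r ⊆ (ch i).target) (S T : Eu n → Eu n)
    (hi : Function.Injective T) (hT : ∀ x, r ≤ dist x c → T x = x) (x : M) :
    extM ch i (fun y => S (T y)) x = extM ch i S (extM ch i T x) := by
  by_cases h : x ∈ (ch i).source
  · have h1 : T (ch i x) ∈ (ch i).target := in_target ch hc hi hT ((ch i).map_source h)
    rw [ext_in ch _ h, ext_in ch T h, ext_symm ch S h1]
  · rw [ext_out ch _ h, ext_out ch T h, ext_out ch S h]

theorem ext_id (ch : ι → OpenPartialHomeomorph M (Eu n)) (i : ι) (x : M) :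
    extM ch i (fun y => y) x = x := by
  by_cases h : x ∈ (ch i).source
  · rw [ext_in ch _ h, (ch i).left_inv h]
  · exact ext_out ch _ h

theorem bij_raw (ch : ι → OpenPartialHomeomorph M (Eu n)) {i : ι} {c : Eu n} {r : ℝ}
    (hc : Metric.closedBall c r ⊆ (ch i).target) (T : Eu n → Eu n)
    (hb : Function.Bijective T) (hT : ∀ x, r ≤ dist x c → T x = x) :
    Function.Bijective (extM ch i T) := by
  obtain ⟨S, hl, hr⟩ := Function.bijective_iff_has_inverse.1 hb
  have hS : ∀ x, r ≤ dist x c → S x = x := fun x hx => by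
    have := hl x
    rwa [hT x hx] at this
  have hSi : Function.Injective S := hr.injective
  refine Function.bijective_iff_has_inverse.2 ⟨extM ch i S, fun x => ?_, fun x => ?_⟩
  · rw [← comp_raw ch hc S T hb.1 hT]
    have : (fun y => S (T y)) = fun y => y := funext fun y => hl y
    rw [this, ext_id]
  · rw [← comp_raw ch hc T S hSi hS]
    have : (fun y => T (S y)) = fun y => y := funext fun y => hr y
    rw [this, ext_id]

/-! ### The local forms -/

section

variable {E : Type*} [NormedAddCommGroup E] [NormedSpace ℝ E] {ch : ι → OpenPartialHomeomorph M (Eu n)}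
  {i : ι} {c : Eu n} {r : ℝ} {T : E → Eu n → Eu n}

theorem off_open [T2Space M] (hc : Metric.closedBall c r ⊆ (ch i).target) :
    IsOpen ((ch i).symm '' Metric.closedBall c r)ᶜ := by
  refine IsClosed.isOpen_compl (s := (ch i).symm '' Metric.closedBall c r) (self := ?_)
  refine IsCompact.isClosed ?_
  refine (isCompact_closedBall c r).image_of_continuousOn ?_
  exact (ch i).continuousOn_symm.mono hc

theorem off_of (hc : Metric.closedBall c r ⊆ (ch i).target) {x : M} (hx : x ∉ (ch i).source) :
    x ∉ (ch i).symm '' Metric.closedBall c r := by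
  rintro ⟨y, hy, rfl⟩
  exact hx ((ch i).map_target (hc hy))

theorem cont [T2Space M] (hc : Metric.closedBall c r ⊆ (ch i).target) (hT : BallFam c r T) :
    Continuous (fun q : E × M => extM ch i (T q.1) q.2) := by
  rw [continuous_iff_continuousAt]
  rintro ⟨e, x⟩
  by_cases h : x ∈ (ch i).source
  · have h1 : ContinuousAt (fun q : E × M => (ch i).symm (T q.1 (ch i q.2))) (e, x) := by
      have h2 : T e (ch i x) ∈ (ch i).target :=
        in_target ch hc (hT.bij e).1 (hT.out e) ((ch i).map_source h)
      have h3 : ContinuousAt (fun q : E × M => T q.1 (ch i q.2)) (e, x) := by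
        have h4 : ContinuousAt (fun q : E × M => (q.1, ch i q.2)) (e, x) :=
          continuousAt_fst.prodMk (ContinuousAt.comp (x := ((e, x) : E × M)) (f := Prod.snd)
            ((ch i).continuousAt h) continuousAt_snd)
        exact ContinuousAt.comp (x := ((e, x) : E × M)) (f := fun q : E × M => (q.1, ch i q.2))
          hT.smooth.continuous.continuousAt h4
      exact ContinuousAt.comp (x := ((e, x) : E × M)) (f := fun q : E × M => T q.1 (ch i q.2))
        ((ch i).continuousAt_symm h2) h3
    refine h1.congr ?_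
    have h5 : IsOpen {q : E × M | q.2 ∈ (ch i).source} :=
      (ch i).open_source.preimage continuous_snd
    filter_upwards [h5.mem_nhds (show (e, x) ∈ {q : E × M | q.2 ∈ (ch i).source} from h)] with q hq
    exact (ext_in ch _ hq).symm
  · have h1 : ContinuousAt (fun q : E × M => q.2) (e, x) := continuousAt_snd
    refine h1.congr ?_
    have h5 : IsOpen {q : E × M | q.2 ∈ ((ch i).symm '' Metric.closedBall c r)ᶜ} :=
      (off_open hc).preimage continuous_snd
    filter_upwards [h5.mem_nhds (show (e, x) ∈ {q : E × M |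
      q.2 ∈ ((ch i).symm '' Metric.closedBall c r)ᶜ} from off_of hc h)] with q hq
    exact (ext_off ch (hT.out q.1) hq).symm

/-- Near a point over the chart `i`. -/
theorem local_in (hc : Metric.closedBall c r ⊆ (ch i).target)
    (hT : BallFam c r T) (j k : ι) (e : E) (y : Eu n) (hy : y ∈ (ch j).target)
    (hx : (ch j).symm y ∈ (ch i).source)
    (hk : extM ch i (T e) ((ch j).symm y) ∈ (ch k).source) :
    y ∈ dom ch j i ∧ T e (tr ch j i y) ∈ dom ch i k ∧
    (fun q : E × Eu n => ch k (extM ch i (T q.1) ((ch j).symm q.2))) =ᶠ[nhds (e, y)]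
      fun q => tr ch i k (T q.1 (tr ch j i q.2)) := by
  have h1 : T e (tr ch j i y) ∈ (ch i).target :=
    in_target ch hc (hT.bij e).1 (hT.out e) ((ch i).map_source hx)
  refine ⟨⟨hy, hx⟩, ⟨h1, ?_⟩, ?_⟩
  · rw [ext_in ch _ hx] at hk
    exact hk
  · have h5 : IsOpen {q : E × Eu n | q.2 ∈ dom ch j i} :=
      (dom_open ch j i).preimage continuous_snd
    filter_upwards [h5.mem_nhds (show (e, y) ∈ {q : E × Eu n | q.2 ∈ dom ch j i} from ⟨hy, hx⟩)]
      with q hq
    show ch k (extM ch i (T q.1) ((ch j).symm q.2)) = ch k ((ch i).symm (T q.1 (ch i ((ch j).symm q.2))))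
    rw [ext_in ch _ hq.2]

/-- Near a point off the chart `i`. -/
theorem local_out [T2Space M] (hc : Metric.closedBall c r ⊆ (ch i).target)
    (hT : BallFam c r T) (j k : ι) (e : E) (y : Eu n) (hy : y ∈ (ch j).target)
    (hx : (ch j).symm y ∉ (ch i).source)
    (hk : extM ch i (T e) ((ch j).symm y) ∈ (ch k).source) :
    y ∈ dom ch j k ∧
    (fun q : E × Eu n => ch k (extM ch i (T q.1) ((ch j).symm q.2))) =ᶠ[nhds (e, y)]
      fun q => tr ch j k q.2 := by
  rw [ext_out ch _ hx] at hk
  refine ⟨⟨hy, hk⟩, ?_⟩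
  have h5 : IsOpen ((ch j).target ∩ (ch j).symm ⁻¹' ((ch i).symm '' Metric.closedBall c r)ᶜ) :=
    (ch j).isOpen_inter_preimage_symm (off_open hc)
  have h6 : IsOpen {q : E × Eu n | q.2 ∈ (ch j).target ∩ (ch j).symm ⁻¹'
      ((ch i).symm '' Metric.closedBall c r)ᶜ} := h5.preimage continuous_snd
  filter_upwards [h6.mem_nhds (show (e, y) ∈ {q : E × Eu n | q.2 ∈ (ch j).target ∩
    (ch j).symm ⁻¹' ((ch i).symm '' Metric.closedBall c r)ᶜ} from ⟨hy, off_of hc hx⟩)] with q hq
  show ch k (extM ch i (T q.1) ((ch j).symm q.2)) = ch k ((ch j).symm q.2)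
  rw [ext_off ch (hT.out q.1) hq.2]

theorem fam [T2Space M] (hA : VolAtlas ch) (hc : Metric.closedBall c r ⊆ (ch i).target)
    (hT : BallFam c r T) : MFam ch (fun e => extM ch i (T e)) where
  cont := cont hc hT
  smooth := by
    rintro j k ⟨e, y⟩ ⟨hy, hk⟩
    refine ContDiffAt.contDiffWithinAt ?_
    by_cases hx : (ch j).symm y ∈ (ch i).source
    · obtain ⟨h1, h2, h3⟩ := local_in hc hT j k e y hy hx hk
      refine ContDiffAt.congr_of_eventuallyEq ?_ h3
      have a1 : ContDiffAt ℝ ∞ (tr ch j i) y :=
        (hA.smooth j i).contDiffAt ((dom_open ch j i).mem_nhds h1)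
      have a2 : ContDiffAt ℝ ∞ (tr ch i k) (T e (tr ch j i y)) :=
        (hA.smooth i k).contDiffAt ((dom_open ch i k).mem_nhds h2)
      have a3 : ContDiffAt ℝ ∞ (fun q : E × Eu n => tr ch j i q.2) (e, y) :=
        ContDiffAt.comp (e, y) (g := tr ch j i) (f := fun q : E × Eu n => q.2) a1 contDiffAt_snd
      have a4 : ContDiffAt ℝ ∞ (fun q : E × Eu n => (q.1, tr ch j i q.2)) (e, y) :=
        contDiffAt_fst.prodMk a3
      have a5 : ContDiffAt ℝ ∞ (fun q : E × Eu n => T q.1 (tr ch j i q.2)) (e, y) :=
        ContDiffAt.comp (e, y) (g := fun q : E × Eu n => T q.1 q.2)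
          (f := fun q : E × Eu n => (q.1, tr ch j i q.2)) hT.smooth.contDiffAt a4
      exact ContDiffAt.comp (e, y) (g := tr ch i k)
        (f := fun q : E × Eu n => T q.1 (tr ch j i q.2)) a2 a5
    · obtain ⟨h1, h3⟩ := local_out hc hT j k e y hy hx hk
      refine ContDiffAt.congr_of_eventuallyEq ?_ h3
      have a1 : ContDiffAt ℝ ∞ (tr ch j k) y :=
        (hA.smooth j k).contDiffAt ((dom_open ch j k).mem_nhds h1)
      exact ContDiffAt.comp (e, y) (g := tr ch j k) (f := fun q : E × Eu n => q.2) a1
        contDiffAt_snd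
  bij := fun e => bij_raw ch hc (T e) (hT.bij e) (hT.out e)
  det := by
    intro e j k y hy hk
    have hp : Filter.Tendsto (fun y : Eu n => ((e, y) : E × Eu n)) (nhds y) (nhds (e, y)) :=
      (Continuous.prodMk_right e).tendsto y
    by_cases hx : (ch j).symm y ∈ (ch i).source
    · obtain ⟨h1, h2, h3⟩ := local_in hc hT j k e y hy hx hk
      have h4 : (fun y : Eu n => ch k (extM ch i (T e) ((ch j).symm y))) =ᶠ[nhds y]
          fun y => tr ch i k (T e (tr ch j i y)) := hp.eventually h3
      have a1 : HasFDerivAt (tr ch j i) (fderiv ℝ (tr ch j i) y) y :=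
        (((hA.smooth j i).contDiffAt ((dom_open ch j i).mem_nhds h1)).differentiableAt
          (by simp)).hasFDerivAt
      have a2 : HasFDerivAt (tr ch i k) (fderiv ℝ (tr ch i k) (T e (tr ch j i y)))
          (T e (tr ch j i y)) :=
        (((hA.smooth i k).contDiffAt ((dom_open ch i k).mem_nhds h2)).differentiableAt
          (by simp)).hasFDerivAt
      have hTe : ContDiff ℝ ∞ (T e) := hT.smooth.comp (contDiff_const.prodMk contDiff_id)
      have a3 : HasFDerivAt (T e) (fderiv ℝ (T e) (tr ch j i y)) (tr ch j i y) :=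
        (hTe.differentiable (by simp)).differentiableAt.hasFDerivAt
      have a4 := HasFDerivAt.comp y a2 (HasFDerivAt.comp y a3 a1)
      have a5 : fderiv ℝ (fun y => tr ch i k (T e (tr ch j i y))) y =
          (fderiv ℝ (tr ch i k) (T e (tr ch j i y))).comp
            ((fderiv ℝ (T e) (tr ch j i y)).comp (fderiv ℝ (tr ch j i) y)) := a4.fderiv
      rw [h4.fderiv_eq, a5]
      have b1 := hA.det j i y h1
      have b2 := hA.det i k _ h2
      have b3 := hT.det e (tr ch j i y)
      simp only [ContinuousLinearMap.det, ContinuousLinearMap.toLinearMap_comp,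
        LinearMap.det_comp] at b1 b2 b3 ⊢
      rw [abs_mul, abs_mul, b1, b2, b3]
      simp
    · obtain ⟨h1, h3⟩ := local_out hc hT j k e y hy hx hk
      have h4 : (fun y : Eu n => ch k (extM ch i (T e) ((ch j).symm y))) =ᶠ[nhds y]
          fun y => tr ch j k y := hp.eventually h3
      rw [h4.fderiv_eq]
      exact hA.det j k y h1

end

/-! ### Velocities -/

omit [TopologicalSpace M] in
theorem invFunM [Nonempty M] {T : M → M} (hT : Function.Injective T) {x y : M} (h : T x = y) :
    Function.invFun T y = x := by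
  rw [← h]
  exact Function.leftInverse_invFun hT x

theorem velExt [Nonempty M] (ch : ι → OpenPartialHomeomorph M (Eu n)) (hA : VolAtlas ch)
    (i : ι) (c : Eu n) (r : ℝ) (hc : Metric.closedBall c r ⊆ (ch i).target)
    (T : ℝ → Eu n → Eu n) (hT : BallFam c r T) (t : ℝ) (j : ι) (y : Eu n) :
    mvel ch (fun t => extM ch i (T t)) t j y = push ch i (vel T t) j y := by
  have hb := bij_raw ch hc (T t) (hT.bij t) (hT.out t)
  unfold mvel push
  by_cases hy : y ∈ (ch j).target
  · rw [if_pos hy]
    by_cases hx : (ch j).symm y ∈ (ch i).source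
    · have hd : y ∈ dom ch j i := ⟨hy, hx⟩
      rw [if_pos hd]
      obtain ⟨z, hz⟩ := (hT.bij t).2 (tr ch j i y)
      have hw : tr ch j i y ∈ (ch i).target := (ch i).map_source hx
      have hzt : z ∈ (ch i).target := by
        by_cases h : dist z c < r
        · exact hc (Metric.mem_closedBall.2 h.le)
        · rw [hT.out t z (not_lt.1 h)] at hz
          rw [hz]
          exact hw
      have h1 : extM ch i (T t) ((ch i).symm z) = (ch j).symm y := by
        rw [ext_symm ch _ hzt, hz]
        exact (ch i).left_inv hx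
      rw [invFunM hb.1 h1]
      have h2 : (fun τ => ch j (extM ch i (T τ) ((ch i).symm z))) = fun τ => tr ch i j (T τ z) := by
        funext τ
        rw [ext_symm ch _ hzt]
        rfl
      rw [h2]
      have hd2 : T t z ∈ dom ch i j := by
        rw [hz]
        refine ⟨hw, ?_⟩
        show (ch i).symm (ch i ((ch j).symm y)) ∈ (ch j).source
        rw [(ch i).left_inv hx]
        exact (ch j).map_target hy
      have a2 : HasFDerivAt (tr ch i j) (fderiv ℝ (tr ch i j) (T t z)) (T t z) :=
        (((hA.smooth i j).contDiffAt ((dom_open ch i j).mem_nhds hd2)).differentiableAt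
          (by simp)).hasFDerivAt
      have h3 : ContDiff ℝ ∞ (fun τ => T τ z) := hT.smooth.comp (contDiff_id.prodMk contDiff_const)
      have h4 : HasDerivAt (fun τ => T τ z) (deriv (fun τ => T τ z) t) t :=
        ((h3.differentiable (by simp)) t).hasDerivAt
      have h5 : HasDerivAt (tr ch i j ∘ fun τ => T τ z)
          (fderiv ℝ (tr ch i j) (T t z) (deriv (fun τ => T τ z) t)) t :=
        a2.comp_hasDerivAt t h4
      change deriv (tr ch i j ∘ fun τ => T τ z) t = _
      rw [h5.deriv, hz]
      unfold vel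
      rw [ExtKA.invFun_eq (hT.bij t).1 hz]
    · have hd : y ∉ dom ch j i := fun h => hx h.2
      rw [if_neg hd, invFunM hb.1 (ext_out ch (T t) hx)]
      have h2 : (fun τ => ch j (extM ch i (T τ) ((ch j).symm y))) = fun _ => ch j ((ch j).symm y) := by
        funext τ
        rw [ext_out ch _ hx]
      rw [h2, deriv_const]
  · have hd : y ∉ dom ch j i := fun h => hy h.1
    rw [if_neg hy, if_neg hd]

end MExtKA

/-- Extension of maps from a ball in a chart. -/
theorem mExtKit (F : FamKit) : MExtKit where
  fam := fun _ _ _ _ _ _ hA _ _ _ _ hc _ _ _ _ hT => MExtKA.fam hA hc hT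
  comp := fun _ _ _ _ ch _ _ _ _ hc _ _ _ S T _ hT e x =>
    MExtKA.comp_raw ch hc (S e) (T e) (hT.bij e).1 (hT.out e) x
  velExt := fun _ _ _ _ _ _ ch hA i c r _ hc T hT t j y => MExtKA.velExt ch hA i c r hc T hT t j y
  velOut := fun _ c r T hT t x hx => ExtKA.velOut c r T hT t x hx
  velSmooth := fun n c r T hT t => by
    have h1 : IsPath (⊥ : Subgroup (Eu n ≃ᵃ[ℝ] Eu n)) T :=
      { smooth := hT.smooth
        bij := hT.bij
        det := hT.det
        equi := fun e g hg x => by
          rw [Subgroup.mem_bot.1 hg]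
          rfl }
    exact (F.velSmooth n _ T h1).comp (contDiff_const.prodMk contDiff_id)

end

end Pool.Agent.H68.GM
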