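import Pool.Agent.H68.GM.St

/-! # Families of diffeomorphisms of a closed manifold and their velocities -/

namespace Pool.Agent.H68.GM

open MeasureTheory Set Pool.Agent.H68.VD
open scoped ENNReal ContDiff Topology

noncomputable section

namespace MFamA

variable {n : ℕ} {M : Type} [TopologicalSpace M] {ι : Type}
  {ch : ι → OpenPartialHomeomorph M (Eu n)}

section basic

variable {E : Type*} [NormedAddCommGroup E] [NormedSpace ℝ E] {F G : E → M → M}

/-- The representative of a family in the charts. -/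
def lr (ch : ι → OpenPartialHomeomorph M (Eu n)) (F : E → M → M) (i j : ι) (q : E × Eu n) : Eu n :=
  ch j (F q.1 ((ch i).symm q.2))

/-- The domain of the representative. -/
def lD (ch : ι → OpenPartialHomeomorph M (Eu n)) (F : E → M → M) (i j : ι) : Set (E × Eu n) :=
  {q | q.2 ∈ (ch i).target ∧ F q.1 ((ch i).symm q.2) ∈ (ch j).source}

theorem contOn (hF : Continuous (fun q : E × M => F q.1 q.2)) (i : ι) :
    ContinuousOn (fun q : E × Eu n => F q.1 ((ch i).symm q.2)) {q | q.2 ∈ (ch i).target} := by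
  have h1 : ContinuousOn (fun q : E × Eu n => (q.1, (ch i).symm q.2)) {q | q.2 ∈ (ch i).target} :=
    continuousOn_fst.prodMk ((ch i).continuousOn_symm.comp continuousOn_snd (fun q hq => hq))
  exact hF.comp_continuousOn h1

theorem openT (i : ι) : IsOpen {q : E × Eu n | q.2 ∈ (ch i).target} :=
  (ch i).open_target.preimage continuous_snd

theorem openD (hF : Continuous (fun q : E × M => F q.1 q.2)) (i j : ι) :
    IsOpen (lD ch F i j) :=
  (contOn hF i).isOpen_inter_preimage (openT i) (ch j).open_source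

theorem smoothAt (h : MFam ch F) {i j : ι} {q : E × Eu n} (hq : q ∈ lD ch F i j) :
    ContDiffAt ℝ ∞ (lr ch F i j) q :=
  (h.smooth i j).contDiffAt ((openD h.cont i j).mem_nhds hq)

theorem diffAt (h : MFam ch F) {i j : ι} {q : E × Eu n} (hq : q ∈ lD ch F i j) :
    DifferentiableAt ℝ (lr ch F i j) q :=
  (smoothAt h hq).differentiableAt (by simp)

theorem fderivX (h : MFam ch F) {i j : ι} {e : E} {y : Eu n} (hq : (e, y) ∈ lD ch F i j) :
    HasFDerivAt (fun y => ch j (F e ((ch i).symm y))) ((fderiv ℝ (lr ch F i j) (e, y)).comp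
      (ContinuousLinearMap.inr ℝ E (Eu n))) y := by
  have h1 : HasFDerivAt (fun y : Eu n => (e, y)) (ContinuousLinearMap.inr ℝ E (Eu n)) y :=
    hasFDerivAt_prodMk_right e y
  exact (diffAt h hq).hasFDerivAt.comp y h1

theorem diffX (h : MFam ch F) {i j : ι} {e : E} {y : Eu n} (hq : (e, y) ∈ lD ch F i j) :
    HasFDerivAt (fun y => ch j (F e ((ch i).symm y)))
      (fderiv ℝ (fun y => ch j (F e ((ch i).symm y))) y) y :=
  (fderivX h hq).differentiableAt.hasFDerivAt

theorem detComp (A B : Eu n →L[ℝ] Eu n) : |(A.comp B).det| = |A.det| * |B.det| := by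
  have h5 : (A.comp B).det = A.det * B.det := by
    simp only [ContinuousLinearMap.det, ContinuousLinearMap.toLinearMap_comp]
    exact LinearMap.det_comp _ _
  rw [h5, abs_mul]

theorem evD (h : MFam ch F) {i j : ι} {q : E × Eu n} (hq : q ∈ lD ch F i j) :
    ∀ᶠ q' in 𝓝 q, q' ∈ lD ch F i j := (openD h.cont i j).mem_nhds hq

theorem lrComp {i j k : ι} {q : E × Eu n} (hq : q ∈ lD ch G i j) :
    lr ch (fun e x => F e (G e x)) i k q = lr ch F j k (q.1, lr ch G i j q) := by
  unfold lr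
  simp only
  rw [(ch j).left_inv hq.2]

theorem memComp {i j k : ι} {q : E × Eu n} (hq : q ∈ lD ch G i j)
    (hk : F q.1 (G q.1 ((ch i).symm q.2)) ∈ (ch k).source) :
    (q.1, lr ch G i j q) ∈ lD ch F j k := by
  refine ⟨(ch j).map_source hq.2, ?_⟩
  unfold lr
  simp only
  rw [(ch j).left_inv hq.2]
  exact hk

theorem isFamComp (hV : VolAtlas ch) (hF : MFam ch F) (hG : MFam ch G) :
    MFam ch (fun e x => F e (G e x)) := by
  have hc : Continuous (fun q : E × M => F q.1 (G q.1 q.2)) :=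
    hF.cont.comp (continuous_fst.prodMk hG.cont)
  refine ⟨hc, fun i k => ?_, fun e => (hF.bij e).comp (hG.bij e), fun e i k y hy hk => ?_⟩
  · intro q hq
    obtain ⟨j, hj⟩ := hV.cover (G q.1 ((ch i).symm q.2))
    have hq1 : q ∈ lD ch G i j := ⟨hq.1, hj⟩
    have hq2 : (q.1, lr ch G i j q) ∈ lD ch F j k := memComp hq1 hq.2
    have h1 : ContDiffAt ℝ ∞ (fun q : E × Eu n => (q.1, lr ch G i j q)) q :=
      contDiffAt_fst.prodMk (smoothAt hG hq1)
    have h2 : ContDiffAt ℝ ∞ (fun q => lr ch F j k (q.1, lr ch G i j q)) q :=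
      ContDiffAt.comp (f := fun q : E × Eu n => (q.1, lr ch G i j q)) (g := lr ch F j k) q
        (smoothAt hF hq2) h1
    apply ContDiffAt.contDiffWithinAt
    refine h2.congr_of_eventuallyEq ?_
    filter_upwards [evD hG hq1] with q' hq'
    exact lrComp hq'
  · obtain ⟨j, hj⟩ := hV.cover (G e ((ch i).symm y))
    have hq1 : (e, y) ∈ lD ch G i j := ⟨hy, hj⟩
    have hq2 : (e, ch j (G e ((ch i).symm y))) ∈ lD ch F j k := memComp hq1 hk
    have h1 := (diffX hF hq2).comp y (diffX hG hq1)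
    have h2 : HasFDerivAt (fun y => ch k (F e (G e ((ch i).symm y))))
        ((fderiv ℝ (fun y => ch k (F e ((ch j).symm y))) (ch j (G e ((ch i).symm y)))).comp
        (fderiv ℝ (fun y => ch j (G e ((ch i).symm y))) y)) y := by
      refine h1.congr_of_eventuallyEq ?_
      have h3 : Filter.Tendsto (fun z : Eu n => (e, z)) (𝓝 y) (𝓝 (e, y)) :=
        (continuous_const.prodMk continuous_id).tendsto y
      filter_upwards [h3.eventually (evD hG hq1)] with z hz
      exact lrComp hz
    rw [h2.fderiv, detComp, hF.det e j k _ hq2.1 hq2.2, hG.det e i j y hy hj, one_mul]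

theorem isFamRe {E' : Type*} [NormedAddCommGroup E'] [NormedSpace ℝ E'] {h : E' → E}
    (hF : MFam ch F) (hh : ContDiff ℝ ∞ h) : MFam ch (fun e => F (h e)) := by
  refine ⟨hF.cont.comp ((hh.continuous.comp continuous_fst).prodMk continuous_snd),
    fun i j => ?_, fun e => hF.bij (h e), fun e i j y hy hj => hF.det (h e) i j y hy hj⟩
  have h1 : ContDiff ℝ ∞ (fun q : E' × Eu n => (h q.1, q.2)) :=
    (hh.comp contDiff_fst).prodMk contDiff_snd
  exact (hF.smooth i j).comp h1.contDiffOn (fun q hq => hq)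

theorem isFamId (hV : VolAtlas ch) : MFam ch (fun (_ : E) (x : M) => x) := by
  refine ⟨continuous_snd, fun i j => ?_, fun e => Function.bijective_id,
    fun e i j y hy hj => hV.det i j y ⟨hy, hj⟩⟩
  exact (hV.smooth i j).comp contDiff_snd.contDiffOn (fun q hq => hq)

end basic

section inv

variable [Nonempty M] {E : Type} [NormedAddCommGroup E] [NormedSpace ℝ E] {F : E → M → M}

theorem invF (h : MFam ch F) (e : E) (x : M) : Function.invFun (F e) (F e x) = x :=
  Function.leftInverse_invFun (h.bij e).1 x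

theorem Finv (h : MFam ch F) (e : E) (x : M) : F e (Function.invFun (F e) x) = x :=
  Function.rightInverse_invFun (h.bij e).2 x

/-- The inverse in charts. -/
theorem key [CompleteSpace E] (h : MFam ch F) (e0 : E) (x0 : M) (i j : ι)
    (hi : x0 ∈ (ch i).source) (hj : F e0 x0 ∈ (ch j).source) :
    ∃ ψ : E × Eu n → Eu n, ContDiffAt ℝ ∞ ψ (e0, ch j (F e0 x0)) ∧
      ∀ᶠ q in 𝓝 (e0, ch j (F e0 x0)), q.2 ∈ (ch j).target ∧ ψ q ∈ (ch i).target ∧
        Function.invFun (F q.1) ((ch j).symm q.2) = (ch i).symm (ψ q) := by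
  set y0 := ch i x0 with hy0
  have hsy : (ch i).symm y0 = x0 := (ch i).left_inv hi
  have hq0 : (e0, y0) ∈ lD ch F i j := by
    refine ⟨(ch i).map_source hi, ?_⟩
    change F e0 ((ch i).symm y0) ∈ (ch j).source
    rw [hsy]
    exact hj
  set Φ : E × Eu n → E × Eu n := fun q => (q.1, lr ch F i j q) with hΦ
  have hΦ0 : Φ (e0, y0) = (e0, ch j (F e0 x0)) := by
    simp only [hΦ, lr]
    rw [hsy]
  have hΦs : ContDiffAt ℝ ∞ Φ (e0, y0) := contDiffAt_fst.prodMk (smoothAt h hq0)
  set L : E × Eu n →L[ℝ] Eu n := fderiv ℝ (lr ch F i j) (e0, y0) with hL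
  have hdet : (L.comp (ContinuousLinearMap.inr ℝ E (Eu n))).det ≠ 0 := by
    intro h0
    have h1 := h.det e0 i j y0 hq0.1 hq0.2
    rw [(fderivX h hq0).fderiv, ← hL, h0] at h1
    simp at h1
  set A : Eu n ≃L[ℝ] Eu n := ContinuousLinearMap.toContinuousLinearEquivOfDetNeZero _ hdet with hA
  set B : (E × Eu n) ≃L[ℝ] (E × Eu n) :=
    (ContinuousLinearEquiv.refl ℝ E).skewProd A (L.comp (ContinuousLinearMap.inl ℝ E (Eu n)))
    with hB
  have hBd : HasFDerivAt Φ (B : (E × Eu n) →L[ℝ] (E × Eu n)) (e0, y0) := by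
    have h1 : HasFDerivAt Φ ((ContinuousLinearMap.fst ℝ E (Eu n)).prod L) (e0, y0) :=
      hasFDerivAt_fst.prodMk (diffAt h hq0).hasFDerivAt
    have h2 : (B : (E × Eu n) →L[ℝ] (E × Eu n)) = (ContinuousLinearMap.fst ℝ E (Eu n)).prod L := by
      refine ContinuousLinearMap.ext fun q => ?_
      have h3 : B q = (q.1, A q.2 + L (q.1, 0)) := rfl
      have h4 : A q.2 = L (0, q.2) := rfl
      have h5 : ((ContinuousLinearMap.fst ℝ E (Eu n)).prod L) q = (q.1, L q) := rfl
      have h6 : (B : (E × Eu n) →L[ℝ] (E × Eu n)) q = B q := rfl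
      rw [h6, h3, h4, h5, ← map_add]
      simp
    rw [h2]
    exact h1
  have hn : (∞ : WithTop ℕ∞) ≠ 0 := by simp
  set Ψ := hΦs.localInverse hBd hn with hΨ
  have h1 : ContDiffAt ℝ ∞ Ψ (Φ (e0, y0)) := hΦs.to_localInverse hBd hn
  have h2 : ∀ᶠ y in 𝓝 (Φ (e0, y0)), Φ (Ψ y) = y :=
    (hΦs.hasStrictFDerivAt' hBd hn).eventually_right_inverse
  have h3 : Ψ (Φ (e0, y0)) = (e0, y0) := hΦs.localInverse_apply_image hBd hn
  have h4 : ∀ᶠ y in 𝓝 (Φ (e0, y0)), Ψ y ∈ lD ch F i j := by
    apply h1.continuousAt.eventually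
    rw [h3]
    exact evD h hq0
  have h5 : ∀ᶠ y in 𝓝 (Φ (e0, y0)), y.2 ∈ (ch j).target := by
    apply (openT j).mem_nhds
    rw [hΦ0]
    exact (ch j).map_source hj
  rw [hΦ0] at h1 h2 h4 h5
  refine ⟨fun q => (Ψ q).2, contDiffAt_snd.comp _ h1, ?_⟩
  filter_upwards [h2, h4, h5] with q a2 a4 a5
  refine ⟨a5, a4.1, ?_⟩
  have b1 : (Φ (Ψ q)).1 = q.1 := by rw [a2]
  have b2 : (Φ (Ψ q)).2 = q.2 := by rw [a2]
  simp only [hΦ, lr] at b1 b2
  have b3 := a4.2
  rw [b1] at b2 b3
  have b4 : (ch j).symm q.2 = F q.1 ((ch i).symm (Ψ q).2) := by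
    rw [← b2, (ch j).left_inv b3]
  rw [b4, invF h]

theorem contInv [CompleteSpace E] (hV : VolAtlas ch) (h : MFam ch F) :
    Continuous (fun q : E × M => Function.invFun (F q.1) q.2) := by
  rw [continuous_iff_continuousAt]
  rintro ⟨e0, z0⟩
  obtain ⟨x0, rfl⟩ : ∃ x, F e0 x = z0 := (h.bij e0).2 z0
  obtain ⟨i, hi⟩ := hV.cover x0
  obtain ⟨j, hj⟩ := hV.cover (F e0 x0)
  obtain ⟨ψ, h1, h2⟩ := key h e0 x0 i j hi hj
  have h3 : ContinuousAt (fun q : E × M => (q.1, ch j q.2)) (e0, F e0 x0) :=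
    continuousAt_fst.prodMk (ContinuousAt.comp (f := fun q : E × M => q.2) (g := ch j)
      ((ch j).continuousAt hj) continuousAt_snd)
  have h4 : ContinuousAt (fun q : E × M => (ch i).symm (ψ (q.1, ch j q.2))) (e0, F e0 x0) := by
    have h5 : ContinuousAt (ch i).symm (ψ (e0, ch j (F e0 x0))) :=
      (ch i).continuousAt_symm h2.self_of_nhds.2.1
    have h6 : ContinuousAt (fun q : E × M => ψ (q.1, ch j q.2)) (e0, F e0 x0) :=
      ContinuousAt.comp (f := fun q : E × M => (q.1, ch j q.2)) (g := ψ) h1.continuousAt h3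
    exact ContinuousAt.comp (f := fun q : E × M => ψ (q.1, ch j q.2)) (g := (ch i).symm) h5 h6
  refine h4.congr ?_
  have h7 : ∀ᶠ q : E × M in 𝓝 (e0, F e0 x0), q.2 ∈ (ch j).source :=
    ((ch j).open_source.preimage continuous_snd).mem_nhds hj
  filter_upwards [h3.eventually h2, h7] with q hq hq7
  have h8 := hq.2.2
  rw [(ch j).left_inv hq7] at h8
  exact h8.symm

theorem isFamInv [CompleteSpace E] (hV : VolAtlas ch) (h : MFam ch F) :
    MFam ch (fun e => Function.invFun (F e)) := by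
  have hc := contInv hV h
  have hsm : ∀ j i, ∀ q ∈ lD ch (fun e => Function.invFun (F e)) j i,
      ContDiffAt ℝ ∞ (lr ch (fun e => Function.invFun (F e)) j i) q := by
    rintro j i ⟨e0, w0⟩ ⟨hw, hi⟩
    simp only at hw hi
    have hj : F e0 (Function.invFun (F e0) ((ch j).symm w0)) ∈ (ch j).source := by
      rw [Finv h]
      exact (ch j).map_target hw
    obtain ⟨ψ, h1, h2⟩ := key h e0 _ i j hi hj
    rw [Finv h, (ch j).right_inv hw] at h1 h2
    refine h1.congr_of_eventuallyEq ?_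
    filter_upwards [h2] with q hq
    unfold lr
    simp only
    rw [hq.2.2, (ch i).right_inv hq.2.1]
  refine ⟨hc, fun j i q hq => (hsm j i q hq).contDiffWithinAt, fun e => ⟨?_, ?_⟩,
    fun e j i w hw hi => ?_⟩
  · intro x y hxy
    have := congrArg (F e) hxy
    simpa only [Finv h] using this
  · intro x
    exact ⟨F e x, invF h e x⟩
  · set x0 := Function.invFun (F e) ((ch j).symm w) with hx0
    have hq : (e, w) ∈ lD ch (fun e => Function.invFun (F e)) j i := ⟨hw, hi⟩
    have hs := (hsm j i (e, w) hq).differentiableAt (by simp)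
    have hinr : HasFDerivAt (fun y : Eu n => (e, y)) (ContinuousLinearMap.inr ℝ E (Eu n)) w :=
      hasFDerivAt_prodMk_right e w
    have h1 : HasFDerivAt (fun w => ch i (Function.invFun (F e) ((ch j).symm w)))
        (fderiv ℝ (fun w => ch i (Function.invFun (F e) ((ch j).symm w))) w) w :=
      (hs.hasFDerivAt.comp w hinr).differentiableAt.hasFDerivAt
    have hq2 : (e, ch i x0) ∈ lD ch F i j := by
      refine ⟨(ch i).map_source hi, ?_⟩
      simp only
      rw [(ch i).left_inv hi, hx0, Finv h]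
      exact (ch j).map_target hw
    have h2 := (diffX h hq2).comp w h1
    have h3 : HasFDerivAt (fun w : Eu n => w) ((fderiv ℝ (fun y => ch j (F e ((ch i).symm y)))
        (ch i x0)).comp
        (fderiv ℝ (fun w => ch i (Function.invFun (F e) ((ch j).symm w))) w)) w := by
      refine h2.congr_of_eventuallyEq ?_
      have h4 : Filter.Tendsto (fun z : Eu n => (e, z)) (𝓝 w) (𝓝 (e, w)) :=
        (continuous_const.prodMk continuous_id).tendsto w
      filter_upwards [h4.eventually ((openD hc j i).mem_nhds hq)] with z hz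
      have h5 : z ∈ (ch j).target := hz.1
      have h6 : Function.invFun (F e) ((ch j).symm z) ∈ (ch i).source := hz.2
      simp only [Function.comp]
      rw [(ch i).left_inv h6, Finv h, (ch j).right_inv h5]
    have h4 := h3.unique (hasFDerivAt_id w)
    have h5 := congrArg (fun A : Eu n →L[ℝ] Eu n => |A.det|) h4
    simp only at h5
    have h6 : (ContinuousLinearMap.id ℝ (Eu n)).det = 1 := by
      simp [ContinuousLinearMap.det]
    rw [detComp, h.det e i j _ hq2.1 hq2.2, h6, one_mul, abs_one] at h5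
    exact h5

end inv

section vel

variable [Nonempty M] {E : Type} [NormedAddCommGroup E] [NormedSpace ℝ E] {F : E → M → M}

/-- The derivative of a curve in a chart. -/
theorem pathD (h : MFam ch F) {c : ℝ → E} {c' : E} {t : ℝ} (hc : HasDerivAt c c' t) {x : M}
    {i k : ι} (hk : x ∈ (ch k).source) (hi : F (c t) x ∈ (ch i).source) :
    HasDerivAt (fun τ => ch i (F (c τ) x)) (fderiv ℝ (lr ch F k i) (c t, ch k x) (c', 0)) t := by
  have hq : (c t, ch k x) ∈ lD ch F k i := by
    refine ⟨(ch k).map_source hk, ?_⟩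
    simp only
    rw [(ch k).left_inv hk]
    exact hi
  have h1 : HasDerivAt (fun τ : ℝ => (c τ, ch k x)) (c', (0 : Eu n)) t :=
    hc.prodMk (hasDerivAt_const t _)
  have h2 := (diffAt h hq).hasFDerivAt.comp_hasDerivAt t h1
  have h3 : (lr ch F k i ∘ fun τ : ℝ => (c τ, ch k x)) = fun τ => ch i (F (c τ) x) := by
    funext τ
    simp only [Function.comp, lr]
    rw [(ch k).left_inv hk]
  rw [h3] at h2
  exact h2

theorem velF (h : MFam ch F) {c : ℝ → E} {c' : E} {t : ℝ} (hc : HasDerivAt c c' t)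
    {i k : ι} {y : Eu n} (hy : y ∈ (ch i).target)
    (hk : Function.invFun (F (c t)) ((ch i).symm y) ∈ (ch k).source) :
    mvel ch (fun τ => F (c τ)) t i y =
      fderiv ℝ (lr ch F k i) (c t, lr ch (fun e => Function.invFun (F e)) i k (c t, y)) (c', 0) := by
  unfold mvel
  rw [if_pos hy]
  have h1 : F (c t) (Function.invFun (F (c t)) ((ch i).symm y)) ∈ (ch i).source := by
    rw [Finv h]
    exact (ch i).map_target hy
  exact (pathD h hc hk h1).deriv

theorem velCurve (hV : VolAtlas ch) (h : MFam ch F) {c : ℝ → E} {c' : E} {t : ℝ}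
    (hc : HasDerivAt c c' t) {x : M} {i : ι} (hi : F (c t) x ∈ (ch i).source) :
    HasDerivAt (fun τ => ch i (F (c τ) x)) (mvel ch (fun τ => F (c τ)) t i (ch i (F (c t) x))) t := by
  obtain ⟨k, hk⟩ := hV.cover x
  have h1 := pathD h hc hk hi
  have h2 : mvel ch (fun τ => F (c τ)) t i (ch i (F (c t) x)) =
      deriv (fun τ => ch i (F (c τ) x)) t := by
    unfold mvel
    rw [if_pos ((ch i).map_source hi), (ch i).left_inv hi, invF h]
  rw [h2]
  exact h1.differentiableAt.hasDerivAt

variable {φ ψ : ℝ → M → M}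

theorem velEq (hV : VolAtlas ch) (h : MFam ch φ) (t : ℝ) (x : M) (i : ι)
    (hi : φ t x ∈ (ch i).source) :
    HasDerivAt (fun τ => ch i (φ τ x)) (mvel ch φ t i (ch i (φ t x))) t :=
  velCurve hV h (hasDerivAt_id t) hi

/-- Continuity and smoothness of the formula for the velocity. -/
theorem velForm [CompleteSpace E] (hV : VolAtlas ch) (h : MFam ch F) (c' : E) {i k : ι} {q : E × Eu n}
    (hq : q ∈ lD ch (fun e => Function.invFun (F e)) i k) :
    ContDiffAt ℝ ∞ (fun q : E × Eu n =>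
      fderiv ℝ (lr ch F k i) (q.1, lr ch (fun e => Function.invFun (F e)) i k q) (c', 0)) q := by
  have hI := isFamInv hV h
  have h1 : (q.1, lr ch (fun e => Function.invFun (F e)) i k q) ∈ lD ch F k i := by
    refine memComp hq ?_
    rw [Finv h]
    exact (ch i).map_target hq.1
  have h2 : ContDiffAt ℝ ∞ (fderiv ℝ (lr ch F k i))
      (q.1, lr ch (fun e => Function.invFun (F e)) i k q) :=
    (smoothAt h h1).fderiv_right (by simp)
  have h3 : ContDiffAt ℝ ∞ (fun q : E × Eu n =>
      (q.1, lr ch (fun e => Function.invFun (F e)) i k q)) q :=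
    contDiffAt_fst.prodMk (smoothAt hI hq)
  exact (h2.comp q h3).clm_apply contDiffAt_const

theorem velFld (hV : VolAtlas ch) (h : MFam ch φ) (t : ℝ) : IsFld ch (mvel ch φ t) := by
  refine ⟨fun i y hy => ?_, fun i y hy => ?_, fun i j y hy => ?_⟩
  · obtain ⟨k, hk⟩ := hV.cover (Function.invFun (φ t) ((ch i).symm y))
    have hq : (t, y) ∈ lD ch (fun e => Function.invFun (φ e)) i k := ⟨hy, hk⟩
    have h1 := velForm hV h (1 : ℝ) hq
    have h2 : ContDiffAt ℝ ∞ (fun y : Eu n => (t, y)) y := contDiffAt_const.prodMk contDiffAt_id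
    have h3 := ContDiffAt.comp (f := fun y : Eu n => (t, y)) y h1 h2
    apply ContDiffAt.contDiffWithinAt
    refine h3.congr_of_eventuallyEq ?_
    have h4 : Filter.Tendsto (fun z : Eu n => (t, z)) (𝓝 y) (𝓝 (t, y)) :=
      (continuous_const.prodMk continuous_id).tendsto y
    filter_upwards [h4.eventually (evD (isFamInv hV h) hq)] with z hz
    exact velF h (hasDerivAt_id t) hz.1 hz.2
  · unfold mvel
    rw [if_neg hy]
  · set z := (ch i).symm y with hz
    have hzi : z ∈ (ch i).source := (ch i).map_target hy.1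
    have hzj : z ∈ (ch j).source := hy.2
    obtain ⟨x, hx⟩ : ∃ x, φ t x = z := (h.bij t).2 z
    have h1 := velEq hV h t x i (by rw [hx]; exact hzi)
    have h2 := velEq hV h t x j (by rw [hx]; exact hzj)
    rw [hx] at h1 h2
    have e1 : ch i z = y := (ch i).right_inv hy.1
    have e2 : ch j z = tr ch i j y := rfl
    rw [e1] at h1
    rw [e2] at h2
    have hdo : IsOpen (dom ch i j) := (openD (F := fun (_ : ℝ) (x : M) => x) continuous_snd i j).preimage
      (continuous_const.prodMk continuous_id : Continuous (fun y : Eu n => ((0 : ℝ), y)))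
    have h3 : HasFDerivAt (tr ch i j) (fderiv ℝ (tr ch i j) y) y :=
      (((hV.smooth i j).contDiffAt (hdo.mem_nhds hy)).differentiableAt (by simp)).hasFDerivAt
    have h4 : HasDerivAt (fun τ => tr ch i j (ch i (φ τ x)))
        (fderiv ℝ (tr ch i j) y (mvel ch φ t i y)) t := by
      have h5 : HasFDerivAt (tr ch i j) (fderiv ℝ (tr ch i j) y) (ch i (φ t x)) := by
        rw [hx, e1]
        exact h3
      exact h5.comp_hasDerivAt t h1
    have hcx : Continuous (fun τ : ℝ => φ τ x) := h.cont.comp (continuous_id.prodMk continuous_const)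
    have h6 : ∀ᶠ τ in 𝓝 t, φ τ x ∈ (ch i).source := by
      apply hcx.continuousAt.eventually
      apply (ch i).open_source.mem_nhds
      change φ t x ∈ (ch i).source
      rw [hx]
      exact hzi
    have h7 : HasDerivAt (fun τ => ch j (φ τ x)) (fderiv ℝ (tr ch i j) y (mvel ch φ t i y)) t := by
      refine h4.congr_of_eventuallyEq ?_
      filter_upwards [h6] with τ hτ
      unfold tr
      rw [(ch i).left_inv hτ]
    exact h2.unique h7

theorem velFam {H : ℝ × ℝ → M → M} (hV : VolAtlas ch) (h : MFam ch H) (i : ι) :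
    ContinuousOn (fun q : (ℝ × ℝ) × Eu n => mvel ch (fun θ => H (q.1.1, θ)) q.1.2 i q.2)
      {q | q.2 ∈ (ch i).target} := by
  rintro ⟨⟨s, t⟩, y⟩ hy
  obtain ⟨k, hk⟩ := hV.cover (Function.invFun (H (s, t)) ((ch i).symm y))
  have hq : ((s, t), y) ∈ lD ch (fun e => Function.invFun (H e)) i k := ⟨hy, hk⟩
  have h1 := (velForm hV h ((0 : ℝ), (1 : ℝ)) hq).continuousAt
  apply ContinuousAt.continuousWithinAt
  refine h1.congr ?_
  filter_upwards [evD (isFamInv hV h) hq] with q hq'
  have h2 : HasDerivAt (fun θ : ℝ => (q.1.1, θ)) ((0 : ℝ), (1 : ℝ)) q.1.2 :=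
    (hasDerivAt_const _ _).prodMk (hasDerivAt_id _)
  exact (velF h h2 hq'.1 hq'.2).symm

theorem velComp (hV : VolAtlas ch) (hφ : MFam ch φ) (hψ : MFam ch ψ) (t : ℝ) (x : M) (i j : ι)
    (hi : ψ t x ∈ (ch i).source) (hj : φ t (ψ t x) ∈ (ch j).source) :
    mvel ch (fun t x => φ t (ψ t x)) t j (ch j (φ t (ψ t x))) =
      mvel ch φ t j (ch j (φ t (ψ t x))) +
        fderiv ℝ (fun y => ch j (φ t ((ch i).symm y))) (ch i (ψ t x))
          (mvel ch ψ t i (ch i (ψ t x))) := by
  have h1 := velEq hV (isFamComp hV hφ hψ) t x j hj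
  have hq : (t, ch i (ψ t x)) ∈ lD ch φ i j := by
    refine ⟨(ch i).map_source hi, ?_⟩
    simp only
    rw [(ch i).left_inv hi]
    exact hj
  have h2 : HasDerivAt (fun τ : ℝ => (τ, ch i (ψ τ x)))
      ((1 : ℝ), mvel ch ψ t i (ch i (ψ t x))) t :=
    (hasDerivAt_id t).prodMk (velEq hV hψ t x i hi)
  have h3 := (diffAt hφ hq).hasFDerivAt.comp_hasDerivAt t h2
  have hcx : Continuous (fun τ : ℝ => ψ τ x) := hψ.cont.comp (continuous_id.prodMk continuous_const)
  have h6 : ∀ᶠ τ in 𝓝 t, ψ τ x ∈ (ch i).source :=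
    hcx.continuousAt.eventually ((ch i).open_source.mem_nhds hi)
  have h7 : HasDerivAt (fun τ => ch j (φ τ (ψ τ x)))
      (fderiv ℝ (lr ch φ i j) (t, ch i (ψ t x)) ((1 : ℝ), mvel ch ψ t i (ch i (ψ t x)))) t := by
    refine h3.congr_of_eventuallyEq ?_
    filter_upwards [h6] with τ hτ
    simp only [Function.comp, lr]
    rw [(ch i).left_inv hτ]
  have h8 := h1.unique h7
  rw [h8]
  have h9 : fderiv ℝ (lr ch φ i j) (t, ch i (ψ t x)) ((1 : ℝ), (0 : Eu n)) =
      mvel ch φ t j (ch j (φ t (ψ t x))) :=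
    (pathD hφ (hasDerivAt_id t) hi hj).unique (velEq hV hφ t (ψ t x) j hj)
  rw [← h9, (fderivX hφ hq).fderiv]
  have h5 : ((1 : ℝ), mvel ch ψ t i (ch i (ψ t x))) =
      ((1 : ℝ), (0 : Eu n)) + ((0 : ℝ), mvel ch ψ t i (ch i (ψ t x))) := by
    simp
  rw [h5, map_add]
  rfl

theorem velRe (hV : VolAtlas ch) (h : MFam ch φ) (s : ℝ → ℝ) (t : ℝ)
    (hs : DifferentiableAt ℝ s t) (i : ι) (y : Eu n) :
    mvel ch (fun t => φ (s t)) t i y = deriv s t • mvel ch φ (s t) i y := by
  by_cases hy : y ∈ (ch i).target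
  · obtain ⟨x, hx⟩ : ∃ x, φ (s t) x = (ch i).symm y := (h.bij (s t)).2 _
    have hi : φ (s t) x ∈ (ch i).source := by
      rw [hx]
      exact (ch i).map_target hy
    have h1 := velEq hV h (s t) x i hi
    have h2 := h1.scomp t hs.hasDerivAt
    have h3 := velCurve hV h hs.hasDerivAt hi
    rw [hx, (ch i).right_inv hy] at h3 h2
    exact h3.unique h2
  · unfold mvel
    rw [if_neg hy, if_neg hy, smul_zero]

theorem velConst (f : M → M) (hφ : ∀ t, Function.Bijective (φ t))
    (hf : Function.Bijective f) (t : ℝ) (i : ι) (y : Eu n) :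
    mvel ch (fun t x => φ t (f x)) t i y = mvel ch φ t i y := by
  have h1 : ∀ x, f (Function.invFun (fun x => φ t (f x)) x) = Function.invFun (φ t) x := by
    intro x
    apply (hφ t).1
    rw [Function.rightInverse_invFun (hφ t).2 x]
    exact Function.rightInverse_invFun ((hφ t).comp hf).2 x
  unfold mvel
  simp only [h1]

end vel

end MFamA

theorem mFamKit : MFamKit where
  inv _ _ _ _ _ _ hV _ _ _ _ _ h := MFamA.isFamInv hV h
  comp _ _ _ _ _ hV _ _ _ _ _ hF hG := MFamA.isFamComp hV hF hG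
  re _ _ _ _ _ _ _ _ _ _ _ _ _ hF hh := MFamA.isFamRe hF hh
  id _ _ _ _ _ hV _ _ _ := MFamA.isFamId hV
  velEq _ _ _ _ _ _ hV _ h t x i hi := MFamA.velEq hV h t x i hi
  velFld _ _ _ _ _ _ hV _ h t := MFamA.velFld hV h t
  velFam _ _ _ _ _ _ hV _ h i := MFamA.velFam hV h i
  velComp _ _ _ _ _ _ hV _ _ hφ hψ t x i j hi hj := MFamA.velComp hV hφ hψ t x i j hi hj
  velRe _ _ _ _ _ _ hV _ s h t hs i y := MFamA.velRe hV h s t hs i y
  velConst _ _ _ _ _ _ _ f hφ hf t i y := MFamA.velConst f hφ hf t i y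

end

end Pool.Agent.H68.GM
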