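import Pool.Agent.H68.GM.St
import Pool.Agent.H68.VD.Main

/-! # Exact paths have cost zero on closed manifolds -/

namespace Pool.Agent.H68.GM

open MeasureTheory Set Filter Topology Pool.Agent.H68.VD
open scoped ENNReal ContDiff

noncomputable section

namespace MMainA

variable {n : ℕ} {M : Type} [TopologicalSpace M] {ι : Type}

theorem MCost.mono [Nonempty M] {ch : ι → OpenPartialHomeomorph M (Eu n)}
    {N : (ι → Eu n → Eu n) → ℝ≥0∞} {f : M → M}
    {a b : ℝ} (h : MCost ch N f a) (hab : a ≤ b) : MCost ch N f b := by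
  obtain ⟨φ, l, h1, h2, h3, h4, h5, h6, h7⟩ := h
  exact ⟨φ, l, h1, h2, h3, h4, h5, h6, h7.trans hab⟩

theorem cost_id [Nonempty M] (F : MFamKit) (K : MCostKit)
    {ch : ι → OpenPartialHomeomorph M (Eu n)} (hV : VolAtlas ch)
    {N : (ι → Eu n → Eu n) → ℝ≥0∞} {p : ℝ} (hN : MWeak ch N p) : MCost ch N id 0 := by
  have h := K.path n M ι ch hV N p hN (fun _ x => x) (F.id n M ι ch hV ℝ) rfl 1 0 zero_le_one
    le_rfl (by
      intro t _
      have h1 : (mvel ch (fun (_ : ℝ) (x : M) => x) t) = fun i y => (0 : ℝ) • (0 : Eu n) := by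
        funext i y
        simp [mvel]
      rw [h1, hN.smul 0 (fun _ _ => 0)]
      simp)
  have h2 : (fun x : M => x) = id := rfl
  rw [h2] at h
  simpa using h

theorem velComp0 [Nonempty M] (F : MFamKit) {ch : ι → OpenPartialHomeomorph M (Eu n)}
    (hV : VolAtlas ch) {φ ψ : ℝ → M → M} (hφ : MFam ch φ) (hψ : MFam ch ψ) (h0 : φ 0 = id)
    (h0' : ψ 0 = id) (j : ι) (y : Eu n) :
    mvel ch (fun t x => φ t (ψ t x)) 0 j y = mvel ch φ 0 j y + mvel ch ψ 0 j y := by
  by_cases hy : y ∈ (ch j).target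
  · set x := (ch j).symm y with hx
    have hxs : x ∈ (ch j).source := (ch j).map_target hy
    have hxy : ch j x = y := (ch j).right_inv hy
    have h1 : ψ 0 x = x := congrFun h0' x
    have h2 : φ 0 (ψ 0 x) = x := by rw [h1]; exact congrFun h0 x
    have h3 := F.velComp n M ι ch hV φ ψ hφ hψ 0 x j j (by rwa [h1]) (by rwa [h2])
    rw [h2, h1, hxy] at h3
    rw [h3]
    congr 1
    have h4 : fderiv ℝ (fun y => ch j (φ 0 ((ch j).symm y))) y = ContinuousLinearMap.id ℝ (Eu n) := by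
      have h5 : (fun y => ch j (φ 0 ((ch j).symm y))) =ᶠ[𝓝 y] fun y => y := by
        filter_upwards [(ch j).open_target.mem_nhds hy] with z hz
        rw [h0, id]
        exact (ch j).right_inv hz
      rw [h5.fderiv_eq]
      exact fderiv_id'
    rw [h4]
    rfl
  · simp [mvel, hy]

/-- The approximating path. -/
theorem exists_pi [T2Space M] [Nonempty M] (F : MFamKit) (CK : MCostKit) (TF : TwistFam)
    (TV : TwistVel) (R : RotKit) (X : MExtKit) (SC : MSwirl) (hn : 3 ≤ n)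
    {ch : ι → OpenPartialHomeomorph M (Eu n)} (hV : VolAtlas ch)
    {N : (ι → Eu n → Eu n) → ℝ≥0∞} {p : ℝ} (hN : MWeak ch N p)
    {κ : Type} [DecidableEq κ] (i : κ → ι) (c : κ → Eu n) (r : κ → ℝ) (a b : κ → Fin n)
    (β : κ → ℝ → ℝ) (hr : ∀ k, 0 < r k) (hc : ∀ k, Metric.closedBall (c k) (r k) ⊆ (ch (i k)).target)
    (hab : ∀ k, a k ≠ b k) (hβ : ∀ k, ContDiff ℝ ∞ (β k)) (hβ0 : ∀ k ρ, (r k) ^ 2 ≤ ρ → β k ρ = 0)
    (s : Finset κ) :
    ∃ Pi' : ℝ → M → M, MFam ch Pi' ∧ Pi' 0 = id ∧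
      (∀ j y, mvel ch Pi' 0 j y = ∑ k ∈ s, push ch (i k) (swirl (c k) (a k) (b k) (β k)) j y) ∧
      ∀ θ ε, 0 < ε → MCost ch N (Pi' θ) ε := by
  induction s using Finset.induction_on with
  | empty =>
    refine ⟨fun _ x => x, F.id n M ι ch hV ℝ, rfl, ?_, ?_⟩
    · intro j y
      simp [mvel]
    · intro θ ε hε
      exact MCost.mono (cost_id F CK hV hN) hε.le
  | insert k s hk ih =>
    obtain ⟨Pi', hPi, hPi0, hPiv, hPic⟩ := ih
    have hrot0 : rotR (a k) (b k) (0 : ℝ) = ContinuousLinearMap.id ℝ (Eu n) := by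
      have := R.per n (a k) (b k) 0
      simpa using this
    have hA1 : ContDiff ℝ ∞ (fun q : ℝ × ℝ => rotR (a k) (b k) (q.1 * β k q.2)) :=
      (R.smooth n (a k) (b k)).comp (contDiff_fst.mul ((hβ k).comp contDiff_snd))
    have hA2 : ∀ (e ρ : ℝ) (x : Eu n), ‖rotR (a k) (b k) (e * β k ρ) x‖ = ‖x‖ := fun e ρ x =>
      R.iso n (a k) (b k) (hab k) _ x
    have hA3 : ∀ (e ρ : ℝ), (rotR (a k) (b k) (e * β k ρ)).det = 1 := fun e ρ =>
      R.det n (a k) (b k) (hab k) _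
    have hA4 : ∀ (e ρ : ℝ), (r k) ^ 2 ≤ ρ →
        rotR (a k) (b k) (e * β k ρ) = ContinuousLinearMap.id ℝ (Eu n) := by
      intro e ρ hρ
      rw [hβ0 k ρ hρ, mul_zero, hrot0]
    have hB : BallFam (c k) (r k)
        (fun e : ℝ => twist (c k) (fun ρ => rotR (a k) (b k) (e * β k ρ))) :=
      TF n ℝ (c k) (r k) (fun e ρ => rotR (a k) (b k) (e * β k ρ)) (hr k) hA1 hA2 hA3 hA4
    have hT : MFam ch (fun e : ℝ =>
        extM ch (i k) (twist (c k) (fun ρ => rotR (a k) (b k) (e * β k ρ)))) :=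
      X.fam n M ι ch hV (i k) (c k) (r k) (hr k) (hc k) ℝ _ hB
    have htw0 : twist (c k) (fun ρ => rotR (a k) (b k) ((0 : ℝ) * β k ρ)) = id := by
      funext x
      simp [twist, hrot0]
    have hT0 : extM ch (i k) (twist (c k) (fun ρ => rotR (a k) (b k) ((0 : ℝ) * β k ρ))) = id := by
      funext x
      rw [htw0]
      unfold extM
      split_ifs with hx
      · exact (ch (i k)).left_inv hx
      · rfl
    have hvT : ∀ j y, mvel ch (fun e : ℝ =>
        extM ch (i k) (twist (c k) (fun ρ => rotR (a k) (b k) (e * β k ρ)))) 0 j y =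
        push ch (i k) (swirl (c k) (a k) (b k) (β k)) j y := by
      intro j z
      rw [X.velExt n M ι ch hV (i k) (c k) (r k) (hr k) (hc k) _ hB]
      congr 1
      funext y
      have h1 := TV n (c k) (r k) (fun e ρ => rotR (a k) (b k) (e * β k ρ)) (hr k) hA1 hA2 hA3
        hA4 0 y
      have h2 : twist (c k) ((fun e ρ => rotR (a k) (b k) (e * β k ρ)) 0) y = y := by
        have := congrFun htw0 y
        simpa using this
      rw [h2] at h1
      rw [h1]
      have h3 : HasDerivAt (fun τ : ℝ => rotR (a k) (b k) (τ * β k (‖y - c k‖ ^ 2)))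
          (β k (‖y - c k‖ ^ 2) • (rotJ (a k) (b k) ∘L
            rotR (a k) (b k) (0 * β k (‖y - c k‖ ^ 2)))) 0 := by
        have h4 : HasDerivAt (fun τ : ℝ => τ * β k (‖y - c k‖ ^ 2)) (β k (‖y - c k‖ ^ 2)) 0 := by
          simpa using (hasDerivAt_id (0 : ℝ)).mul_const (β k (‖y - c k‖ ^ 2))
        exact (R.deriv n (a k) (b k) (hab k) (0 * β k (‖y - c k‖ ^ 2))).scomp (0 : ℝ) h4
      rw [h3.deriv]
      simp [swirl, hrot0]
    refine ⟨fun θ x => extM ch (i k) (twist (c k) (fun ρ => rotR (a k) (b k) (θ * β k ρ)))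
      (Pi' θ x), F.comp n M ι ch hV ℝ _ _ hT hPi, ?_, ?_, ?_⟩
    · funext x
      have := congrFun hT0 (Pi' 0 x)
      show extM ch (i k) (twist (c k) (fun ρ => rotR (a k) (b k) ((0 : ℝ) * β k ρ))) (Pi' 0 x) = x
      rw [this, hPi0, id, id]
    · intro j z
      rw [velComp0 F hV hT hPi hT0 hPi0 j z, hvT j z, Finset.sum_insert hk, hPiv j z]
    · intro θ ε hε
      have h1 : MCost ch N (extM ch (i k) (twist (c k)
          (fun ρ => rotR (a k) (b k) (θ * β k ρ)))) (ε / 2) :=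
        SC n hn M ι ch hV N p hN (i k) (c k) (r k) (hr k) (hc k) (a k) (b k) (hab k)
          (fun ρ => θ * β k ρ) (contDiff_const.mul (hβ k))
          (fun ρ hρ => by simp [hβ0 k ρ hρ]) (ε / 2) (by positivity)
      have h2 := CK.comp n M ι ch hV N p hN _ _ _ _ h1 (hPic θ (ε / 2) (by positivity))
      exact MCost.mono h2 (by linarith)

theorem push_neg' {ch : ι → OpenPartialHomeomorph M (Eu n)} (i : ι) (u : Eu n → Eu n) (j : ι)
    (y : Eu n) : push ch i (fun x => - u x) j y = - push ch i u j y := by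
  unfold push
  split_ifs
  · rw [map_neg]
  · rw [neg_zero]

theorem swirl_neg (c : Eu n) (a b : Fin n) (β : ℝ → ℝ) :
    swirl c a b (fun ρ => - β ρ) = fun x => - swirl c a b β x := by
  funext x
  simp [swirl]

theorem swirl_out {c : Eu n} {a b : Fin n} {β : ℝ → ℝ} {r : ℝ} (hr : 0 < r)
    (hβ : ∀ ρ, r ^ 2 ≤ ρ → β ρ = 0) {x : Eu n} (hx : x ∉ Metric.closedBall c r) :
    swirl c a b β x = 0 := by
  have h1 : r < ‖x - c‖ := by
    rw [Metric.mem_closedBall, dist_eq_norm, not_le] at hx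
    exact hx
  have h2 : r ^ 2 ≤ ‖x - c‖ ^ 2 := by
    apply pow_le_pow_left₀ hr.le h1.le
  simp [swirl, hβ _ h2]

/-- approximation of an exact field by swirls -/
theorem approx [T2Space M] [Fintype ι] (PK : PushKit) (D : MDens)
    {ch : ι → OpenPartialHomeomorph M (Eu n)} (hV : VolAtlas ch) (L : ι → Set (Eu n))
    (hL : ∀ i, IsCompact (L i) ∧ L i ⊆ (ch i).target) {X : ι → Eu n → Eu n}
    (hX : ExactFld ch X) (η : ℝ) (hη : 0 < η) :
    ∃ (κ : Type) (_ : DecidableEq κ) (_ : Fintype κ) (i : κ → ι) (c : κ → Eu n) (r : κ → ℝ)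
      (a b : κ → Fin n) (β : κ → ℝ → ℝ), (∀ k, 0 < r k) ∧
      (∀ k, Metric.closedBall (c k) (r k) ⊆ (ch (i k)).target) ∧ (∀ k, a k ≠ b k) ∧
      (∀ k, ContDiff ℝ ∞ (β k)) ∧ (∀ k ρ, (r k) ^ 2 ≤ ρ → β k ρ = 0) ∧
      ∀ j, ∀ y ∈ L j, ‖X j y - ∑ k, push ch (i k) (swirl (c k) (a k) (b k) (β k)) j y‖ ≤ η := by
  classical
  obtain ⟨A, hA, hXA⟩ := hX
  choose K hKc hKt hK using fun i => D n (ch i).target (ch i).open_target (A i) (hA i)
  choose C hC0 hC using fun i j => PK.bound n M ι ch hV i (K i) (hKc i) (hKt i) j (L j) (hL j).1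
    (hL j).2
  set Cm : ℝ := ∑ i, ∑ j, C i j with hCm
  have hCm0 : 0 ≤ Cm := Finset.sum_nonneg fun i _ => Finset.sum_nonneg fun j _ => hC0 i j
  set η' : ℝ := η / (Cm + 1) with hη'
  have hη'0 : 0 < η' := by positivity
  choose m c r a b β h1 h2 h3 h4 h5 h6 h7 using fun i => hK i η' hη'0
  refine ⟨Σ i, Fin (m i), inferInstance, inferInstance, fun k => k.1, fun k => c k.1 k.2,
    fun k => r k.1 k.2, fun k => a k.1 k.2, fun k => b k.1 k.2, fun k => β k.1 k.2,
    fun k => h1 _ _, fun k => (h2 _ _).trans (hKt _), fun k => h3 _ _, fun k => h4 _ _,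
    fun k => h5 _ _, ?_⟩
  intro j y hy
  rw [hXA, Fintype.sum_sigma, ← Finset.sum_sub_distrib]
  have hterm : ∀ i, ‖push ch i (dv (A i)) j y -
      ∑ k, push ch i (swirl (c i k) (a i k) (b i k) (β i k)) j y‖ ≤ C i j * η' := by
    intro i
    rw [← PK.sum n M ι ch i (m i) (fun k => swirl (c i k) (a i k) (b i k) (β i k)) j y,
      ← PK.sub n M ι ch i (dv (A i)) (fun y => ∑ k, swirl (c i k) (a i k) (b i k) (β i k) y) j y]
    refine hC i j _ ?_ η' (fun z => h7 i z) y hy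
    intro z hz
    rw [h6 i z hz, Finset.sum_eq_zero, sub_zero]
    intro k _
    exact swirl_out (h1 i k) (h5 i k) (fun hzz => hz (h2 i k hzz))
  refine (norm_sum_le _ _).trans ((Finset.sum_le_sum fun i _ => hterm i).trans ?_)
  rw [← Finset.sum_mul]
  have h8 : ∑ i, C i j ≤ Cm := by
    rw [hCm]
    apply Finset.sum_le_sum
    intro i _
    exact Finset.single_le_sum (f := fun j => C i j) (fun j _ => hC0 i j) (Finset.mem_univ j)
  calc (∑ i, C i j) * η' ≤ Cm * η' := mul_le_mul_of_nonneg_right h8 hη'0.le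
    _ = (Cm / (Cm + 1)) * η := by rw [hη']; field_simp
    _ ≤ 1 * η := by
        apply mul_le_mul_of_nonneg_right _ hη.le
        rw [div_le_one (by positivity)]
        linarith
    _ = η := one_mul η

/-- the local step -/
theorem step_local [T2Space M] [Nonempty M] [Fintype ι] (F : MFamKit) (CK : MCostKit)
    (TF : TwistFam) (TV : TwistVel) (R : RotKit) (X : MExtKit) (SC : MSwirl) (PK : PushKit)
    (D : MDens) (hn : 3 ≤ n) {ch : ι → OpenPartialHomeomorph M (Eu n)} (hV : VolAtlas ch)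
    {N : (ι → Eu n → Eu n) → ℝ≥0∞} {p : ℝ} (hN : MWeak ch N p) (φ : ℝ → M → M)
    (hφ : MFam ch φ) (hex : ∀ t, ExactFld ch (mvel ch φ t)) (C : ℝ) (hC0 : 0 ≤ C)
    (L : ι → Set (Eu n)) (hL : ∀ i, IsCompact (L i) ∧ L i ⊆ (ch i).target)
    (hC : ∀ X : ι → Eu n → Eu n, IsFld ch X → ∀ b : ℝ, 0 ≤ b → (∀ i, ∀ y ∈ L i, ‖X i y‖ ≤ b) →
      N X ≤ ENNReal.ofReal (C * b)) (η : ℝ) (hη : 0 < η) (t0 : ℝ) :
    ∃ δ : ℝ, 0 < δ ∧ ∀ t, |t - t0| < δ → ∀ θ, 0 ≤ θ → θ < δ → ∀ ε, 0 < ε →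
      MCost ch N (fun x => φ (t + θ) (Function.invFun (φ t) x)) (C * (2 * η) * θ + ε) := by
  obtain ⟨κ, hκ1, hκ2, i, c, r, a, b, β, hr, hc, hab, hβ, hβ0, happ⟩ :=
    approx PK D hV L hL (hex t0) η hη
  obtain ⟨Pi', hPi, hPi0, hPiv, hPic⟩ := exists_pi F CK TF TV R X SC hn hV hN i c r a b
    (fun k ρ => - β k ρ) hr hc hab (fun k => (hβ k).neg)
    (fun k ρ hρ => by rw [hβ0 k ρ hρ, neg_zero]) Finset.univ
  have hinv : MFam ch (fun e => Function.invFun (φ e)) := F.inv n M ι ch hV ℝ φ hφ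
  have hH : MFam ch (fun (q : ℝ × ℝ) x => φ (q.1 + q.2) (Function.invFun (φ q.1) (Pi' q.2 x))) := by
    have h1 : MFam ch (fun (q : ℝ × ℝ) => φ (q.1 + q.2)) :=
      F.re n M ι ch ℝ (ℝ × ℝ) φ (fun q => q.1 + q.2) hφ (contDiff_fst.add contDiff_snd)
    have h2 : MFam ch (fun (q : ℝ × ℝ) => Function.invFun (φ q.1)) :=
      F.re n M ι ch ℝ (ℝ × ℝ) _ (fun q => q.1) hinv contDiff_fst
    have h3 : MFam ch (fun (q : ℝ × ℝ) => Pi' q.2) :=
      F.re n M ι ch ℝ (ℝ × ℝ) _ (fun q => q.2) hPi contDiff_snd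
    exact F.comp n M ι ch hV (ℝ × ℝ) _ _ h1 (F.comp n M ι ch hV (ℝ × ℝ) _ _ h2 h3)
  set H : ℝ × ℝ → M → M :=
    fun q x => φ (q.1 + q.2) (Function.invFun (φ q.1) (Pi' q.2 x)) with hHdef
  have hHt : ∀ t, MFam ch (fun θ => H (t, θ)) := fun t =>
    F.re n M ι ch (ℝ × ℝ) ℝ H (fun θ => (t, θ)) hH (contDiff_const.prodMk contDiff_id)
  have hcont := F.velFam n M ι ch hV H hH
  have hbij : ∀ t, Function.Bijective (φ t) := hφ.bij
  have hcancel : ∀ t x, φ t (Function.invFun (φ t) x) = x := fun t x =>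
    Function.rightInverse_invFun (hbij t).2 x
  have hV0 : ∀ j, ∀ y ∈ L j, ‖mvel ch (fun θ => H (t0, θ)) 0 j y‖ ≤ η := by
    intro j z hz
    have hΦ : MFam ch (fun θ x => φ (t0 + θ) (Function.invFun (φ t0) x)) := by
      have h1 : MFam ch (fun θ : ℝ => φ (t0 + θ)) :=
        F.re n M ι ch ℝ ℝ φ (fun q => t0 + q) hφ (contDiff_const.add contDiff_id)
      have h2 : MFam ch (fun _ : ℝ => Function.invFun (φ t0)) :=
        F.re n M ι ch ℝ ℝ _ (fun _ => t0) hinv contDiff_const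
      exact F.comp n M ι ch hV ℝ _ _ h1 h2
    have h2 : (fun x => φ (t0 + 0) (Function.invFun (φ t0) x)) = id := by
      funext x
      simp [hcancel]
    have h1 := velComp0 F hV hΦ hPi h2 hPi0 j z
    have h3 : mvel ch (fun θ x => φ (t0 + θ) (Function.invFun (φ t0) x)) 0 j z =
        mvel ch φ t0 j z := by
      have h4 := F.velConst n M ι ch (fun θ => φ (t0 + θ)) (Function.invFun (φ t0))
        (fun t => hbij _) (hinv.bij t0) 0 j z
      rw [h4]
      have h5 := F.velRe n M ι ch hV φ (fun θ => t0 + θ) hφ 0 (by fun_prop) j z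
      rw [h5]
      have h6 : deriv (fun θ : ℝ => t0 + θ) 0 = 1 := by
        simp
      rw [h6, one_smul, add_zero]
    rw [h3, hPiv j z] at h1
    have h7 : mvel ch (fun θ => H (t0, θ)) 0 j z = mvel ch φ t0 j z -
        ∑ k, push ch (i k) (swirl (c k) (a k) (b k) (β k)) j z := by
      have h8 : (fun θ => H (t0, θ)) =
          (fun t x => (fun θ x => φ (t0 + θ) (Function.invFun (φ t0) x)) t (Pi' t x)) := rfl
      rw [h8, h1, sub_eq_add_neg, ← Finset.sum_neg_distrib]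
      congr 1
      apply Finset.sum_congr rfl
      intro k _
      rw [swirl_neg, push_neg']
    rw [h7]
    exact happ j z hz
  have hev : ∀ᶠ q : ℝ × ℝ in 𝓝 (t0, 0), ∀ j, ∀ z ∈ L j,
      ‖mvel ch (fun θ => H (q.1, θ)) q.2 j z‖ < 2 * η := by
    rw [eventually_all]
    intro j
    apply (hL j).1.eventually_forall_of_forall_eventually
    intro z hz
    have hop : IsOpen {q : (ℝ × ℝ) × Eu n | q.2 ∈ (ch j).target} :=
      (ch j).open_target.preimage continuous_snd
    have h3 : ContinuousAt (fun q : (ℝ × ℝ) × Eu n =>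
        ‖mvel ch (fun θ => H (q.1.1, θ)) q.1.2 j q.2‖) ((t0, 0), z) :=
      ((hcont j).continuousAt (hop.mem_nhds ((hL j).2 hz))).norm
    have h4 : ‖mvel ch (fun θ => H (t0, θ)) 0 j z‖ < 2 * η :=
      lt_of_le_of_lt (hV0 j z hz) (by linarith)
    exact h3.eventually_lt continuousAt_const h4
  obtain ⟨δ, hδ, hball⟩ := Metric.eventually_nhds_iff_ball.mp hev
  refine ⟨δ, hδ, ?_⟩
  intro t ht θ hθ0 hθ ε hε
  have hsup : ∀ τ ∈ Set.Icc (0 : ℝ) θ, ∀ j, ∀ z ∈ L j,
      ‖mvel ch (fun θ => H (t, θ)) τ j z‖ ≤ 2 * η := by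
    intro τ hτ j z hz
    have h2 : ((t, τ) : ℝ × ℝ) ∈ Metric.ball (t0, (0 : ℝ)) δ := by
      rw [Metric.mem_ball, Prod.dist_eq, max_lt_iff]
      refine ⟨by simpa [Real.dist_eq] using ht, ?_⟩
      simp only [Real.dist_eq, sub_zero]
      rw [abs_of_nonneg hτ.1]
      exact lt_of_le_of_lt hτ.2 hθ
    exact (hball _ h2 j z hz).le
  have h0 : H (t, 0) = id := by
    funext x
    have : Pi' 0 x = x := congrFun hPi0 x
    simp only [hHdef, this, add_zero, hcancel, id]
  have hcost := CK.path n M ι ch hV N p hN (fun θ => H (t, θ)) (hHt t) h0 θ (C * (2 * η)) hθ0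
    (by positivity) (fun τ hτ => hC _ (F.velFld n M ι ch hV _ (hHt t) τ) (2 * η) (by positivity)
      (hsup τ hτ))
  have hcost2 := CK.inv n M ι ch hV N p hN _ _ (hPic θ ε hε)
  have h3 := CK.comp n M ι ch hV N p hN _ _ _ _ hcost hcost2
  convert h3 using 1
  funext x
  have h4 : Pi' θ (Function.invFun (Pi' θ) x) = x :=
    Function.rightInverse_invFun (hPi.bij θ).2 x
  simp only [hHdef, h4]

end MMainA

open MMainA in
/-- Exact paths have cost zero. -/
theorem mMainCost (F : MFamKit) (CK : MCostKit) (TF : TwistFam) (TV : TwistVel) (R : RotKit)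
    (X : MExtKit) (SC : MSwirl) (PK : PushKit) (D : MDens) : MMainCost := by
  intro n hn M _ _ _ _ ι _ ch hV N p hN φ hφ h0 hex ε hε
  obtain ⟨L, C, hCpos, hL, hC⟩ := hN.sup
  obtain ⟨η, hη, hη2⟩ : ∃ η : ℝ, 0 < η ∧ C * (2 * η) ≤ ε / 2 := by
    refine ⟨ε / (4 * (C + 1)), by positivity, ?_⟩
    have : C * (2 * (ε / (4 * (C + 1)))) = (C / (C + 1)) * (ε / 2) := by
      field_simp
      ring
    rw [this]
    have h1 : C / (C + 1) ≤ 1 := by
      rw [div_le_one (by positivity)]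
      linarith
    nlinarith
  obtain ⟨δ, hδ, hstep⟩ := MainA.step_unif (fun t θ => ∀ ε, 0 < ε →
      MCost ch N (fun x => φ (t + θ) (Function.invFun (φ t) x)) (C * (2 * η) * θ + ε))
    (fun t0 => step_local F CK TF TV R X SC PK D hn hV hN φ hφ hex C hCpos L hL hC η hη t0)
  obtain ⟨m, hm⟩ := exists_nat_gt (1 / δ)
  have hM0 : (0 : ℝ) < m := lt_trans (by positivity) hm
  have hMδ : 1 / (m : ℝ) < δ := by
    rw [div_lt_iff₀ hM0]
    rw [div_lt_iff₀ hδ] at hm
    linarith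
  have hind : ∀ k : ℕ, k ≤ m →
      MCost ch N (φ (k / m)) (k * (C * (2 * η) * (1 / m) + ε / (2 * m))) := by
    intro k
    induction k with
    | zero =>
      intro _
      have h1 := cost_id F CK hV hN
      simpa [h0] using h1
    | succ k ih =>
      intro hk
      have hk1 : (k : ℝ) + 1 ≤ m := by exact_mod_cast hk
      have h1 := ih (by omega)
      have h2 := hstep (k / m) ⟨by positivity, by rw [div_le_one hM0]; linarith⟩ (1 / m)
        (by positivity) hMδ (ε / (2 * m)) (by positivity)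
      have h3 := CK.comp n M ι ch hV N p hN _ _ _ _ h2 h1
      convert h3 using 1
      · funext x
        have h4 : Function.invFun (φ (k / m)) (φ (k / m) x) = x :=
          Function.leftInverse_invFun (hφ.bij _).1 x
        rw [h4]
        congr 1
        push_cast
        ring
      · push_cast
        ring
  have hfin := hind m le_rfl
  rw [div_self hM0.ne'] at hfin
  refine MCost.mono hfin ?_
  have : (m : ℝ) * (C * (2 * η) * (1 / m) + ε / (2 * m)) = C * (2 * η) + ε / 2 := by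
    field_simp
  rw [this]
  linarith

end

end Pool.Agent.H68.GM
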