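import Pool.Agent.H68.GM.St
import Pool.Agent.H68.VD.SwirlC

/-! # Twists in a chart have cost zero -/

namespace Pool.Agent.H68.GM

open MeasureTheory Set Filter Topology Pool.Agent.H68.VD
open scoped ENNReal ContDiff

noncomputable section

namespace MSwirlA

variable {n : ℕ} {M : Type} [TopologicalSpace M] [T2Space M] [Nonempty M] {ι : Type}
  {ch : ι → OpenPartialHomeomorph M (Eu n)}

omit [T2Space M] in
theorem cost_mono {N : (ι → Eu n → Eu n) → ℝ≥0∞} {f : M → M}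
    {a b : ℝ} (h : MCost ch N f a) (hab : a ≤ b) : MCost ch N f b := by
  obtain ⟨φ, l, h1, h2, h3, h4, h5, h6, h7⟩ := h
  exact ⟨φ, l, h1, h2, h3, h4, h5, h6, h7.trans hab⟩

omit [T2Space M] [Nonempty M] in
theorem extM_twist_id (ch : ι → OpenPartialHomeomorph M (Eu n)) (i : ι) (c : Eu n)
    (A : ℝ → (Eu n →L[ℝ] Eu n)) (hA : ∀ ρ, A ρ = ContinuousLinearMap.id ℝ (Eu n)) :
    extM ch i (twist c A) = id := by
  have htw0 : ∀ x, twist c A x = x := by
    intro x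
    simp [twist, hA]
  funext x
  unfold extM
  split_ifs with hx
  · rw [htw0, (ch i).left_inv hx]
    rfl
  · rfl

theorem skew_rotJ (R : RotKit) (i j : Fin n) (a b : Eu n) :
    inner ℝ (rotJ i j a) b = - inner ℝ a (rotJ i j b) := by
  have h1 := R.orth n i j (a + b)
  have h2 := R.orth n i j a
  have h3 := R.orth n i j b
  rw [map_add, inner_add_left, inner_add_right, inner_add_right, h2, h3] at h1
  have h4 : inner ℝ (rotJ i j b) a = inner ℝ a (rotJ i j b) := real_inner_comm _ _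
  rw [h4] at h1
  linarith

/-- The small part. -/
theorem cost_a (CK : MCostKit) (X : MExtKit) (TF : TwistFam) (TV : TwistVel) (R : RotKit)
    (hV : VolAtlas ch) {N : (ι → Eu n → Eu n) → ℝ≥0∞} {p : ℝ} (hN : MWeak ch N p) (i : ι)
    (c : Eu n) (r : ℝ) (hr : 0 < r) (hK : Metric.closedBall c r ⊆ (ch i).target)
    (k l : Fin n) (hkl : k ≠ l) (a : ℝ → ℝ) (ha : ContDiff ℝ ∞ a)
    (ha0 : ∀ ρ, r ^ 2 ≤ ρ → a ρ = 0) (ε : ℝ) (hε : 0 < ε)
    (hsm : N (push ch i (swirl c k l a)) ≤ ENNReal.ofReal ε) :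
    BallFam c r (fun e : ℝ => twist c (fun ρ => rotR k l (e * a ρ))) ∧
    MCost ch N (extM ch i (twist c (fun ρ => rotR k l (a ρ)))) ε := by
  have hrot0 := SwirlCA.rotR_zero R k l
  have hA1 : ContDiff ℝ ∞ (fun q : ℝ × ℝ => rotR k l (q.1 * a q.2)) :=
    (R.smooth n k l).comp (contDiff_fst.mul (ha.comp contDiff_snd))
  have hA2 : ∀ (e ρ : ℝ) (x : Eu n), ‖rotR k l (e * a ρ) x‖ = ‖x‖ := fun e ρ x =>
    R.iso n k l hkl _ x
  have hA3 : ∀ (e ρ : ℝ), (rotR k l (e * a ρ)).det = 1 := fun e ρ => R.det n k l hkl _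
  have hA4 : ∀ (e ρ : ℝ), r ^ 2 ≤ ρ →
      rotR k l (e * a ρ) = ContinuousLinearMap.id ℝ (Eu n) := by
    intro e ρ hρ
    rw [ha0 ρ hρ, mul_zero, hrot0]
  have hB : BallFam c r (fun e : ℝ => twist c (fun ρ => rotR k l (e * a ρ))) :=
    TF n ℝ c r (fun e ρ => rotR k l (e * a ρ)) hr hA1 hA2 hA3 hA4
  refine ⟨hB, ?_⟩
  have hT : MFam ch (fun e : ℝ => extM ch i (twist c (fun ρ => rotR k l (e * a ρ)))) :=
    X.fam n M ι ch hV i c r hr hK ℝ _ hB
  have hT0 : extM ch i (twist c (fun ρ => rotR k l ((0 : ℝ) * a ρ))) = id :=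
    extM_twist_id ch i c _ (fun ρ => by rw [zero_mul, hrot0])
  have hvT : ∀ t, mvel ch (fun e : ℝ => extM ch i (twist c (fun ρ => rotR k l (e * a ρ)))) t =
      push ch i (swirl c k l a) := by
    intro t
    have hv : vel (fun e : ℝ => twist c (fun ρ => rotR k l (e * a ρ))) t = swirl c k l a := by
      funext y
      obtain ⟨x, rfl⟩ := (hB.bij t).2 y
      have h1 := TV n c r (fun e ρ => rotR k l (e * a ρ)) hr hA1 hA2 hA3 hA4 t x
      rw [h1]
      have h3 : HasDerivAt (fun τ : ℝ => rotR k l (τ * a (‖x - c‖ ^ 2)))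
          (a (‖x - c‖ ^ 2) • (rotJ k l ∘L rotR k l (t * a (‖x - c‖ ^ 2)))) t := by
        have h4 : HasDerivAt (fun τ : ℝ => τ * a (‖x - c‖ ^ 2)) (a (‖x - c‖ ^ 2)) t := by
          simpa using (hasDerivAt_id t).mul_const (a (‖x - c‖ ^ 2))
        exact (R.deriv n k l hkl (t * a (‖x - c‖ ^ 2))).scomp t h4
      rw [h3.deriv]
      have h5 : twist c (fun ρ => rotR k l (t * a ρ)) x - c =
          rotR k l (t * a (‖x - c‖ ^ 2)) (x - c) := by
        simp [twist]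
      simp only [swirl]
      rw [h5, hA2]
      simp
    funext j y
    rw [X.velExt n M ι ch hV i c r hr hK _ hB t j y, hv]
  have h1 := CK.path n M ι ch hV N p hN _ hT hT0 1 ε zero_le_one hε.le (by
    intro t _
    rw [hvT t]
    exact hsm)
  have h3 : (fun ρ => rotR k l ((1 : ℝ) * a ρ)) = fun ρ => rotR k l (a ρ) := by
    funext ρ
    rw [one_mul]
  have h4 : MCost ch N (extM ch i (twist c (fun ρ => rotR k l ((1 : ℝ) * a ρ)))) (ε * 1) := h1
  rw [h3, mul_one] at h4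
  exact h4

/-- The integer part. -/
theorem cost_m (CK : MCostKit) (X : MExtKit) (TF : TwistFam) (TV : TwistVel)
    (hV : VolAtlas ch) {N : (ι → Eu n → Eu n) → ℝ≥0∞} {p : ℝ} (hN : MWeak ch N p) (i : ι)
    (c : Eu n) (r' : ℝ) (hr' : 0 < r') (hKt : Metric.closedBall c r' ⊆ (ch i).target)
    (K : ℝ → ℝ → (Eu n →L[ℝ] Eu n))
    (hK : ContDiff ℝ ∞ (fun q : ℝ × ℝ => K q.1 q.2)) (hKn : ∀ τ y x, ‖K τ y x‖ = ‖x‖)
    (hKd : ∀ τ y, (K τ y).det = 1) (hK1 : ∀ y, K 1 y = ContinuousLinearMap.id ℝ (Eu n))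
    (hKz : ∀ τ (m : ℤ), K τ m = ContinuousLinearMap.id ℝ (Eu n))
    (hKv : ∀ τ y, ‖deriv (fun τ => K τ y) τ‖ ≤ 2 * Real.pi)
    (m : ℝ → ℝ) (hm : ContDiff ℝ ∞ m)
    (hm0 : ∀ ρ, r' ^ 2 ≤ ρ → m ρ = 0) (Cb ε' ε : ℝ) (hCb0 : 0 ≤ Cb)
    (hε' : 0 ≤ ε') (hε : 0 < ε)
    (hCb : ∀ u : Eu n → Eu n, ContDiff ℝ ∞ u → (∀ y ∉ Metric.closedBall c r', u y = 0) →
      N (push ch i u) ≤ ENNReal.ofReal Cb * (∫⁻ x, ‖u x‖ₑ ^ p) ^ (1 / p))
    (hν : (Measure.map (fun x : Eu n => ‖x - c‖ ^ 2) (volume.restrict (Metric.closedBall c r')))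
      {ρ | ∀ k : ℤ, m ρ ≠ k} ≤ ENNReal.ofReal ε')
    (hnum : Cb * (((2 * Real.pi * r') ^ p * ε')) ^ (1 / p) ≤ ε) :
    BallFam c r' (fun e : ℝ => twist c (fun ρ => K (1 - e) (m ρ))) ∧
    MCost ch N (extM ch i (twist c (fun ρ => K 0 (m ρ)))) ε := by
  have hp : 1 ≤ p := hN.hp
  have hpi : 0 < 2 * Real.pi * r' := by positivity
  have hA1 : ContDiff ℝ ∞ (fun q : ℝ × ℝ => K (1 - q.1) (m q.2)) :=
    hK.comp ((contDiff_const.sub contDiff_fst).prodMk (hm.comp contDiff_snd))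
  have hA2 : ∀ (e ρ : ℝ) (x : Eu n), ‖K (1 - e) (m ρ) x‖ = ‖x‖ := fun e ρ x => hKn _ _ x
  have hA3 : ∀ (e ρ : ℝ), (K (1 - e) (m ρ)).det = 1 := fun e ρ => hKd _ _
  have hA4 : ∀ (e ρ : ℝ), r' ^ 2 ≤ ρ →
      K (1 - e) (m ρ) = ContinuousLinearMap.id ℝ (Eu n) := by
    intro e ρ hρ
    rw [hm0 ρ hρ]
    simpa using hKz (1 - e) 0
  have hB : BallFam c r' (fun e : ℝ => twist c (fun ρ => K (1 - e) (m ρ))) :=
    TF n ℝ c r' (fun e ρ => K (1 - e) (m ρ)) hr' hA1 hA2 hA3 hA4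
  refine ⟨hB, ?_⟩
  have hT : MFam ch (fun e : ℝ => extM ch i (twist c (fun ρ => K (1 - e) (m ρ)))) :=
    X.fam n M ι ch hV i c r' hr' hKt ℝ _ hB
  have hT0 : extM ch i (twist c (fun ρ => K (1 - (0 : ℝ)) (m ρ))) = id :=
    extM_twist_id ch i c _ (fun ρ => by rw [sub_zero, hK1])
  -- the velocity of the twist
  have hv1 : ∀ t z, ‖vel (fun e : ℝ => twist c (fun ρ => K (1 - e) (m ρ))) t z‖ₑ ≤
      (Metric.closedBall c r' ∩ (fun x : Eu n => ‖x - c‖ ^ 2) ⁻¹' {ρ | ∀ k : ℤ, m ρ ≠ k}).indicator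
        (fun _ => ENNReal.ofReal (2 * Real.pi * r')) z := by
    intro t y
    by_cases hy : r' ≤ dist y c
    · rw [X.velOut n c r' _ hB t y hy]
      simp
    · rw [not_le] at hy
      obtain ⟨x, hx⟩ := (hB.bij t).2 y
      have h1 := TV n c r' (fun e ρ => K (1 - e) (m ρ)) hr' hA1 hA2 hA3 hA4 t x
      have hx' : twist c (fun ρ => K (1 - t) (m ρ)) x = y := hx
      rw [hx'] at h1
      rw [h1]
      have h5 : y - c = K (1 - t) (m (‖x - c‖ ^ 2)) (x - c) := by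
        rw [← hx']
        simp [twist]
      have h6 : ‖y - c‖ = ‖x - c‖ := by
        rw [h5, hA2]
      by_cases hk : ∀ k : ℤ, m (‖y - c‖ ^ 2) ≠ k
      · have hmem : y ∈ Metric.closedBall c r' ∩
            (fun x : Eu n => ‖x - c‖ ^ 2) ⁻¹' {ρ | ∀ k : ℤ, m ρ ≠ k} :=
          ⟨Metric.mem_closedBall.mpr hy.le, hk⟩
        rw [indicator_of_mem hmem]
        rw [← ofReal_norm]
        apply ENNReal.ofReal_le_ofReal
        have h7 : deriv (fun τ => K (1 - τ) (m (‖x - c‖ ^ 2))) t =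
            - deriv (fun τ => K τ (m (‖x - c‖ ^ 2))) (1 - t) := by
          have := deriv_comp_const_sub (f := fun τ => K τ (m (‖x - c‖ ^ 2))) (a := 1) (x := t)
          exact this
        have h8 : ‖deriv (fun τ => K (1 - τ) (m (‖x - c‖ ^ 2))) t‖ ≤ 2 * Real.pi := by
          rw [h7, norm_neg]
          exact hKv _ _
        have h9 : ‖x - c‖ ≤ r' := by
          rw [← h6, ← dist_eq_norm]
          exact hy.le
        calc ‖(deriv (fun τ => K (1 - τ) (m (‖x - c‖ ^ 2))) t) (x - c)‖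
            ≤ ‖deriv (fun τ => K (1 - τ) (m (‖x - c‖ ^ 2))) t‖ * ‖x - c‖ :=
              ContinuousLinearMap.le_opNorm _ _
          _ ≤ 2 * Real.pi * r' := by
              apply mul_le_mul h8 h9 (norm_nonneg _) (by positivity)
      · push Not at hk
        obtain ⟨k, hk⟩ := hk
        rw [h6] at hk
        have h7 : (fun τ : ℝ => K (1 - τ) (m (‖x - c‖ ^ 2))) = fun _ =>
            ContinuousLinearMap.id ℝ (Eu n) := by
          funext τ
          rw [hk, hKz]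
        rw [h7]
        simp
  have hmeas : MeasurableSet {ρ : ℝ | ∀ k : ℤ, m ρ ≠ k} := by
    have : {ρ : ℝ | ∀ k : ℤ, m ρ ≠ k} = (m ⁻¹' (Set.range (fun k : ℤ => (k : ℝ))))ᶜ := by
      ext ρ
      simp only [mem_ofPred_eq, mem_compl_iff, mem_preimage, mem_range, not_exists]
      exact ⟨fun h k hk => h k hk.symm, fun h k hk => h k hk.symm⟩
    rw [this]
    exact ((Set.countable_range _).measurableSet.preimage hm.continuous.measurable).compl
  have hcont : Continuous (fun x : Eu n => ‖x - c‖ ^ 2) := by fun_prop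
  have hmeas2 : MeasurableSet ((fun x : Eu n => ‖x - c‖ ^ 2) ⁻¹' {ρ | ∀ k : ℤ, m ρ ≠ k}) :=
    hcont.measurable hmeas
  have hvol : volume (Metric.closedBall c r' ∩
      (fun x : Eu n => ‖x - c‖ ^ 2) ⁻¹' {ρ | ∀ k : ℤ, m ρ ≠ k}) ≤ ENNReal.ofReal ε' := by
    rw [Measure.map_apply hcont.measurable hmeas, Measure.restrict_apply hmeas2] at hν
    rwa [inter_comm] at hν
  have hint : ∀ t, ∫⁻ x, ‖vel (fun e : ℝ => twist c (fun ρ => K (1 - e) (m ρ))) t x‖ₑ ^ p ≤
      ENNReal.ofReal ((2 * Real.pi * r') ^ p * ε') := by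
    intro t
    calc ∫⁻ x, ‖vel (fun e : ℝ => twist c (fun ρ => K (1 - e) (m ρ))) t x‖ₑ ^ p
        ≤ ∫⁻ x, (Metric.closedBall c r' ∩
          (fun x : Eu n => ‖x - c‖ ^ 2) ⁻¹' {ρ | ∀ k : ℤ, m ρ ≠ k}).indicator
          (fun _ => ENNReal.ofReal ((2 * Real.pi * r') ^ p)) x := by
          apply lintegral_mono
          intro x
          have h1 := ENNReal.rpow_le_rpow (hv1 t x) (by linarith : 0 ≤ p)
          refine h1.trans ?_
          by_cases hx : x ∈ Metric.closedBall c r' ∩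
              (fun x : Eu n => ‖x - c‖ ^ 2) ⁻¹' {ρ | ∀ k : ℤ, m ρ ≠ k}
          · rw [indicator_of_mem hx, indicator_of_mem hx, ENNReal.ofReal_rpow_of_pos hpi]
          · rw [indicator_of_notMem hx, indicator_of_notMem hx, ENNReal.zero_rpow_of_pos (by linarith)]
      _ = ENNReal.ofReal ((2 * Real.pi * r') ^ p) * volume (Metric.closedBall c r' ∩
          (fun x : Eu n => ‖x - c‖ ^ 2) ⁻¹' {ρ | ∀ k : ℤ, m ρ ≠ k}) := by
          rw [lintegral_indicator (measurableSet_closedBall.inter hmeas2), setLIntegral_const]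
      _ ≤ ENNReal.ofReal ((2 * Real.pi * r') ^ p) * ENNReal.ofReal ε' := by gcongr
      _ = ENNReal.ofReal ((2 * Real.pi * r') ^ p * ε') := by
          rw [ENNReal.ofReal_mul (by positivity)]
  have h1 := CK.path n M ι ch hV N p hN _ hT hT0 1 ε zero_le_one hε.le (by
    intro t _
    have hv : mvel ch (fun e : ℝ => extM ch i (twist c (fun ρ => K (1 - e) (m ρ)))) t =
        push ch i (vel (fun e : ℝ => twist c (fun ρ => K (1 - e) (m ρ))) t) := by
      funext j y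
      exact X.velExt n M ι ch hV i c r' hr' hKt _ hB t j y
    rw [hv]
    have h2 := hCb (vel (fun e : ℝ => twist c (fun ρ => K (1 - e) (m ρ))) t)
      (X.velSmooth n c r' _ hB t) (fun y hy => X.velOut n c r' _ hB t y (by
        rw [Metric.mem_closedBall, not_le] at hy
        exact hy.le))
    calc N (push ch i (vel (fun e : ℝ => twist c (fun ρ => K (1 - e) (m ρ))) t))
        ≤ ENNReal.ofReal Cb * (ENNReal.ofReal (((2 * Real.pi * r') ^ p * ε'))) ^ (1 / p) :=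
          h2.trans (by gcongr; exact hint t)
      _ = ENNReal.ofReal (Cb * (((2 * Real.pi * r') ^ p * ε')) ^ (1 / p)) := by
          rw [ENNReal.ofReal_mul hCb0, ENNReal.ofReal_rpow_of_nonneg (by positivity) (by positivity)]
      _ ≤ ENNReal.ofReal ε := ENNReal.ofReal_le_ofReal hnum)
  have h3 : (fun ρ => K (1 - (1 : ℝ)) (m ρ)) = fun ρ => K 0 (m ρ) := by
    funext ρ
    rw [sub_self]
  have h4 : MCost ch N (extM ch i (twist c (fun ρ => K (1 - (1 : ℝ)) (m ρ)))) (ε * 1) := h1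
  rw [h3, mul_one] at h4
  exact h4

end MSwirlA

open MSwirlA in
/-- Twists in a chart have cost zero. -/
theorem mSwirl (F : MFamKit) (CK : MCostKit) (X : MExtKit) (TF : TwistFam) (TV : TwistVel)
    (R : RotKit) (H : Homot) (O : Osc) : MSwirl := by
  intro n hn M _ _ _ ι ch hV N p hN i c r hr hKt k l hkl b hb hb0 ε hε
  have hp : 1 ≤ p := hN.hp
  have hcomp : IsCompact (Metric.closedBall c r) := isCompact_closedBall c r
  obtain ⟨Cb, hCb0, hCb⟩ := hN.loc i _ hcomp hKt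
  obtain ⟨δ, hδ, hweak⟩ := hN.weak i _ hcomp hKt (8 * Real.pi * r) (ε / 2) (by positivity)
  obtain ⟨K, hK, hKn, hKd, hK0, hK1, hKz, hKv⟩ := H n hn k l hkl
  have hq : 0 < ε / 2 / (Cb + 1) := by positivity
  have hpi : 0 < 2 * Real.pi * r := by positivity
  have hε' : 0 < (ε / 2 / (Cb + 1)) ^ p / ((2 * Real.pi * r) ^ p) := by positivity
  have : IsFiniteMeasure (volume.restrict (Metric.closedBall c r)) :=
    ⟨by
      rw [Measure.restrict_apply MeasurableSet.univ, univ_inter]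
      exact measure_closedBall_lt_top⟩
  have : IsFiniteMeasure (Measure.map (fun x : Eu n => ‖x - c‖ ^ 2)
      (volume.restrict (Metric.closedBall c r))) := inferInstance
  obtain ⟨a, m, Ψ, ha, hm, hΨ, hbam, h0, hΨd, hΨs, ha8, hν⟩ := O b (r ^ 2) (by positivity) hb hb0
    (Measure.map (fun x : Eu n => ‖x - c‖ ^ 2) (volume.restrict (Metric.closedBall c r)))
    ((ε / 2 / (Cb + 1)) ^ p / ((2 * Real.pi * r) ^ p)) δ hε' hδ
  -- the small part
  have hsm : N (push ch i (swirl c k l a)) ≤ ENNReal.ofReal (ε / 2) := by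
    have hT1 : ContDiff ℝ ∞ (fun x : Eu n => Ψ (‖x - c‖ ^ 2) • rotJ k l) := by
      have h1 : ContDiff ℝ ∞ (fun x : Eu n => ‖x - c‖ ^ 2) :=
        (contDiff_id.sub contDiff_const).norm_sq ℝ
      exact (hΨ.comp h1).smul contDiff_const
    have hT2 : ∀ x : Eu n, x ∉ Metric.closedBall c r →
        Ψ (‖x - c‖ ^ 2) • (rotJ k l : Eu n →L[ℝ] Eu n) = 0 := by
      intro x hx
      rw [Metric.mem_closedBall, dist_eq_norm, not_le] at hx
      rw [(h0 _ (pow_le_pow_left₀ hr.le hx.le 2)).2.2]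
      apply ContinuousLinearMap.ext
      intro y
      show (0 : ℝ) • rotJ k l y = 0
      rw [zero_smul]
    have hT3 : ∀ x : Eu n, ‖Ψ (‖x - c‖ ^ 2) • (rotJ k l : Eu n →L[ℝ] Eu n)‖ ≤ δ := by
      intro x
      rw [norm_smul, Real.norm_eq_abs]
      calc |Ψ (‖x - c‖ ^ 2)| * ‖(rotJ k l : Eu n →L[ℝ] Eu n)‖ ≤ δ * 1 := by
            apply mul_le_mul (hΨs _ (by positivity)) (SwirlCA.norm_rotJ R k l) (norm_nonneg _)
              hδ.le
        _ = δ := mul_one _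
    have hT4 : ∀ (y a' b' : Eu n), inner ℝ ((Ψ (‖y - c‖ ^ 2) • (rotJ k l : Eu n →L[ℝ] Eu n)) a') b' =
        - inner ℝ a' ((Ψ (‖y - c‖ ^ 2) • (rotJ k l : Eu n →L[ℝ] Eu n)) b') := by
      intro y a' b'
      show inner ℝ (Ψ (‖y - c‖ ^ 2) • rotJ k l a') b' = - inner ℝ a' (Ψ (‖y - c‖ ^ 2) • rotJ k l b')
      rw [real_inner_smul_left, real_inner_smul_right, skew_rotJ R k l a' b']
      ring
    have h5 : dv (fun x : Eu n => Ψ (‖x - c‖ ^ 2) • rotJ k l) = swirl c k l a := by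
      funext x
      rw [SwirlCA.dv_swirl c k l Ψ hΨ x, hΨd]
      rfl
    have h6 := hweak (fun x : Eu n => Ψ (‖x - c‖ ^ 2) • rotJ k l) hT1 hT2 hT4 (by
      intro x
      rw [h5]
      by_cases hx : r ≤ ‖x - c‖
      · simp only [swirl]
        rw [(h0 _ (pow_le_pow_left₀ hr.le hx 2)).1, zero_smul, norm_zero]
        positivity
      · rw [not_le] at hx
        simp only [swirl]
        rw [norm_smul, Real.norm_eq_abs]
        exact mul_le_mul (ha8 _) ((R.normJ n k l _).trans hx.le) (norm_nonneg _) (by positivity))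
      hT3
    rw [h5] at h6
    exact h6
  obtain ⟨hBa, hca⟩ := cost_a CK X TF TV R hV hN i c r hr hKt k l hkl a ha
    (fun ρ hρ => (h0 ρ hρ).1) (ε / 2) (by positivity) hsm
  -- the integer part
  obtain ⟨hBm, hcm⟩ := cost_m CK X TF TV hV hN i c r hr hKt K hK hKn hKd hK1 hKz hKv m hm
    (fun ρ hρ => (h0 ρ hρ).2.1) Cb _ (ε / 2) hCb0 hε'.le (by positivity) hCb hν (by
      have h1 : ((2 * Real.pi * r) ^ p * ((ε / 2 / (Cb + 1)) ^ p / ((2 * Real.pi * r) ^ p))) =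
          (ε / 2 / (Cb + 1)) ^ p := by
        field_simp
      rw [h1, ← Real.rpow_mul hq.le, mul_one_div_cancel (by linarith), Real.rpow_one]
      calc Cb * (ε / 2 / (Cb + 1)) = (Cb / (Cb + 1)) * (ε / 2) := by ring
        _ ≤ 1 * (ε / 2) := by
            gcongr
            rw [div_le_one (by positivity)]
            linarith
        _ = ε / 2 := one_mul _)
  have h1 := CK.comp n M ι ch hV N p hN _ _ _ _ hcm hca
  have h2 : (fun x => extM ch i (twist c (fun ρ => K 0 (m ρ)))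
      (extM ch i (twist c (fun ρ => rotR k l (a ρ))) x)) =
      extM ch i (twist c (fun ρ => rotR k l (b ρ))) := by
    funext x
    have h3 := X.comp n M ι ch i c r hr hKt ℝ _ _ hBm hBa 1 x
    simp only [sub_self, one_mul] at h3
    rw [← h3]
    congr 1
    funext y
    have h5 : twist c (fun ρ => rotR k l (a ρ)) y - c = rotR k l (a (‖y - c‖ ^ 2)) (y - c) := by
      simp [twist]
    have h6 : ‖twist c (fun ρ => rotR k l (a ρ)) y - c‖ = ‖y - c‖ := by
      rw [h5, R.iso n k l hkl]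
    show c + K 0 (m (‖twist c (fun ρ => rotR k l (a ρ)) y - c‖ ^ 2))
      (twist c (fun ρ => rotR k l (a ρ)) y - c) = c + rotR k l (b (‖y - c‖ ^ 2)) (y - c)
    rw [h6, h5, hK0, hbam, add_comm (a (‖y - c‖ ^ 2)), R.add n k l hkl]
    rfl
  rw [h2] at h1
  exact cost_mono h1 (by linarith)

end

end Pool.Agent.H68.GM
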