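import Pool.Agent.H68.GM.St
import Pool.Agent.H68.VD.VelDiv

/-! # The velocity of a volume preserving path of a manifold is divergence free -/

namespace Pool.Agent.H68.GM

open MeasureTheory Set Filter Pool.Agent.H68.VD
open scoped ENNReal ContDiff Topology

noncomputable section

namespace MVelDivA

/-- Local version of `VelDivA.sum_diag`. -/
theorem sum_diag {n : ℕ} (A : ℝ → (Eu n →L[ℝ] Eu n)) (A' : Eu n →L[ℝ] Eu n) (t : ℝ)
    (h : ∀ i, HasDerivAt (fun τ => A τ (ev i)) (A' (ev i)) t)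
    (h1 : A t = ContinuousLinearMap.id ℝ (Eu n)) (hd : ∀ᶠ τ in 𝓝 t, |(A τ).det| = 1) :
    ∑ j, (A' (ev j)) j = 0 := by
  classical
  set b := (EuclideanSpace.basisFun (Fin n) ℝ).toBasis with hb
  have hbe : ∀ i, b i = ev i := by
    intro i
    simp [hb, ev]
  have hcoord : ∀ (B : Eu n →L[ℝ] Eu n) (i j : Fin n),
      LinearMap.toMatrix b b (B : Eu n →ₗ[ℝ] Eu n) i j = (B (ev j)) i := by
    intro B i j
    rw [LinearMap.toMatrix_apply, hbe]
    simp [hb]
  have hdet : ∀ τ, (LinearMap.toMatrix b b (A τ : Eu n →ₗ[ℝ] Eu n)).det = (A τ).det := by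
    intro τ
    rw [LinearMap.det_toMatrix]
  have hM := VelDivA.hasDerivAt_det (fun τ => LinearMap.toMatrix b b (A τ : Eu n →ₗ[ℝ] Eu n))
    (LinearMap.toMatrix b b (A' : Eu n →ₗ[ℝ] Eu n)) t ?_ ?_
  · simp_rw [hdet] at hM
    have hcont := hM.continuousAt
    have hdt : (A t).det = 1 := by
      rw [h1]
      exact LinearMap.det_id
    have hpos : ∀ᶠ τ in 𝓝 t, 0 < (A τ).det := by
      refine hcont.eventually (lt_mem_nhds ?_)
      show (0 : ℝ) < (A t).det
      rw [hdt]; exact one_pos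
    have heq : ∀ᶠ τ in 𝓝 t, (A τ).det = 1 := by
      filter_upwards [hpos, hd] with τ h2 h3
      rwa [abs_of_pos h2] at h3
    have h5 : HasDerivAt (fun τ => (A τ).det) 0 t :=
      (hasDerivAt_const t (1 : ℝ)).congr_of_eventuallyEq heq
    have h6 := hM.unique h5
    simp_rw [hcoord] at h6
    exact h6
  · intro i j
    simp_rw [hcoord]
    have := (h j)
    exact (EuclideanSpace.proj (𝕜 := ℝ) i : Eu n →L[ℝ] ℝ).hasFDerivAt.comp_hasDerivAt t this
  · rw [h1]
    simp

/-- Local version of `VelDivA.mixed`: symmetry of the second derivatives. -/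
theorem mixed {n : ℕ} (U : ℝ × Eu n → Eu n) (S : Set (ℝ × Eu n)) (hS : IsOpen S)
    (hU : ContDiffOn ℝ ∞ U S) (t : ℝ) (x h : Eu n) (hx : (t, x) ∈ S) :
    HasDerivAt (fun τ => fderiv ℝ (fun z => U (τ, z)) x h)
      (fderiv ℝ (fun z => deriv (fun τ => U (τ, z)) t) x h) t := by
  have hUat : ∀ q ∈ S, ContDiffAt ℝ ∞ U q := fun q hq => hU.contDiffAt (hS.mem_nhds hq)
  have hdU : ∀ q ∈ S, DifferentiableAt ℝ U q := fun q hq => (hUat q hq).differentiableAt (by simp)
  have hd2 : ContDiffAt ℝ ∞ (fderiv ℝ U) (t, x) := (hUat _ hx).fderiv_right (by simp)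
  have hdd : DifferentiableAt ℝ (fderiv ℝ U) (t, x) := hd2.differentiableAt (by simp)
  have n1 : ∀ᶠ τ in 𝓝 t, (τ, x) ∈ S := by
    have hc : ContinuousAt (fun τ : ℝ => (τ, x)) t := by fun_prop
    exact hc.eventually (hS.mem_nhds hx)
  have n2 : ∀ᶠ z in 𝓝 x, (t, z) ∈ S := by
    have hc : ContinuousAt (fun z : Eu n => (t, z)) x := by fun_prop
    exact hc.eventually (hS.mem_nhds hx)
  have e1 : ∀ τ z, (τ, z) ∈ S → fderiv ℝ (fun z => U (τ, z)) z h = fderiv ℝ U (τ, z) (0, h) := by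
    intro τ z hz
    have h1 : HasFDerivAt (fun z : Eu n => (τ, z)) (ContinuousLinearMap.inr ℝ ℝ (Eu n)) z := by
      simpa using hasFDerivAt_prodMk_right τ z
    have h2 := (hdU (τ, z) hz).hasFDerivAt.comp z h1
    have h3 : fderiv ℝ (fun z => U (τ, z)) z = (fderiv ℝ U (τ, z)).comp
      (ContinuousLinearMap.inr ℝ ℝ (Eu n)) := h2.fderiv
    rw [h3]
    simp
  have e2 : ∀ z, (t, z) ∈ S → deriv (fun τ => U (τ, z)) t = fderiv ℝ U (t, z) (1, 0) := by
    intro z hz
    have h1 : HasDerivAt (fun τ : ℝ => (τ, z)) ((1 : ℝ), (0 : Eu n)) t :=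
      (hasDerivAt_id t).prodMk (hasDerivAt_const t z)
    exact ((hdU (t, z) hz).hasFDerivAt.comp_hasDerivAt t h1).deriv
  have e3 : fderiv ℝ (fun z => deriv (fun τ => U (τ, z)) t) x h =
      fderiv ℝ (fderiv ℝ U) (t, x) (0, h) (1, 0) := by
    have hev : (fun z => deriv (fun τ => U (τ, z)) t) =ᶠ[𝓝 x]
        fun z => fderiv ℝ U (t, z) ((1 : ℝ), (0 : Eu n)) := by
      filter_upwards [n2] with z hz
      exact e2 z hz
    rw [hev.fderiv_eq]
    have h1 : HasFDerivAt (fun z : Eu n => (t, z)) (ContinuousLinearMap.inr ℝ ℝ (Eu n)) x := by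
      simpa using hasFDerivAt_prodMk_right t x
    have h2 := hdd.hasFDerivAt.comp x h1
    have h3 := h2.clm_apply (hasFDerivAt_const ((1 : ℝ), (0 : Eu n)) x)
    have h4 : fderiv ℝ (fun z => fderiv ℝ U (t, z) ((1 : ℝ), (0 : Eu n))) x = _ := h3.fderiv
    rw [h4]
    simp
  have e4 : HasDerivAt (fun τ => fderiv ℝ U (τ, x) (0, h))
      (fderiv ℝ (fderiv ℝ U) (t, x) (1, 0) (0, h)) t := by
    have h1 : HasDerivAt (fun τ : ℝ => (τ, x)) ((1 : ℝ), (0 : Eu n)) t :=
      (hasDerivAt_id t).prodMk (hasDerivAt_const t x)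
    have h2 := hdd.hasFDerivAt.comp_hasDerivAt t h1
    have h3 := h2.clm_apply (hasDerivAt_const t ((0 : ℝ), h))
    simpa using h3
  have hsymm : IsSymmSndFDerivAt ℝ U (t, x) := by
    apply (hUat _ hx).isSymmSndFDerivAt
    rw [minSmoothness_of_isRCLikeNormedField]
    exact WithTop.coe_le_coe.mpr le_top
  rw [e3, hsymm.eq]
  refine e4.congr_of_eventuallyEq ?_
  filter_upwards [n1] with τ hτ
  exact e1 τ x hτ

end MVelDivA

theorem mVelDiv (F : MFamKit) : MVelDiv := by
  classical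
  intro n M _ _ ι ch hA φ hφ t i y hy
  have hG : MFam ch (fun (τ : ℝ) x => φ τ (Function.invFun (φ t) x)) :=
    F.comp n M ι ch hA ℝ φ (fun _ => Function.invFun (φ t)) hφ
      (F.re n M ι ch ℝ ℝ (fun e => Function.invFun (φ e)) (fun _ => t) (F.inv n M ι ch hA ℝ φ hφ)
        contDiff_const)
  set G : ℝ → M → M := fun τ x => φ τ (Function.invFun (φ t) x) with hGdef
  have hGt : ∀ x, G t x = x := fun x => Function.rightInverse_invFun (hφ.bij t).2 x
  set S : Set (ℝ × Eu n) :=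
    {q | q.2 ∈ (ch i).target ∧ G q.1 ((ch i).symm q.2) ∈ (ch i).source} with hSdef
  have hSo : IsOpen S := by
    have h1 : IsOpen {q : ℝ × Eu n | q.2 ∈ (ch i).target} :=
      (ch i).open_target.preimage continuous_snd
    have h2 : ContinuousOn (fun q : ℝ × Eu n => G q.1 ((ch i).symm q.2))
        {q : ℝ × Eu n | q.2 ∈ (ch i).target} := by
      have h3 : ContinuousOn (fun q : ℝ × Eu n => (q.1, (ch i).symm q.2))
          {q : ℝ × Eu n | q.2 ∈ (ch i).target} :=
        continuousOn_fst.prodMk ((ch i).continuousOn_symm.comp continuousOn_snd fun q hq => hq)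
      exact hG.cont.comp_continuousOn h3
    exact h2.isOpen_inter_preimage h1 (ch i).open_source
  have hyS : (t, y) ∈ S := by
    refine ⟨hy, ?_⟩
    simp only [hGt]
    exact (ch i).map_target hy
  have hU : ContDiffOn ℝ ∞ (fun q : ℝ × Eu n => ch i (G q.1 ((ch i).symm q.2))) S :=
    hG.smooth i i
  have hmv : mvel ch φ t i =ᶠ[𝓝 y]
      fun z => deriv (fun τ => ch i (G τ ((ch i).symm z))) t := by
    filter_upwards [(ch i).open_target.mem_nhds hy] with z hz
    simp only [mvel, if_pos hz, hGdef]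
  rw [hmv.fderiv_eq]
  refine MVelDivA.sum_diag (fun τ => fderiv ℝ (fun z => ch i (G τ ((ch i).symm z))) y) _ t
    ?_ ?_ ?_
  · intro k
    exact MVelDivA.mixed (fun q : ℝ × Eu n => ch i (G q.1 ((ch i).symm q.2))) S hSo hU t y (ev k)
      hyS
  · have : (fun z => ch i (G t ((ch i).symm z))) =ᶠ[𝓝 y] id := by
      filter_upwards [(ch i).open_target.mem_nhds hy] with z hz
      simp only [hGt]
      exact (ch i).right_inv hz
    show fderiv ℝ (fun z => ch i (G t ((ch i).symm z))) y = _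
    rw [this.fderiv_eq]
    exact fderiv_id
  · have hc : ContinuousAt (fun τ : ℝ => (τ, y)) t := by fun_prop
    filter_upwards [hc.eventually (hSo.mem_nhds hyS)] with τ hτ
    exact hG.det τ i i y hτ.1 hτ.2

end

end Pool.Agent.H68.GM
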