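import Pool.Agent.H68.GM.St
import Pool.Agent.H68.VD.VelDiv

/-! # The Piola identity for antisymmetric matrix fields -/

namespace Pool.Agent.H68.GM

open MeasureTheory Set Pool.Agent.H68.VD
open scoped ENNReal ContDiff

noncomputable section

namespace PiolaA

variable {n : ℕ}

/-- The adjoint as a continuous linear map. -/
def adjL (n : ℕ) : (Eu n →L[ℝ] Eu n) →L[ℝ] (Eu n →L[ℝ] Eu n) :=
  LinearMap.toContinuousLinearMap
    { toFun := fun A => ContinuousLinearMap.adjoint A
      map_add' := fun A B => map_add _ A B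
      map_smul' := fun c A => by simp }

theorem adjL_apply (A : Eu n →L[ℝ] Eu n) : adjL n A = ContinuousLinearMap.adjoint A := rfl

theorem sum_ev (x : Eu n) : ∑ i, (inner ℝ (ev i) x : ℝ) • ev i = x := by
  have h := (EuclideanSpace.basisFun (Fin n) ℝ).sum_repr' x
  simpa [ev] using h

theorem inner_ev (x : Eu n) (i : Fin n) : (inner ℝ (ev i) x : ℝ) = x i := by
  simp [ev, EuclideanSpace.inner_single_left]

/-- Contraction with an inverse pair. -/
theorem sum_swap (F : Eu n →L[ℝ] Eu n →L[ℝ] Eu n) (N B : Eu n →L[ℝ] Eu n)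
    (hNB : ∀ v, N (B v) = v) :
    ∑ j, F (N (ev j)) (ContinuousLinearMap.adjoint B (ev j)) = ∑ k, F (ev k) (ev k) := by
  have h1 : ∀ j, ContinuousLinearMap.adjoint B (ev j) =
      ∑ k, (inner ℝ (ev j) (B (ev k)) : ℝ) • ev k := by
    intro j
    conv_lhs => rw [← sum_ev (ContinuousLinearMap.adjoint B (ev j))]
    apply Finset.sum_congr rfl
    intro k _
    rw [ContinuousLinearMap.adjoint_inner_right, real_inner_comm]
  calc ∑ j, F (N (ev j)) (ContinuousLinearMap.adjoint B (ev j))
      = ∑ j, ∑ k, (inner ℝ (ev j) (B (ev k)) : ℝ) • F (N (ev j)) (ev k) := by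
        apply Finset.sum_congr rfl
        intro j _
        rw [h1, map_sum]
        apply Finset.sum_congr rfl
        intro k _
        rw [map_smul]
    _ = ∑ k, ∑ j, (inner ℝ (ev j) (B (ev k)) : ℝ) • F (N (ev j)) (ev k) := Finset.sum_comm
    _ = ∑ k, F (ev k) (ev k) := by
        apply Finset.sum_congr rfl
        intro k _
        have h2 : F (N (∑ j, (inner ℝ (ev j) (B (ev k)) : ℝ) • ev j)) (ev k) =
            ∑ j, (inner ℝ (ev j) (B (ev k)) : ℝ) • F (N (ev j)) (ev k) := by
          rw [map_sum, map_sum, _root_.sum_apply]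
          apply Finset.sum_congr rfl
          intro j _
          rw [map_smul, map_smul, _root_.smul_apply]
        rw [← h2, sum_ev, hNB]

/-- The contraction of a symmetric with an antisymmetric form vanishes. -/
theorem sum_skew (D : Eu n →L[ℝ] Eu n →L[ℝ] Eu n) (hD : ∀ u v, D u v = D v u)
    (T : Eu n →L[ℝ] Eu n) (hT : ∀ a b, (inner ℝ (T a) b : ℝ) = - inner ℝ a (T b)) :
    ∑ k, D (ev k) (T (ev k)) = 0 := by
  have h1 : ∑ k, D (ev k) (T (ev k)) =
      ∑ k, ∑ l, (inner ℝ (ev l) (T (ev k)) : ℝ) • D (ev k) (ev l) := by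
    apply Finset.sum_congr rfl
    intro k _
    conv_lhs => rw [← sum_ev (T (ev k))]
    rw [map_sum]
    apply Finset.sum_congr rfl
    intro l _
    rw [map_smul]
  have h2 : ∑ k, ∑ l, (inner ℝ (ev l) (T (ev k)) : ℝ) • D (ev k) (ev l) =
      - ∑ k, ∑ l, (inner ℝ (ev l) (T (ev k)) : ℝ) • D (ev k) (ev l) := by
    conv_lhs => rw [Finset.sum_comm]
    rw [← Finset.sum_neg_distrib]
    apply Finset.sum_congr rfl
    intro k _
    rw [← Finset.sum_neg_distrib]
    apply Finset.sum_congr rfl
    intro l _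
    rw [hD (ev l) (ev k), ← neg_smul]
    congr 1
    have := hT (ev k) (ev l)
    rw [real_inner_comm] at this
    linarith
  rw [h1]
  have h3 : (2 : ℝ) • ∑ k, ∑ l, (inner ℝ (ev l) (T (ev k)) : ℝ) • D (ev k) (ev l) = 0 := by
    rw [two_smul]
    nth_rewrite 1 [h2]
    exact neg_add_cancel _
  exact (smul_eq_zero.mp h3).resolve_left two_ne_zero

/-- Local version of `VelDivA.sum_diag`. -/
theorem sum_diag' (A : ℝ → (Eu n →L[ℝ] Eu n)) (A' : Eu n →L[ℝ] Eu n) (t : ℝ)
    (h : ∀ i, HasDerivAt (fun τ => A τ (ev i)) (A' (ev i)) t)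
    (h1 : A t = ContinuousLinearMap.id ℝ (Eu n)) (hd : ∀ᶠ τ in nhds t, (A τ).det = 1) :
    ∑ j, (A' (ev j)) j = 0 := by
  classical
  set b := (EuclideanSpace.basisFun (Fin n) ℝ).toBasis with hb
  have hbe : ∀ i, b i = ev i := by
    intro i
    simp [hb, ev]
  have hcoord : ∀ (B : Eu n →L[ℝ] Eu n) (i j : Fin n),
      LinearMap.toMatrix b b (B : Eu n →ₗ[ℝ] Eu n) i j = (B (ev j)) i := by
    intro B i j
    rw [LinearMap.toMatrix_apply, hbe]
    simp [hb]
  have hM := VelDivA.hasDerivAt_det (fun τ => LinearMap.toMatrix b b (A τ : Eu n →ₗ[ℝ] Eu n))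
    (LinearMap.toMatrix b b (A' : Eu n →ₗ[ℝ] Eu n)) t ?_ ?_
  · have h5 : HasDerivAt (fun τ => (LinearMap.toMatrix b b (A τ : Eu n →ₗ[ℝ] Eu n)).det) 0 t := by
      refine (hasDerivAt_const t (1 : ℝ)).congr_of_eventuallyEq ?_
      filter_upwards [hd] with τ hτ
      rw [LinearMap.det_toMatrix]
      exact hτ
    have h6 := hM.unique h5
    simp_rw [hcoord] at h6
    exact h6
  · intro i j
    simp_rw [hcoord]
    have := (h j)
    exact (EuclideanSpace.proj (𝕜 := ℝ) i : Eu n →L[ℝ] ℝ).hasFDerivAt.comp_hasDerivAt t this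
  · rw [h1]
    simp

end PiolaA

open PiolaA

theorem piola : Piola := by
  intro n U V hU hV κ μ hκ hμ hVU hκμ hdet T hT hskew y hy
  set x := μ y with hx
  have hxU : x ∈ U := hVU y hy
  have hUx : U ∈ nhds x := hU.mem_nhds hxU
  have hκx : ContDiffAt ℝ ∞ κ x := (hκ x hxU).contDiffAt hUx
  have hμy : ContDiffAt ℝ ∞ μ y := (hμ y hy).contDiffAt (hV.mem_nhds hy)
  set B := fderiv ℝ κ x with hB
  set N := fderiv ℝ μ y with hN
  set D := fderiv ℝ (fderiv ℝ κ) x with hD
  have hκd : HasFDerivAt κ B x := (hκx.differentiableAt (by simp)).hasFDerivAt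
  have hμd : HasFDerivAt μ N y := (hμy.differentiableAt (by simp)).hasFDerivAt
  have hDd : HasFDerivAt (fderiv ℝ κ) D x :=
    ((hκx.fderiv_right (m := 1) (by exact WithTop.coe_le_coe.mpr le_top)).differentiableAt
      one_ne_zero).hasFDerivAt
  have hTd : HasFDerivAt T (fderiv ℝ T x) x := (hT.differentiable (by simp) x).hasFDerivAt
  -- inverses
  have hBN : B ∘L N = ContinuousLinearMap.id ℝ (Eu n) := by
    have h1 : HasFDerivAt (fun z => κ (μ z)) (B ∘L N) y := hκd.comp y hμd
    have h2 : HasFDerivAt (fun z : Eu n => z) (ContinuousLinearMap.id ℝ (Eu n)) y :=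
      hasFDerivAt_id y
    refine h1.unique (h2.congr_of_eventuallyEq ?_)
    filter_upwards [hV.mem_nhds hy] with z hz
    exact hκμ z hz
  have hBN' : ∀ v, B (N v) = v := fun v => by
    have := congrArg (fun L : Eu n →L[ℝ] Eu n => L v) hBN
    simpa using this
  have hNB : ∀ v, N (B v) = v := by
    have h1 : (B : Eu n →ₗ[ℝ] Eu n) ∘ₗ (N : Eu n →ₗ[ℝ] Eu n) = LinearMap.id := by
      ext1 v
      exact hBN' v
    have h2 : (N : Eu n →ₗ[ℝ] Eu n) * (B : Eu n →ₗ[ℝ] Eu n) = 1 := mul_eq_one_comm.mp h1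
    intro v
    exact congrArg (fun L : Eu n →ₗ[ℝ] Eu n => L v) h2
  -- symmetry
  have hsymm : ∀ u v, D u v = D v u := by
    have : IsSymmSndFDerivAt ℝ κ x := by
      apply hκx.isSymmSndFDerivAt
      rw [minSmoothness_of_isRCLikeNormedField]
      exact WithTop.coe_le_coe.mpr le_top
    intro u v
    exact this.eq u v
  -- trace
  have htr : ∀ a, ∑ j, (D a (N (ev j))) j = 0 := by
    intro a
    refine sum_diag' (fun τ => (fderiv ℝ κ (x + τ • a)) ∘L N) (D a ∘L N) 0 ?_ ?_ ?_
    · intro i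
      have h1 : HasDerivAt (fun τ : ℝ => x + τ • a) a 0 := by
        simpa using ((hasDerivAt_id (0 : ℝ)).smul_const a).const_add x
      have h2 : HasFDerivAt (fderiv ℝ κ) D (x + (0 : ℝ) • a) := by
        rw [zero_smul, add_zero]; exact hDd
      have h3 := h2.comp_hasDerivAt (0 : ℝ) h1
      have h4 := h3.clm_apply (hasDerivAt_const (0 : ℝ) (N (ev i)))
      simpa using h4
    · simp only [zero_smul, add_zero]
      exact hBN
    · have hc : Filter.Tendsto (fun τ : ℝ => x + τ • a) (nhds 0) (nhds x) := by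
        have : Continuous (fun τ : ℝ => x + τ • a) := by fun_prop
        simpa using this.tendsto 0
      have hdc : ContinuousAt (fun z => (fderiv ℝ κ z).det) x :=
        (ContinuousLinearMap.continuous_det.continuousAt).comp hDd.continuousAt
      have h0 : B.det ≠ 0 := by
        intro h
        have := hdet x hxU
        rw [← hB, h, abs_zero] at this
        exact zero_ne_one this
      have hev : ∀ᶠ z in nhds x, (fderiv ℝ κ z).det = B.det := by
        have h5 : ∀ᶠ z in nhds x, |(fderiv ℝ κ z).det - B.det| < 1 := by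
          have := hdc.tendsto.eventually (Metric.ball_mem_nhds _ one_pos)
          simpa [Metric.mem_ball, Real.dist_eq, hB] using this
        filter_upwards [h5, hUx] with z hz hzU
        have e1 := hdet z hzU
        have e2 := hdet x hxU
        rw [← hB] at e2
        rcases abs_eq (zero_le_one' ℝ) |>.mp e1 with h | h <;>
          rcases abs_eq (zero_le_one' ℝ) |>.mp e2 with h' | h' <;>
          rw [h, h'] at hz <;> rw [h, h'] <;> norm_num at hz
      filter_upwards [hc.eventually hev] with τ hτ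
      have e3 : ((fderiv ℝ κ (x + τ • a)) ∘L N).det = (fderiv ℝ κ (x + τ • a)).det * N.det :=
        LinearMap.det_comp _ _
      have e4 : (B ∘L N).det = B.det * N.det := LinearMap.det_comp _ _
      have e5 : (ContinuousLinearMap.id ℝ (Eu n)).det = 1 := LinearMap.det_id
      rw [e3, hτ, ← e4, hBN, e5]
  -- derivative of the matrix field
  have hc : HasFDerivAt (fun z => fderiv ℝ κ (μ z)) (D ∘L N) y := hDd.comp y hμd
  have hd : HasFDerivAt (fun z => T (μ z)) (fderiv ℝ T x ∘L N) y := hTd.comp y hμd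
  have he : HasFDerivAt (fun z => ContinuousLinearMap.adjoint (fderiv ℝ κ (μ z)))
      (adjL n ∘L (D ∘L N)) y := (adjL n).hasFDerivAt.comp y hc
  have hS := hc.clm_comp (hd.clm_comp he)
  unfold dv
  rw [hS.fderiv]
  have hterm : ∀ j, ((((ContinuousLinearMap.compL ℝ (Eu n) (Eu n) (Eu n)) B).comp
      ((((ContinuousLinearMap.compL ℝ (Eu n) (Eu n) (Eu n)) (T x)).comp (adjL n ∘L (D ∘L N))) +
        ((ContinuousLinearMap.compL ℝ (Eu n) (Eu n) (Eu n)).flip
          (ContinuousLinearMap.adjoint B)).comp (fderiv ℝ T x ∘L N)) +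
      ((ContinuousLinearMap.compL ℝ (Eu n) (Eu n) (Eu n)).flip
        (T x ∘L ContinuousLinearMap.adjoint B)).comp (D ∘L N)) (ev j)) (ev j) =
      B (T x (ContinuousLinearMap.adjoint (D (N (ev j))) (ev j))) +
        B (fderiv ℝ T x (N (ev j)) (ContinuousLinearMap.adjoint B (ev j))) +
        D (N (ev j)) (T x (ContinuousLinearMap.adjoint B (ev j))) := by
    intro j
    simp [adjL_apply]
  rw [Finset.sum_congr rfl fun j _ => hterm j, Finset.sum_add_distrib, Finset.sum_add_distrib]
  have t1 : ∑ j, B (T x (ContinuousLinearMap.adjoint (D (N (ev j))) (ev j))) = 0 := by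
    rw [← map_sum, ← map_sum]
    have : ∑ j, ContinuousLinearMap.adjoint (D (N (ev j))) (ev j) = 0 := by
      apply ext_inner_right ℝ
      intro a
      rw [sum_inner, inner_zero_left]
      rw [← htr a]
      apply Finset.sum_congr rfl
      intro j _
      rw [ContinuousLinearMap.adjoint_inner_left, hsymm, inner_ev]
    rw [this, map_zero, map_zero]
  have t2 : ∑ j, B (fderiv ℝ T x (N (ev j)) (ContinuousLinearMap.adjoint B (ev j))) =
      B (∑ j, (fderiv ℝ T x (ev j)) (ev j)) := by
    rw [← map_sum, sum_swap (fderiv ℝ T x) N B hNB]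
  have t3 : ∑ j, D (N (ev j)) (T x (ContinuousLinearMap.adjoint B (ev j))) = 0 := by
    have h1 := sum_swap ((ContinuousLinearMap.compL ℝ (Eu n) (Eu n) (Eu n)).flip (T x) ∘L D) N B hNB
    simp only [ContinuousLinearMap.comp_apply, ContinuousLinearMap.flip_apply,
      ContinuousLinearMap.compL_apply] at h1
    rw [h1]
    exact sum_skew D hsymm (T x) (hskew x)
  rw [t1, t2, t3, zero_add, add_zero]

end

end Pool.Agent.H68.GM
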