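import Pool.Agent.H68.GM.St
import Pool.Agent.H68.VD.Wsp

/-! # The dual norms on Euclidean space (module WR of project GM) -/

namespace Pool.Agent.H68.GM.WRA

open MeasureTheory Set Pool.Agent.H68.VD Pool.Agent.H68.GM
open scoped ENNReal ContDiff Pointwise

noncomputable section

variable {n : ℕ}

/-- the class of test fields -/
def Tst (r q : ℝ) (v : Eu n → Eu n) : Prop :=
  ContDiff ℝ ∞ v ∧ HasCompactSupport v ∧ slobR r q v ≤ 1

lemma wR_neg (s p : ℝ) (hs : s < 0) (u : Eu n → Eu n) :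
    wR s p u = ⨆ (v : Eu n → Eu n) (_ : Tst (-s) (p / (p - 1)) v),
      ENNReal.ofReal |∫ x, (inner ℝ (u x) (v x) : ℝ)| := by
  simp only [wR, if_neg (not_le.2 hs)]
  rfl

lemma slob_term (r q : ℝ) (v : Eu n → Eu n) (k : ℕ) (hk : k ≤ ⌊r⌋₊) :
    ∫⁻ x, ‖iteratedFDeriv ℝ k v x‖ₑ ^ q ≤ slobR r q v := by
  refine le_trans ?_ le_self_add
  exact Finset.single_le_sum (f := fun k => ∫⁻ x, ‖iteratedFDeriv ℝ k v x‖ₑ ^ q)
    (fun _ _ => zero_le) (Finset.mem_range.2 (Nat.lt_succ_of_le hk))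

lemma iter0 (v : Eu n → Eu n) (x : Eu n) : ‖iteratedFDeriv ℝ 0 v x‖ₑ = ‖v x‖ₑ := by
  rw [← ofReal_norm, ← ofReal_norm, norm_iteratedFDeriv_zero]

lemma slob_zero (r q : ℝ) (v : Eu n → Eu n) : ∫⁻ x, ‖v x‖ₑ ^ q ≤ slobR r q v := by
  have h := slob_term r q v 0 (Nat.zero_le _)
  simp_rw [iter0] at h
  exact h

lemma inner_le (u v : Eu n → Eu n) :
    ENNReal.ofReal |∫ x, (inner ℝ (u x) (v x) : ℝ)| ≤ ∫⁻ x, ‖u x‖ₑ * ‖v x‖ₑ := by
  rw [← Real.norm_eq_abs, ofReal_norm]
  refine (enorm_integral_le_lintegral_enorm _).trans (lintegral_mono fun x => ?_)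
  rw [← ofReal_norm, ← ofReal_norm, ← ofReal_norm, ← ENNReal.ofReal_mul (norm_nonneg _)]
  exact ENNReal.ofReal_le_ofReal (norm_inner_le_norm _ _)

lemma lp (s p : ℝ) (hs : s < 0) (hp : 1 < p) (u : Eu n → Eu n) (hu : Continuous u) :
    wR s p u ≤ (∫⁻ x, ‖u x‖ₑ ^ p) ^ (1 / p) := by
  have hp1 : 0 < p - 1 := by linarith
  have hpp : 0 < p := by linarith
  set q : ℝ := p / (p - 1) with hq
  have hq1 : 1 < q := by rw [hq, lt_div_iff₀ hp1]; linarith
  have hq0 : 0 < q := by linarith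
  rw [wR_neg s p hs]
  refine iSup₂_le fun v hv => ?_
  have hvc : Continuous v := hv.1.continuous
  have hv3 : ∫⁻ x, ‖v x‖ₑ ^ q ≤ 1 := (slob_zero _ _ v).trans hv.2.2
  have hconj : p.HolderConjugate q := by
    have h := Real.HolderConjugate.conjExponent hp
    rw [show Real.conjExponent p = q from hq.symm] at h
    exact h
  have h2 := ENNReal.lintegral_mul_le_Lp_mul_Lq (volume : Measure (Eu n)) hconj
    (f := fun x => ‖u x‖ₑ) (g := fun x => ‖v x‖ₑ) hu.enorm.aemeasurable hvc.enorm.aemeasurable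
  have h3 : (∫⁻ x, ‖v x‖ₑ ^ q) ^ (1 / q) ≤ 1 := by
    calc (∫⁻ x, ‖v x‖ₑ ^ q) ^ (1 / q) ≤ 1 ^ (1 / q) := by gcongr
      _ = 1 := ENNReal.one_rpow _
  calc ENNReal.ofReal |∫ x, (inner ℝ (u x) (v x) : ℝ)|
      ≤ ∫⁻ x, ‖u x‖ₑ * ‖v x‖ₑ := inner_le u v
    _ ≤ (∫⁻ x, ‖u x‖ₑ ^ p) ^ (1 / p) * (∫⁻ x, ‖v x‖ₑ ^ q) ^ (1 / q) := h2
    _ ≤ (∫⁻ x, ‖u x‖ₑ ^ p) ^ (1 / p) * 1 := by gcongr
    _ = _ := mul_one _

lemma inner_integrable (u w : Eu n → Eu n) (hu : Continuous u) (hw : Continuous w)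
    (hc : HasCompactSupport u) : Integrable (fun x => (inner ℝ (u x) (w x) : ℝ)) := by
  apply Continuous.integrable_of_hasCompactSupport (hu.inner hw)
  refine HasCompactSupport.intro hc fun x hx => ?_
  rw [image_eq_zero_of_notMem_tsupport hx, inner_zero_left]

lemma add (s p : ℝ) (hs : s < 0) (u v : Eu n → Eu n) (hu : Continuous u) (hv : Continuous v)
    (huc : HasCompactSupport u) (hvc : HasCompactSupport v) :
    wR s p (fun x => u x + v x) ≤ wR s p u + wR s p v := by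
  rw [wR_neg s p hs]
  refine iSup₂_le fun w hw => ?_
  have hwc : Continuous w := hw.1.continuous
  have h1 : ∫ x, (inner ℝ (u x + v x) (w x) : ℝ) =
      (∫ x, (inner ℝ (u x) (w x) : ℝ)) + ∫ x, (inner ℝ (v x) (w x) : ℝ) := by
    rw [← integral_add (inner_integrable u w hu hwc huc) (inner_integrable v w hv hwc hvc)]
    congr 1
    ext1 x
    rw [inner_add_left]
  rw [h1]
  refine (ENNReal.ofReal_le_ofReal (abs_add_le _ _)).trans ?_
  rw [ENNReal.ofReal_add (abs_nonneg _) (abs_nonneg _)]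
  refine add_le_add ?_ ?_
  · rw [wR_neg s p hs]
    exact le_iSup₂ (f := fun (v : Eu n → Eu n) (_ : Tst (-s) (p / (p - 1)) v) =>
      ENNReal.ofReal |∫ x, (inner ℝ (u x) (v x) : ℝ)|) w hw
  · rw [wR_neg s p hs]
    exact le_iSup₂ (f := fun (w : Eu n → Eu n) (_ : Tst (-s) (p / (p - 1)) w) =>
      ENNReal.ofReal |∫ x, (inner ℝ (v x) (w x) : ℝ)|) w hw

lemma smul (s p : ℝ) (hs : s < 0) (c : ℝ) (u : Eu n → Eu n) :
    wR s p (fun x => c • u x) = ENNReal.ofReal |c| * wR s p u := by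
  rw [wR_neg s p hs, wR_neg s p hs]
  simp only [ENNReal.mul_iSup]
  refine iSup_congr fun v => iSup_congr fun _ => ?_
  rw [← ENNReal.ofReal_mul (abs_nonneg c), ← abs_mul, ← integral_const_mul]
  simp_rw [real_inner_smul_left]

/-! ### Supports -/

lemma dv_out (K : Set (Eu n)) (hK : IsCompact K) (T : Eu n → (Eu n →L[ℝ] Eu n))
    (h0 : ∀ y ∉ K, T y = 0) : ∀ y ∉ K, fderiv ℝ T y = 0 := by
  intro y hy
  have h1 : T =ᶠ[nhds y] fun _ => (0 : Eu n →L[ℝ] Eu n) := by
    filter_upwards [hK.isClosed.isOpen_compl.mem_nhds hy] with z hz using h0 z hz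
  rw [h1.fderiv_eq]
  exact fderiv_const_apply _

lemma dv_zero (K : Set (Eu n)) (hK : IsCompact K) (T : Eu n → (Eu n →L[ℝ] Eu n))
    (h0 : ∀ y ∉ K, T y = 0) : ∀ y ∉ K, dv T y = 0 := by
  intro y hy
  simp [dv, dv_out K hK T h0 y hy]

lemma le_vol (K : Set (Eu n)) (w : Eu n → ℝ≥0∞) (q : ℝ) (hq : 1 ≤ q) (h : ∫⁻ x, w x ^ q ≤ 1) :
    ∫⁻ x in K, w x ≤ volume K + 1 := by
  have h1 : ∀ x, w x ≤ 1 + w x ^ q := by
    intro x
    rcases le_total (w x) 1 with h | h
    · exact h.trans le_self_add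
    · have : w x ^ (1 : ℝ) ≤ w x ^ q := ENNReal.rpow_le_rpow_of_exponent_le h hq
      rw [ENNReal.rpow_one] at this
      exact this.trans le_add_self
  calc ∫⁻ x in K, w x ≤ ∫⁻ x in K, (1 + w x ^ q) := lintegral_mono h1
    _ = volume K + ∫⁻ x in K, w x ^ q := by
        rw [lintegral_add_left measurable_const, setLIntegral_const, one_mul]
    _ ≤ volume K + ∫⁻ x, w x ^ q := by
        exact add_le_add le_rfl (setLIntegral_le_lintegral _ _)
    _ ≤ volume K + 1 := by gcongr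

/-! ### One derivative -/

lemma est1 (q : ℝ) (hq : 1 ≤ q) (K : Set (Eu n)) (hK : IsCompact K)
    (T : Eu n → (Eu n →L[ℝ] Eu n)) (hT : ContDiff ℝ ∞ T) (h0 : ∀ y ∉ K, T y = 0)
    (δ : ℝ) (hδ0 : 0 ≤ δ) (hδ : ∀ x, ‖T x‖ ≤ δ) (v : Eu n → Eu n) (hv : ContDiff ℝ ∞ v)
    (hv1 : ∫⁻ x, ‖iteratedFDeriv ℝ 1 v x‖ₑ ^ q ≤ 1) :
    ENNReal.ofReal |∫ x, (inner ℝ (dv T x) (v x) : ℝ)| ≤
      ENNReal.ofReal ((n : ℝ) * δ) * (volume K + 1) := by
  have hTd : Differentiable ℝ T := hT.differentiable (by simp)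
  have hvd : Differentiable ℝ v := hv.differentiable (by simp)
  have hTc : Continuous (fderiv ℝ T) := hT.continuous_fderiv (by simp)
  have hvc : Continuous (fderiv ℝ v) := hv.continuous_fderiv (by simp)
  have hcs : ∀ {F : Type} [NormedAddCommGroup F] (f : Eu n → F), (∀ y ∉ K, f y = 0) →
      HasCompactSupport f := fun f hf => HasCompactSupport.intro hK fun x hx => hf x hx
  have hTj : ∀ (j : Fin n) (x : Eu n), HasFDerivAt (fun x => T x (ev j))
      ((fderiv ℝ T x).flip (ev j)) x := by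
    intro j x
    have := (hTd x).hasFDerivAt.clm_apply (hasFDerivAt_const (ev j) x)
    refine this.congr_fderiv ?_
    ext1 y
    simp
  have hc1 : ∀ j : Fin n, Continuous fun x => (inner ℝ (T x (ev j)) (fderiv ℝ v x (ev j)) : ℝ) :=
    fun j => (hT.continuous.clm_apply continuous_const).inner (hvc.clm_apply continuous_const)
  have hc2 : ∀ j : Fin n, Continuous fun x =>
      (inner ℝ ((fderiv ℝ T x (ev j)) (ev j)) (v x) : ℝ) :=
    fun j => ((hTc.clm_apply continuous_const).clm_apply continuous_const).inner hv.continuous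
  have hc3 : ∀ j : Fin n, Continuous fun x => (inner ℝ (T x (ev j)) (v x) : ℝ) :=
    fun j => (hT.continuous.clm_apply continuous_const).inner hv.continuous
  have hz1 : ∀ (j : Fin n), ∀ y ∉ K, (inner ℝ (T y (ev j)) (fderiv ℝ v y (ev j)) : ℝ) = 0 :=
    fun j y hy => by simp [h0 y hy]
  have hz2 : ∀ (j : Fin n), ∀ y ∉ K, (inner ℝ ((fderiv ℝ T y (ev j)) (ev j)) (v y) : ℝ) = 0 :=
    fun j y hy => by simp [dv_out K hK T h0 y hy]
  have hz3 : ∀ (j : Fin n), ∀ y ∉ K, (inner ℝ (T y (ev j)) (v y) : ℝ) = 0 :=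
    fun j y hy => by simp [h0 y hy]
  have hparts : ∀ j : Fin n, ∫ x, (inner ℝ (T x (ev j)) (fderiv ℝ v x (ev j)) : ℝ) =
      -∫ x, (inner ℝ ((fderiv ℝ T x (ev j)) (ev j)) (v x) : ℝ) := by
    intro j
    have hf : ∀ x, fderiv ℝ (fun x => T x (ev j)) x (ev j) = (fderiv ℝ T x (ev j)) (ev j) := by
      intro x
      rw [(hTj j x).fderiv]
      simp
    have h1 := integral_bilinear_fderiv_right_eq_neg_left_of_integrable
      (μ := (volume : Measure (Eu n))) (f := fun x => T x (ev j)) (g := v) (v := ev j)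
      (B := innerSL ℝ) (by
        have := (hc2 j).integrable_of_hasCompactSupport (μ := (volume : Measure (Eu n)))
          (hcs _ (hz2 j))
        refine this.congr (Filter.Eventually.of_forall fun x => ?_)
        simp only [hf]
        rfl)
      (by
        have := (hc1 j).integrable_of_hasCompactSupport (μ := (volume : Measure (Eu n)))
          (hcs _ (hz1 j))
        exact this)
      (by
        have := (hc3 j).integrable_of_hasCompactSupport (μ := (volume : Measure (Eu n)))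
          (hcs _ (hz3 j))
        exact this)
      (fun x _ => (hTj j x).differentiableAt) (fun x _ => hvd x)
    simp only [hf] at h1
    exact h1
  have hdv : ∀ x, (inner ℝ (dv T x) (v x) : ℝ) =
      ∑ j, (inner ℝ ((fderiv ℝ T x (ev j)) (ev j)) (v x) : ℝ) := by
    intro x; simp only [dv, sum_inner]
  have hI : ∫ x, (inner ℝ (dv T x) (v x) : ℝ) =
      -∫ x, ∑ j, (inner ℝ (T x (ev j)) (fderiv ℝ v x (ev j)) : ℝ) := by
    simp_rw [hdv]
    rw [integral_finsetSum _ fun j _ => (hc2 j).integrable_of_hasCompactSupport (hcs _ (hz2 j)),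
      integral_finsetSum _ fun j _ => (hc1 j).integrable_of_hasCompactSupport (hcs _ (hz1 j)),
      ← Finset.sum_neg_distrib]
    refine Finset.sum_congr rfl fun j _ => ?_
    rw [hparts j, neg_neg]
  rw [← Real.norm_eq_abs, ofReal_norm, hI, enorm_neg]
  refine (enorm_integral_le_lintegral_enorm _).trans ?_
  have hev : ∀ j : Fin n, ‖(ev j : Eu n)‖ = 1 := fun j => by simp [ev]
  have h1 : ∀ x, ‖∑ j, (inner ℝ (T x (ev j)) (fderiv ℝ v x (ev j)) : ℝ)‖ₑ ≤
      K.indicator (fun x => ENNReal.ofReal ((n : ℝ) * δ) * ‖iteratedFDeriv ℝ 1 v x‖ₑ) x := by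
    intro x
    by_cases hx : x ∈ K
    · rw [Set.indicator_of_mem hx, ← ofReal_norm, ← ofReal_norm, norm_iteratedFDeriv_one,
        ← ENNReal.ofReal_mul (by positivity)]
      refine ENNReal.ofReal_le_ofReal ((norm_sum_le _ _).trans ?_)
      calc ∑ j : Fin n, ‖(inner ℝ (T x (ev j)) (fderiv ℝ v x (ev j)) : ℝ)‖
          ≤ ∑ _j : Fin n, δ * ‖fderiv ℝ v x‖ := by
            refine Finset.sum_le_sum fun j _ => (norm_inner_le_norm _ _).trans ?_
            refine mul_le_mul ?_ ?_ (norm_nonneg _) hδ0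
            · calc ‖T x (ev j)‖ ≤ ‖T x‖ * ‖(ev j : Eu n)‖ := ContinuousLinearMap.le_opNorm _ _
                _ ≤ δ := by rw [hev, mul_one]; exact hδ x
            · calc ‖fderiv ℝ v x (ev j)‖ ≤ ‖fderiv ℝ v x‖ * ‖(ev j : Eu n)‖ :=
                    ContinuousLinearMap.le_opNorm _ _
                _ = ‖fderiv ℝ v x‖ := by rw [hev, mul_one]
        _ = (n : ℝ) * δ * ‖fderiv ℝ v x‖ := by
            rw [Finset.sum_const, Finset.card_univ, Fintype.card_fin, nsmul_eq_mul]; ring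
    · rw [Set.indicator_of_notMem hx]
      have : ∑ j, (inner ℝ (T x (ev j)) (fderiv ℝ v x (ev j)) : ℝ) = 0 :=
        Finset.sum_eq_zero fun j _ => hz1 j x hx
      rw [this]; simp
  calc ∫⁻ x, ‖∑ j, (inner ℝ (T x (ev j)) (fderiv ℝ v x (ev j)) : ℝ)‖ₑ
      ≤ ∫⁻ x, K.indicator (fun x => ENNReal.ofReal ((n : ℝ) * δ) * ‖iteratedFDeriv ℝ 1 v x‖ₑ) x :=
        lintegral_mono h1
    _ = ENNReal.ofReal ((n : ℝ) * δ) * ∫⁻ x in K, ‖iteratedFDeriv ℝ 1 v x‖ₑ := by
        rw [lintegral_indicator hK.measurableSet,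
          lintegral_const_mul' _ _ ENNReal.ofReal_ne_top]
    _ ≤ ENNReal.ofReal ((n : ℝ) * δ) * (volume K + 1) := by
        gcongr
        exact le_vol K _ q hq hv1

/-! ### No derivative -/

lemma dblR (σ p q : ℝ) (hp : 1 < p) (hq : q = p / (p - 1)) (v : Eu n → Eu n)
    (hv : ∫⁻ x : Eu n, ∫⁻ h in Metric.ball (0 : Eu n) 1,
      ‖v (x + h) - v x‖ₑ ^ q / ‖h‖ₑ ^ ((n : ℝ) + σ * q) ≤ 1) (ρ : Eu n → ℝ) (hρc : Continuous ρ)
    (hρ0 : ∀ h, 1 ≤ ‖h‖ → ρ h = 0) (η l : ℝ) (hl : 0 < l)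
    (hρη : ∫⁻ h, ‖ρ h‖ₑ ^ p * ‖h‖ₑ ^ ((n : ℝ) * (p - 1) + σ * p) ≤ ENNReal.ofReal η)
    (K : Set (Eu n)) :
    ∫⁻ x in K, ∫⁻ h, ‖ρ h‖ₑ * ‖v (x + h) - v x‖ₑ ≤
      ENNReal.ofReal (l ^ q) + ENNReal.ofReal (l ^ (-p)) * ENNReal.ofReal η * volume K := by
  have hpp : 0 < p := by linarith
  have hp1 : 0 < p - 1 := by linarith
  have hqpos : 0 < q := by rw [hq]; positivity
  have hpt : ∀ x h : Eu n, ‖ρ h‖ₑ * ‖v (x + h) - v x‖ₑ ≤
      (Metric.ball (0 : Eu n) 1).indicator
        (fun h => ENNReal.ofReal (l ^ q) * (‖v (x + h) - v x‖ₑ ^ q / ‖h‖ₑ ^ ((n : ℝ) + σ * q))) h +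
      ENNReal.ofReal (l ^ (-p)) * (‖ρ h‖ₑ ^ p * ‖h‖ₑ ^ ((n : ℝ) * (p - 1) + σ * p)) := by
    intro x h
    by_cases hh : h ∈ Metric.ball (0 : Eu n) 1
    · rw [Set.indicator_of_mem hh]
      by_cases h0 : h = 0
      · subst h0; simp
      · have hH : 0 < ‖h‖ := norm_pos_iff.mpr h0
        have hy := WspA.young (n : ℝ) σ p q hp hq ‖v (x + h) - v x‖ ‖ρ h‖ ‖h‖ l (norm_nonneg _)
          (norm_nonneg _) hH hl
        have e1 : ‖ρ h‖ₑ * ‖v (x + h) - v x‖ₑ = ENNReal.ofReal (‖ρ h‖ * ‖v (x + h) - v x‖) := by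
          rw [ENNReal.ofReal_mul (norm_nonneg _), ofReal_norm, ofReal_norm]
        have e2 : ENNReal.ofReal (l ^ q) * (‖v (x + h) - v x‖ₑ ^ q / ‖h‖ₑ ^ ((n : ℝ) + σ * q)) =
            ENNReal.ofReal (l ^ q * (‖v (x + h) - v x‖ ^ q / ‖h‖ ^ ((n : ℝ) + σ * q))) := by
          rw [ENNReal.ofReal_mul (by positivity), ENNReal.ofReal_div_of_pos (by positivity),
            ← ENNReal.ofReal_rpow_of_nonneg (norm_nonneg _) hqpos.le,
            ← ENNReal.ofReal_rpow_of_pos hH, ofReal_norm, ofReal_norm]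
        have e3 : ENNReal.ofReal (l ^ (-p)) *
            (‖ρ h‖ₑ ^ p * ‖h‖ₑ ^ ((n : ℝ) * (p - 1) + σ * p)) =
            ENNReal.ofReal (l ^ (-p) * (‖ρ h‖ ^ p * ‖h‖ ^ ((n : ℝ) * (p - 1) + σ * p))) := by
          rw [ENNReal.ofReal_mul (by positivity), ENNReal.ofReal_mul (by positivity),
            ← ENNReal.ofReal_rpow_of_nonneg (norm_nonneg _) hpp.le,
            ← ENNReal.ofReal_rpow_of_pos hH, ofReal_norm, ofReal_norm]
        rw [e1, e2, e3, ← ENNReal.ofReal_add (by positivity) (by positivity)]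
        exact ENNReal.ofReal_le_ofReal hy
    · have : ρ h = 0 := hρ0 h (by simpa using hh)
      rw [this]; simp
  have hmeas : Measurable (fun h : Eu n =>
      ENNReal.ofReal (l ^ (-p)) * (‖ρ h‖ₑ ^ p * ‖h‖ₑ ^ ((n : ℝ) * (p - 1) + σ * p))) := by
    apply Measurable.const_mul
    apply Measurable.mul
    · exact (hρc.measurable.enorm).pow_const _
    · exact (measurable_id.enorm).pow_const _
  have hin : ∀ x : Eu n, ∫⁻ h, ‖ρ h‖ₑ * ‖v (x + h) - v x‖ₑ ≤
      ENNReal.ofReal (l ^ q) * (∫⁻ h in Metric.ball (0 : Eu n) 1,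
        ‖v (x + h) - v x‖ₑ ^ q / ‖h‖ₑ ^ ((n : ℝ) + σ * q)) +
      ENNReal.ofReal (l ^ (-p)) * ENNReal.ofReal η := by
    intro x
    calc ∫⁻ h, ‖ρ h‖ₑ * ‖v (x + h) - v x‖ₑ ≤ _ := lintegral_mono (hpt x)
      _ = (∫⁻ h, (Metric.ball (0 : Eu n) 1).indicator (fun h => ENNReal.ofReal (l ^ q) *
            (‖v (x + h) - v x‖ₑ ^ q / ‖h‖ₑ ^ ((n : ℝ) + σ * q))) h) +
          ∫⁻ h, ENNReal.ofReal (l ^ (-p)) *
            (‖ρ h‖ₑ ^ p * ‖h‖ₑ ^ ((n : ℝ) * (p - 1) + σ * p)) := by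
          rw [lintegral_add_right _ hmeas]
      _ ≤ _ := by
          gcongr
          · rw [lintegral_indicator Metric.isOpen_ball.measurableSet,
              lintegral_const_mul' _ _ ENNReal.ofReal_ne_top]
          · rw [lintegral_const_mul' _ _ ENNReal.ofReal_ne_top]
            gcongr
  calc ∫⁻ x in K, ∫⁻ h, ‖ρ h‖ₑ * ‖v (x + h) - v x‖ₑ
      ≤ ∫⁻ x in K, (ENNReal.ofReal (l ^ q) * (∫⁻ h in Metric.ball (0 : Eu n) 1,
        ‖v (x + h) - v x‖ₑ ^ q / ‖h‖ₑ ^ ((n : ℝ) + σ * q)) +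
      ENNReal.ofReal (l ^ (-p)) * ENNReal.ofReal η) := lintegral_mono hin
    _ = ENNReal.ofReal (l ^ q) * (∫⁻ x in K, ∫⁻ h in Metric.ball (0 : Eu n) 1,
        ‖v (x + h) - v x‖ₑ ^ q / ‖h‖ₑ ^ ((n : ℝ) + σ * q)) +
      ENNReal.ofReal (l ^ (-p)) * ENNReal.ofReal η * volume K := by
        rw [lintegral_add_right _ measurable_const, lintegral_const_mul' _ _ ENNReal.ofReal_ne_top,
          setLIntegral_const]
    _ ≤ ENNReal.ofReal (l ^ q) * 1 + ENNReal.ofReal (l ^ (-p)) * ENNReal.ofReal η * volume K := by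
        refine add_le_add (mul_le_mul_right ?_ _) le_rfl
        exact (setLIntegral_le_lintegral _ _).trans hv
    _ = _ := by rw [mul_one]

/-- moving the mollification to the other factor -/
lemma moveR (ρ : Eu n → ℝ) (hρc : Continuous ρ) (hc : HasCompactSupport ρ) (u v : Eu n → Eu n)
    (hu : Continuous u) (huc : HasCompactSupport u) (hv : Continuous v)
    (hvc : HasCompactSupport v) :
    ∫ x, (inner ℝ (u x) (∫ h, ρ h • v (x + h)) : ℝ) =
      ∫ x, (inner ℝ (∫ h, ρ h • u (x - h)) (v x) : ℝ) := by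
  have hI1 : Integrable (Function.uncurry fun (x h : Eu n) => ρ h * (inner ℝ (u x) (v (x + h)) : ℝ))
      ((volume : Measure (Eu n)).prod volume) := by
    apply Continuous.integrable_of_hasCompactSupport
    · exact (hρc.comp continuous_snd).mul
        ((hu.comp continuous_fst).inner (hv.comp (continuous_fst.add continuous_snd)))
    · refine HasCompactSupport.intro (huc.prod hc) fun z hz => ?_
      obtain ⟨x, h⟩ := z
      simp only [Set.mem_prod, not_and_or] at hz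
      simp only [Function.uncurry_apply_pair]
      rcases hz with hz | hz
      · rw [image_eq_zero_of_notMem_tsupport hz, inner_zero_left, mul_zero]
      · rw [image_eq_zero_of_notMem_tsupport hz, zero_mul]
  have hI2 : Integrable (Function.uncurry fun (x h : Eu n) => ρ h * (inner ℝ (u (x - h)) (v x) : ℝ))
      ((volume : Measure (Eu n)).prod volume) := by
    apply Continuous.integrable_of_hasCompactSupport
    · exact (hρc.comp continuous_snd).mul
        ((hu.comp (continuous_fst.sub continuous_snd)).inner (hv.comp continuous_fst))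
    · refine HasCompactSupport.intro (hvc.prod hc) fun z hz => ?_
      obtain ⟨x, h⟩ := z
      simp only [Set.mem_prod, not_and_or] at hz
      simp only [Function.uncurry_apply_pair]
      rcases hz with hz | hz
      · rw [image_eq_zero_of_notMem_tsupport hz, inner_zero_right, mul_zero]
      · rw [image_eq_zero_of_notMem_tsupport hz, zero_mul]
  have e1 : ∀ x, (inner ℝ (u x) (∫ h, ρ h • v (x + h)) : ℝ) =
      ∫ h, ρ h * (inner ℝ (u x) (v (x + h)) : ℝ) := by
    intro x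
    have hi : Integrable (fun h => ρ h • v (x + h)) := by
      apply Continuous.integrable_of_hasCompactSupport
      · exact hρc.smul (hv.comp (continuous_const.add continuous_id))
      · exact hc.smul_right
    rw [← integral_inner hi]
    congr 1
    ext1 h
    rw [inner_smul_right]
  have e2 : ∀ x, (inner ℝ (∫ h, ρ h • u (x - h)) (v x) : ℝ) =
      ∫ h, ρ h * (inner ℝ (u (x - h)) (v x) : ℝ) := by
    intro x
    have hi : Integrable (fun h => ρ h • u (x - h)) := by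
      apply Continuous.integrable_of_hasCompactSupport
      · exact hρc.smul (hu.comp (continuous_const.sub continuous_id))
      · exact hc.smul_right
    rw [real_inner_comm, ← integral_inner hi]
    congr 1
    ext1 h
    rw [inner_smul_right, real_inner_comm]
  calc ∫ x, (inner ℝ (u x) (∫ h, ρ h • v (x + h)) : ℝ)
      = ∫ x, ∫ h, ρ h * (inner ℝ (u x) (v (x + h)) : ℝ) := by simp_rw [e1]
    _ = ∫ h, ∫ x, ρ h * (inner ℝ (u x) (v (x + h)) : ℝ) := integral_integral_swap hI1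
    _ = ∫ h, ∫ x, ρ h * (inner ℝ (u (x - h)) (v x) : ℝ) := by
        congr 1
        ext1 h
        have h1 := integral_sub_right_eq_self
          (μ := (volume : Measure (Eu n))) (fun x => ρ h * (inner ℝ (u x) (v (x + h)) : ℝ)) h
        rw [← h1]
        simp
    _ = ∫ x, ∫ h, ρ h * (inner ℝ (u (x - h)) (v x) : ℝ) := (integral_integral_swap hI2).symm
    _ = _ := by simp_rw [e2]

/-- the main estimate -/
lemma main_estR (q : ℝ) (hq1 : 1 < q) (K : Set (Eu n)) (hK : IsCompact K)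
    (T : Eu n → (Eu n →L[ℝ] Eu n)) (hT : ContDiff ℝ ∞ T) (h0 : ∀ y ∉ K, T y = 0) (B δ : ℝ)
    (hδ0 : 0 ≤ δ) (hB' : ∀ x, ‖dv T x‖ ≤ B) (hδ : ∀ x, ‖T x‖ ≤ δ) (v : Eu n → Eu n)
    (hv : ContDiff ℝ ∞ v) (hvcs : HasCompactSupport v) (hv3 : ∫⁻ x, ‖v x‖ₑ ^ q ≤ 1)
    (ρ : Eu n → ℝ) (hρ : ContDiff ℝ ∞ ρ) (hc : HasCompactSupport ρ)
    (hρ0 : ∀ h, 1 ≤ ‖h‖ → ρ h = 0) (hint : ∫ h, ρ h = 1) :
    ‖∫ x, (inner ℝ (dv T x) (v x) : ℝ)‖ₑ ≤
      ENNReal.ofReal B * (∫⁻ x in K, ∫⁻ h, ‖ρ h‖ₑ * ‖v (x + h) - v x‖ₑ) +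
      ENNReal.ofReal (δ * ∑ j : Fin n, ∫ h, ‖fderiv ℝ ρ h (ev j)‖) *
        (volume (K + Metric.closedBall (0 : Eu n) 1) + 1) := by
  set C : ℝ := ∑ j : Fin n, ∫ h, ‖fderiv ℝ ρ h (ev j)‖ with hC
  have hC0 : 0 ≤ C := Finset.sum_nonneg fun j _ => integral_nonneg fun h => norm_nonneg _
  have hu := WspA.dv_cont T hT
  have hdz := dv_zero K hK T h0
  have huc : HasCompactSupport (dv T) := HasCompactSupport.intro hK hdz
  have hvc : Continuous v := hv.continuous
  have hρc := hρ.continuous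
  have hmove := moveR ρ hρc hc (dv T) v hu huc hvc hvcs
  have hvi : ∀ x, Integrable (fun h => ρ h • v (x + h)) := by
    intro x
    apply Continuous.integrable_of_hasCompactSupport
    · exact hρc.smul (hvc.comp (continuous_const.add continuous_id))
    · exact hc.smul_right
  have e1 : ∀ x, (inner ℝ (dv T x) (∫ h, ρ h • v (x + h)) : ℝ) =
      ∫ h, ρ h * (inner ℝ (dv T x) (v (x + h)) : ℝ) := by
    intro x
    rw [← integral_inner (hvi x)]
    congr 1
    ext1 h
    rw [inner_smul_right]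
  have hI1 : Integrable (Function.uncurry fun (x h : Eu n) =>
      ρ h * (inner ℝ (dv T x) (v (x + h)) : ℝ)) ((volume : Measure (Eu n)).prod volume) := by
    apply Continuous.integrable_of_hasCompactSupport
    · exact (hρc.comp continuous_snd).mul
        ((hu.comp continuous_fst).inner (hvc.comp (continuous_fst.add continuous_snd)))
    · refine HasCompactSupport.intro (huc.prod hc) fun z hz => ?_
      obtain ⟨x, h⟩ := z
      simp only [Set.mem_prod, not_and_or] at hz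
      simp only [Function.uncurry_apply_pair]
      rcases hz with hz | hz
      · rw [image_eq_zero_of_notMem_tsupport hz, inner_zero_left, mul_zero]
      · rw [image_eq_zero_of_notMem_tsupport hz, zero_mul]
  have hI2 : Integrable (fun x => (inner ℝ (dv T x) (∫ h, ρ h • v (x + h)) : ℝ)) := by
    have := hI1.integral_prod_left
    refine this.congr (Filter.Eventually.of_forall fun x => ?_)
    simp only [Function.uncurry_apply_pair]
    exact (e1 x).symm
  have hI3 : Integrable (fun x => (inner ℝ (dv T x) (v x) : ℝ)) :=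
    inner_integrable _ _ hu hvc huc
  have hsplit : ∫ x, (inner ℝ (dv T x) (v x) : ℝ) =
      (∫ x, (inner ℝ (dv T x) (v x - ∫ h, ρ h • v (x + h)) : ℝ)) +
      ∫ x, (inner ℝ (∫ h, ρ h • dv T (x - h)) (v x) : ℝ) := by
    rw [← hmove]
    have h1 : ∀ x, (inner ℝ (dv T x) (v x - ∫ h, ρ h • v (x + h)) : ℝ) =
        (inner ℝ (dv T x) (v x) : ℝ) - (inner ℝ (dv T x) (∫ h, ρ h • v (x + h)) : ℝ) := by
      intro x; rw [inner_sub_right]
    simp_rw [h1]
    rw [integral_sub hI3 hI2]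
    ring
  have hdiff : ∀ x, ‖v x - ∫ h, ρ h • v (x + h)‖ₑ ≤ ∫⁻ h, ‖ρ h‖ₑ * ‖v (x + h) - v x‖ₑ := by
    intro x
    have h1 : v x - ∫ h, ρ h • v (x + h) = -∫ h, ρ h • (v (x + h) - v x) := by
      have h2 : ∫ h, ρ h • (v (x + h) - v x) = (∫ h, ρ h • v (x + h)) - ∫ h, ρ h • v x := by
        rw [← integral_sub (hvi x) ((hρc.integrable_of_hasCompactSupport hc).smul_const _)]
        congr 1
        ext1 h
        rw [smul_sub]
      rw [h2, integral_smul_const, hint, one_smul]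
      abel
    rw [h1, enorm_neg]
    refine (enorm_integral_le_lintegral_enorm _).trans (lintegral_mono fun h => ?_)
    rw [enorm_smul]
  have hA : ‖∫ x, (inner ℝ (dv T x) (v x - ∫ h, ρ h • v (x + h)) : ℝ)‖ₑ ≤
      ENNReal.ofReal B * (∫⁻ x in K, ∫⁻ h, ‖ρ h‖ₑ * ‖v (x + h) - v x‖ₑ) := by
    refine (enorm_integral_le_lintegral_enorm _).trans ?_
    rw [← lintegral_const_mul' _ _ ENNReal.ofReal_ne_top, ← lintegral_indicator hK.measurableSet]
    refine lintegral_mono fun x => ?_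
    by_cases hx : x ∈ K
    · rw [Set.indicator_of_mem hx]
      calc ‖(inner ℝ (dv T x) (v x - ∫ h, ρ h • v (x + h)) : ℝ)‖ₑ
          ≤ ‖dv T x‖ₑ * ‖v x - ∫ h, ρ h • v (x + h)‖ₑ := by
            rw [← ofReal_norm, ← ofReal_norm, ← ofReal_norm, ← ENNReal.ofReal_mul (norm_nonneg _)]
            exact ENNReal.ofReal_le_ofReal (norm_inner_le_norm _ _)
        _ ≤ _ := by
            gcongr
            · rw [← ofReal_norm]; exact ENNReal.ofReal_le_ofReal (hB' x)
            · exact hdiff x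
    · rw [Set.indicator_of_notMem hx, hdz x hx, inner_zero_left]
      simp
  set K1 : Set (Eu n) := K + Metric.closedBall (0 : Eu n) 1 with hK1
  have hK1c : IsCompact K1 := hK.add (isCompact_closedBall _ _)
  have hW0 : ∀ x ∉ K1, ∫ h, ρ h • dv T (x - h) = 0 := by
    intro x hx
    have : ∀ h, ρ h • dv T (x - h) = 0 := by
      intro h
      by_cases h1 : 1 ≤ ‖h‖
      · rw [hρ0 h h1, zero_smul]
      · rw [hdz (x - h) (fun hmem => hx ?_), smul_zero]
        exact Set.mem_add.2 ⟨x - h, hmem, h, by simpa using (not_le.1 h1).le, sub_add_cancel _ _⟩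
    simp_rw [this]
    simp
  have hBd : ‖∫ x, (inner ℝ (∫ h, ρ h • dv T (x - h)) (v x) : ℝ)‖ₑ ≤
      ENNReal.ofReal (δ * C) * (volume K1 + 1) := by
    refine (enorm_integral_le_lintegral_enorm _).trans ?_
    calc ∫⁻ x, ‖(inner ℝ (∫ h, ρ h • dv T (x - h)) (v x) : ℝ)‖ₑ
        ≤ ∫⁻ x in K1, ENNReal.ofReal (δ * C) * ‖v x‖ₑ := by
          rw [← lintegral_indicator hK1c.measurableSet]
          refine lintegral_mono fun x => ?_
          by_cases hx : x ∈ K1
          · rw [Set.indicator_of_mem hx, ← ofReal_norm, ← ofReal_norm,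
              ← ENNReal.ofReal_mul (by positivity)]
            refine ENNReal.ofReal_le_ofReal ((norm_inner_le_norm _ _).trans ?_)
            gcongr
            exact WspA.conv_dv ρ hρ hc T hT δ hδ x
          · rw [Set.indicator_of_notMem hx, hW0 x hx, inner_zero_left]
            simp
      _ = ENNReal.ofReal (δ * C) * ∫⁻ x in K1, ‖v x‖ₑ :=
          lintegral_const_mul' _ _ ENNReal.ofReal_ne_top
      _ ≤ _ := by
          gcongr
          exact le_vol K1 _ q hq1.le hv3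
  rw [hsplit]
  exact (enorm_add_le _ _).trans (add_le_add hA hBd)

lemma weak (n : ℕ) (s p : ℝ) (hs : s < 0) (hp : 1 < p) (K : Set (Eu n)) (hK : IsCompact K)
    (B ε : ℝ) (hε : 0 < ε) : ∃ δ : ℝ, 0 < δ ∧ ∀ T : Eu n → (Eu n →L[ℝ] Eu n), ContDiff ℝ ∞ T →
    (∀ y ∉ K, T y = 0) → (∀ y, ‖dv T y‖ ≤ B) → (∀ y, ‖T y‖ ≤ δ) →
    wR s p (dv T) ≤ ENNReal.ofReal ε := by
  have hp1 : 0 < p - 1 := by linarith
  have hpp : 0 < p := by linarith
  set q : ℝ := p / (p - 1) with hq
  have hq1 : 1 < q := by rw [hq, lt_div_iff₀ hp1]; linarith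
  have hq0 : 0 < q := by linarith
  set r : ℝ := -s with hr
  have hr0 : 0 < r := by rw [hr]; linarith
  rcases Nat.eq_zero_or_pos ⌊r⌋₊ with hm | hm
  · -- no derivative
    set V : ℝ := (volume : Measure (Eu n)).real K with hV
    have hV0 : 0 ≤ V := measureReal_nonneg
    have hVe : (volume : Measure (Eu n)) K = ENNReal.ofReal V := by
      rw [hV, measureReal_def, ENNReal.ofReal_toReal hK.measure_lt_top.ne]
    set K1 : Set (Eu n) := K + Metric.closedBall (0 : Eu n) 1 with hK1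
    have hK1c : IsCompact K1 := hK.add (isCompact_closedBall _ _)
    set V1 : ℝ := (volume : Measure (Eu n)).real K1 with hV1
    have hV10 : 0 ≤ V1 := measureReal_nonneg
    have hV1e : (volume : Measure (Eu n)) K1 = ENNReal.ofReal V1 := by
      rw [hV1, measureReal_def, ENNReal.ofReal_toReal hK1c.measure_lt_top.ne]
    set B' : ℝ := max B 1 with hB'
    have hB'pos : 0 < B' := lt_of_lt_of_le one_pos (le_max_right _ _)
    set l : ℝ := (ε / (3 * B')) ^ (1 / q) with hl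
    have hlpos : 0 < l := by positivity
    have hlq : l ^ q = ε / (3 * B') := by
      rw [hl, ← Real.rpow_mul (by positivity), one_div_mul_cancel hq0.ne', Real.rpow_one]
    set η : ℝ := l ^ p * (ε / (3 * B' * (V + 1))) with hη
    have hηpos : 0 < η := by positivity
    obtain ⟨ρ, hρ, hc, hρnn, hρ0, hint, hρη⟩ := WspA.bump n r p hr0 hp η hηpos
    set C : ℝ := ∑ j : Fin n, ∫ h, ‖fderiv ℝ ρ h (ev j)‖ with hC
    have hC0 : 0 ≤ C := Finset.sum_nonneg fun j _ => integral_nonneg fun h => norm_nonneg _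
    refine ⟨ε / (3 * (C + 1) * (V1 + 1)), by positivity, fun T hT h0 hTB hTδ => ?_⟩
    rw [wR_neg s p hs]
    refine iSup₂_le fun v hv => ?_
    obtain ⟨hv1, hv2, hv3⟩ := hv
    have hv4 : ∫⁻ x, ‖v x‖ₑ ^ q ≤ 1 := (slob_zero _ _ v).trans hv3
    have hv5 : ∫⁻ x : Eu n, ∫⁻ h in Metric.ball (0 : Eu n) 1,
        ‖v (x + h) - v x‖ₑ ^ q / ‖h‖ₑ ^ ((n : ℝ) + r * q) ≤ 1 := by
      have hd : ∀ x h : Eu n, ‖iteratedFDeriv ℝ 0 v (x + h) - iteratedFDeriv ℝ 0 v x‖ₑ =
          ‖v (x + h) - v x‖ₑ := by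
        intro x h
        rw [← ofReal_norm, ← ofReal_norm, iteratedFDeriv_zero_eq_comp]
        simp only [Function.comp_apply]
        rw [← map_sub, LinearIsometryEquiv.norm_map]
      have h2 : slobR r q v = (∫⁻ x, ‖v x‖ₑ ^ q) +
          (∫⁻ x : Eu n, ∫⁻ h in Metric.ball (0 : Eu n) 1,
            ‖v (x + h) - v x‖ₑ ^ q / ‖h‖ₑ ^ ((n : ℝ) + r * q)) := by
        unfold slobR
        rw [hm]
        simp only [zero_add, Finset.range_one, Finset.sum_singleton, Nat.cast_zero, sub_zero,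
          if_pos hr0, iter0, hd]
      have h3 : slobR r q v ≤ 1 := hv3
      rw [h2] at h3
      exact le_trans le_add_self h3
    rw [← Real.norm_eq_abs, ofReal_norm]
    have h1 := main_estR q hq1 K hK T hT h0 B' (ε / (3 * (C + 1) * (V1 + 1))) (by positivity)
      (fun x => (hTB x).trans (le_max_left _ _)) hTδ v hv1 hv2 hv4 ρ hρ hc hρ0 hint
    have h2 := dblR r p q hp hq v hv5 ρ hρ.continuous hρ0 η l hlpos hρη K
    have h3 : ENNReal.ofReal B' * (ENNReal.ofReal (l ^ q) +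
        ENNReal.ofReal (l ^ (-p)) * ENNReal.ofReal η * volume K) +
        ENNReal.ofReal (ε / (3 * (C + 1) * (V1 + 1)) * C) * (volume K1 + 1) ≤
        ENNReal.ofReal ε := by
      rw [hVe, hV1e, ← ENNReal.ofReal_mul (by positivity), ← ENNReal.ofReal_mul (by positivity),
        ← ENNReal.ofReal_add (by positivity) (by positivity),
        ← ENNReal.ofReal_mul (by positivity), ← ENNReal.ofReal_one,
        ← ENNReal.ofReal_add hV10 zero_le_one,
        ← ENNReal.ofReal_mul (by positivity), ← ENNReal.ofReal_add (by positivity) (by positivity)]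
      apply ENNReal.ofReal_le_ofReal
      have e1 : l ^ (-p) * η = ε / (3 * B' * (V + 1)) := by
        rw [hη, ← mul_assoc, ← Real.rpow_add hlpos]
        simp
      rw [hlq, e1]
      have e2 : B' * (ε / (3 * B') + ε / (3 * B' * (V + 1)) * V) ≤ 2 * ε / 3 := by
        have : B' * (ε / (3 * B') + ε / (3 * B' * (V + 1)) * V) = ε / 3 + ε / 3 * (V / (V + 1)) := by
          field_simp
        rw [this]
        have h4 : V / (V + 1) ≤ 1 := by rw [div_le_one (by positivity)]; linarith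
        have h5 : ε / 3 * (V / (V + 1)) ≤ ε / 3 * 1 := by gcongr
        linarith
      have e3 : ε / (3 * (C + 1) * (V1 + 1)) * C * (V1 + 1) ≤ ε / 3 := by
        have : ε / (3 * (C + 1) * (V1 + 1)) * C * (V1 + 1) = ε / 3 * (C / (C + 1)) := by
          field_simp
        rw [this]
        have h4 : C / (C + 1) ≤ 1 := by rw [div_le_one (by positivity)]; linarith
        calc ε / 3 * (C / (C + 1)) ≤ ε / 3 * 1 := by gcongr
          _ = ε / 3 := mul_one _
      linarith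
    refine h1.trans (le_trans ?_ h3)
    gcongr
  · -- one derivative
    set V : ℝ := (volume : Measure (Eu n)).real K with hV
    have hV0 : 0 ≤ V := measureReal_nonneg
    have hVe : (volume : Measure (Eu n)) K = ENNReal.ofReal V := by
      rw [hV, measureReal_def, ENNReal.ofReal_toReal hK.measure_lt_top.ne]
    refine ⟨ε / (((n : ℝ) + 1) * (V + 1)), by positivity, fun T hT h0 hTB hTδ => ?_⟩
    rw [wR_neg s p hs]
    refine iSup₂_le fun v hv => ?_
    obtain ⟨hv1, hv2, hv3⟩ := hv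
    have h1 := est1 q hq1.le K hK T hT h0 (ε / (((n : ℝ) + 1) * (V + 1))) (by positivity) hTδ v hv1
      ((slob_term r q v 1 hm).trans hv3)
    refine h1.trans ?_
    rw [hVe, ← ENNReal.ofReal_one, ← ENNReal.ofReal_add hV0 zero_le_one,
      ← ENNReal.ofReal_mul (by positivity)]
    apply ENNReal.ofReal_le_ofReal
    have h2 : (n : ℝ) * (ε / (((n : ℝ) + 1) * (V + 1))) * (V + 1) = ε * ((n : ℝ) / (n + 1)) := by
      field_simp
    rw [h2]
    have h4 : (n : ℝ) / (n + 1) ≤ 1 := by rw [div_le_one (by positivity)]; linarith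
    calc ε * ((n : ℝ) / (n + 1)) ≤ ε * 1 := by gcongr
      _ = ε := mul_one _

end

end Pool.Agent.H68.GM.WRA

namespace Pool.Agent.H68.GM

/-- The dual norms on Euclidean space. -/
theorem wrKit : WRKit where
  lp := fun _ s p hs hp u hu => WRA.lp s p hs hp u hu
  add := fun _ s p hs u v hu hv huc hvc => WRA.add s p hs u v hu hv huc hvc
  smul := fun _ s p hs c u => WRA.smul s p hs c u
  weak := fun n s p _ hs hp K hK B ε hε => WRA.weak n s p hs hp K hK B ε hε

end Pool.Agent.H68.GM
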