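import Pool.Agent.H68.GM.S
import Pool.Agent.H68.GM.MFamK
import Pool.Agent.H68.GM.MVelDiv
import Pool.Agent.H68.GM.MCostK
import Pool.Agent.H68.GM.MExtK
import Pool.Agent.H68.GM.PushK
import Pool.Agent.H68.GM.MSwirl
import Pool.Agent.H68.GM.MDens
import Pool.Agent.H68.GM.Piola
import Pool.Agent.H68.GM.WR
import Pool.Agent.H68.GM.WMW
import Pool.Agent.H68.GM.MMain
import Pool.Agent.H68.VD.Tr

/-! # The vanishing theorem on closed manifolds -/

namespace Pool.Agent.H68.GM

open MeasureTheory Set Pool.Agent.H68.VD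
open scoped ENNReal ContDiff

noncomputable section

namespace TrB

variable {n : ℕ} {M : Type} [TopologicalSpace M] {ι : Type}

theorem mMain_all : MMainCost := by
  have F := mFamKit
  have CK := mCostKit F
  have X := mExtKit famKit
  have H := homot rotKit
  exact mMainCost F CK twistFam twistVel rotKit X
    (mSwirl F CK X twistFam twistVel rotKit H osc) pushKit mDens

theorem path_iff (ch : ι → OpenPartialHomeomorph M (Eu n)) (φ : ℝ → M → M) :
    MPath ch φ ↔ MFam ch φ :=
  ⟨fun ⟨h1, h2, h3, h4⟩ => ⟨h1, h2, h3, fun e i j y hy hy' => h4 e i j y ⟨hy, hy'⟩⟩,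
    fun ⟨h1, h2, h3, h4⟩ => ⟨h1, h2, h3, fun e i j y hy => h4 e i j y hy.1 hy.2⟩⟩

theorem mg_iff (ch : ι → OpenPartialHomeomorph M (Eu n)) (f : M → M) : MG ch f ↔ InGM ch f := by
  simp only [MG, InGM, path_iff]

theorem sdist_eq [Nonempty M] (ch : ι → OpenPartialHomeomorph M (Eu n))
    (N : (ι → Eu n → Eu n) → ℝ≥0∞) (f g : M → M) : sdist ch N f g = mdist ch N f g := by
  simp only [sdist, mdist, path_iff]

theorem dv_smul (a b : Fin n) (f : Eu n → ℝ) (hf : ContDiff ℝ ∞ f) (x : Eu n) :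
    dv (fun y => f y • rotJ b a) x = jgrad a b f x := by
  have hd : DifferentiableAt ℝ f x := (hf.differentiable (by simp)) x
  have h1 : ∀ v, fderiv ℝ (fun y => f y • (rotJ b a : Eu n →L[ℝ] Eu n)) x v =
      (fderiv ℝ f x v) • rotJ b a := by
    intro v
    have h0 := (hd.hasFDerivAt.smul_const (rotJ b a : Eu n →L[ℝ] Eu n)).fderiv
    rw [h0]
    simp
  unfold dv jgrad
  simp only [h1]
  have h2 : ∀ j, ((fderiv ℝ f x (ev j)) • (rotJ b a : Eu n →L[ℝ] Eu n)) (ev j) =
      (if b = j then (fderiv ℝ f x (ev j)) • ev a else 0) -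
        (if a = j then (fderiv ℝ f x (ev j)) • ev b else 0) := by
    intro j
    have h3 : ∀ c : Fin n, (ev j : Eu n) c = if c = j then (1 : ℝ) else 0 := by
      intro c
      simp [ev, Pi.single_apply]
    have h4 : (rotJ b a : Eu n →L[ℝ] Eu n) (ev j) =
        (ev j : Eu n) b • ev a - (ev j : Eu n) a • ev b := rfl
    have h5 : ((fderiv ℝ f x (ev j)) • (rotJ b a : Eu n →L[ℝ] Eu n)) (ev j) =
        (fderiv ℝ f x (ev j)) • ((rotJ b a : Eu n →L[ℝ] Eu n) (ev j)) := rfl
    rw [h5, h4, h3, h3]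
    split_ifs <;> simp [smul_sub]
  simp only [h2, Finset.sum_sub_distrib, Finset.sum_ite_eq, Finset.mem_univ, if_true]

theorem rotJ_skew (a b : Fin n) (v w : Eu n) :
    inner ℝ (rotJ a b v) w = - inner ℝ v (rotJ a b w) := by
  have h := rotKit.orth n a b (v + w)
  have h1 := rotKit.orth n a b v
  have h2 := rotKit.orth n a b w
  rw [map_add, inner_add_left, inner_add_right, inner_add_right, h1, h2] at h
  rw [real_inner_comm (rotJ a b w) v]
  linarith

theorem exact_fld [Fintype ι] (ch : ι → OpenPartialHomeomorph M (Eu n)) (X : ι → Eu n → Eu n)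
    (h : Exact ch X) : ExactFld ch X := by
  classical
  obtain ⟨f, hf, hX⟩ := h
  refine ⟨fun i y => ∑ a, ∑ b, f i a b y • rotJ b a, ?_, ?_⟩
  · intro i
    refine ⟨?_, ?_, ?_⟩
    · exact ContDiff.sum fun a _ => ContDiff.sum fun b _ => (hf i a b).1.smul contDiff_const
    · choose K hK1 hK2 hK3 using fun a b => (hf i a b).2
      refine ⟨⋃ a, ⋃ b, K a b, isCompact_iUnion fun a => isCompact_iUnion fun b => hK1 a b,
        Set.iUnion_subset fun a => Set.iUnion_subset fun b => hK2 a b, ?_⟩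
      intro y hy
      simp only [Set.mem_iUnion, not_exists] at hy
      refine Finset.sum_eq_zero fun a _ => Finset.sum_eq_zero fun b _ => ?_
      rw [hK3 a b y (hy a b)]
      ext z
      simp
    · intro y v w
      simp only [ContinuousLinearMap.sum_apply, ContinuousLinearMap.smul_apply, sum_inner, inner_sum,
        inner_smul_left, inner_smul_right, rotJ_skew, ← Finset.sum_neg_distrib]
      refine Finset.sum_congr rfl fun a _ => Finset.sum_congr rfl fun b _ => ?_
      simp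
  · intro j y
    rw [hX j y]
    refine Finset.sum_congr rfl fun i _ => ?_
    congr 1
    funext z
    symm
    have hdiff : ∀ a b, DifferentiableAt ℝ
        (fun y => f i a b y • (rotJ b a : Eu n →L[ℝ] Eu n)) z := fun a b =>
      (((hf i a b).1.smul contDiff_const).differentiable (by simp)) z
    have h1 : fderiv ℝ (fun y => ∑ a, ∑ b, f i a b y • (rotJ b a : Eu n →L[ℝ] Eu n)) z =
        ∑ a, ∑ b, fderiv ℝ (fun y => f i a b y • (rotJ b a : Eu n →L[ℝ] Eu n)) z := by
      rw [fderiv_fun_sum fun a _ => DifferentiableAt.fun_sum fun b _ => hdiff a b]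
      refine Finset.sum_congr rfl fun a _ => ?_
      rw [fderiv_fun_sum fun b _ => hdiff a b]
    unfold dv
    rw [h1]
    simp only [ContinuousLinearMap.sum_apply]
    rw [Finset.sum_comm]
    refine Finset.sum_congr rfl fun a _ => ?_
    rw [Finset.sum_comm]
    refine Finset.sum_congr rfl fun b _ => ?_
    exact dv_smul a b (f i a b) (hf i a b).1 z

theorem slobE_eq (r q : ℝ) {v : Eu n → Eu n} (hv : ContDiff ℝ ∞ v) : slobE r q v = slobR r q v := by
  unfold slobE slobR gagE
  have hvk : ∀ k : ℕ, ContDiff ℝ k v := fun k => hv.of_le (by exact_mod_cast le_top)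
  have h1 : ∀ (x h : Eu n), dnorm ⌊r⌋₊ (fun y => v (y + h) - v y) x =
      ‖iteratedFDeriv ℝ ⌊r⌋₊ v (x + h) - iteratedFDeriv ℝ ⌊r⌋₊ v x‖ₑ := by
    intro x h
    rw [TrA.dnorm_eq]
    have h2 : ContDiff ℝ ⌊r⌋₊ (fun y => v (y + h)) :=
      (hvk _).comp (contDiff_id.add contDiff_const)
    have h3 : iteratedFDeriv ℝ ⌊r⌋₊ (fun y => v (y + h) - v y) x =
        iteratedFDeriv ℝ ⌊r⌋₊ (fun y => v (y + h)) x - iteratedFDeriv ℝ ⌊r⌋₊ v x :=
      congrFun (iteratedFDeriv_sub h2 (hvk _)) x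
    rw [h3, iteratedFDeriv_comp_add_right]
  simp only [h1]
  simp only [TrA.dnorm_eq]

theorem wE_neg (s p : ℝ) (hs : s < 0) : (wE s p : (Eu n → Eu n) → ℝ≥0∞) = wR s p := by
  funext u
  unfold wE wR
  rw [if_neg (not_le.mpr hs), if_neg (not_le.mpr hs)]
  congr 1
  funext v
  refine iSup_congr_Prop ?_ fun _ => rfl
  refine and_congr_right fun hv => and_congr_right fun _ => ?_
  rw [slobE_eq _ _ hv]

theorem wMan_neg [Fintype ι] (χ : ι → Eu n → ℝ) (s p : ℝ) (hs : s < 0) :
    (wMan χ s p : (ι → Eu n → Eu n) → ℝ≥0∞) = wM χ s p := by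
  funext X
  simp only [wMan, wM, wE_neg s p hs]

/-- zero flux paths have length zero -/
theorem vanish (hn : 3 ≤ n) [T2Space M] [CompactSpace M] [Nonempty M] [Fintype ι]
    (ch : ι → OpenPartialHomeomorph M (Eu n)) (hV : VolAtlas ch) (N : (ι → Eu n → Eu n) → ℝ≥0∞)
    (p : ℝ) (hN : MWeak ch N p) (φ : ℝ → M → M) (hφ : MFam ch φ)
    (hex : ∀ t, ExactFld ch (mvel ch φ t)) : mdist ch N (φ 0) (φ 1) = 0 := by
  have F := mFamKit
  have CK := mCostKit F
  -- the path from the identity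
  have h0 : MFam ch (fun _ : ℝ => φ 0) := F.re n M ι ch ℝ ℝ φ (fun _ => 0) hφ contDiff_const
  have h0' : MFam ch (fun _ : ℝ => Function.invFun (φ 0)) :=
    F.inv n M ι ch hV ℝ _ h0
  have hψ : MFam ch (fun t x => φ t (Function.invFun (φ 0) x)) := F.comp n M ι ch hV ℝ _ _ hφ h0'
  have hψ0 : (fun x => φ 0 (Function.invFun (φ 0) x)) = id := by
    funext x
    exact Function.rightInverse_invFun (hφ.bij 0).2 x
  have hv : ∀ t, mvel ch (fun t x => φ t (Function.invFun (φ 0) x)) t = mvel ch φ t := by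
    intro t
    funext i y
    exact F.velConst n M ι ch φ (Function.invFun (φ 0)) hφ.bij (h0'.bij 0) t i y
  have hcost := mMain_all n hn M ι ch hV N p hN _ hψ hψ0 (fun t => by rw [hv t]; exact hex t)
  refine le_antisymm ?_ zero_le
  refine ENNReal.le_of_forall_pos_le_add ?_
  intro ε hε _
  rw [zero_add]
  obtain ⟨ξ, l, h1, h2, h3, h4, h5, h6, h7⟩ := hcost ε hε
  have hξ : MFam ch (fun t x => ξ t (φ 0 x)) := F.comp n M ι ch hV ℝ _ _ h1 h0
  have e0 : (fun x => ξ 0 (φ 0 x)) = φ 0 := by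
    funext x
    simp [h2]
  have e1 : (fun x => ξ 1 (φ 0 x)) = φ 1 := by
    funext x
    rw [h3]
    show φ 1 (Function.invFun (φ 0) (φ 0 x)) = φ 1 x
    rw [Function.leftInverse_invFun (hφ.bij 0).1 x]
  refine (iInf₂_le (fun t x => ξ t (φ 0 x)) ⟨hξ, e0, e1⟩).trans ?_
  · have hl : mlen ch N (fun t x => ξ t (φ 0 x)) ≤ ENNReal.ofReal (∫ t in (0 : ℝ)..1, l t) := by
      unfold mlen
      have h8 : ∀ t, mvel ch (fun t x => ξ t (φ 0 x)) t = mvel ch ξ t := by
        intro t
        funext i y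
        exact F.velConst n M ι ch ξ (φ 0) h1.bij (hφ.bij 0) t i y
      simp only [h8]
      rw [intervalIntegral.integral_of_le zero_le_one, ← integral_Icc_eq_integral_Ioc,
        ofReal_integral_eq_lintegral_ofReal (h4.continuousOn.integrableOn_compact isCompact_Icc)
          (Filter.Eventually.of_forall h5)]
      exact setLIntegral_mono' measurableSet_Icc fun t ht => h6 t ht
    refine hl.trans ((ENNReal.ofReal_le_ofReal h7).trans ?_)
    rw [ENNReal.ofReal_coe_nnreal]

end TrB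

open TrB in
/-- The vanishing theorem. -/
theorem vanishS (n : ℕ) (hn : 3 ≤ n) (M : Type) [TopologicalSpace M] [T2Space M] [CompactSpace M]
    [Nonempty M] (ι : Type) [Fintype ι] (ch : ι → OpenPartialHomeomorph M (Eu n))
    (hV : VolAtlas ch) (χ : ι → Eu n → ℝ) (hχ : PartUnity ch χ) (s p : ℝ) (hs : s < 0)
    (hp : 1 < p) :
    (∀ φ, MPath ch φ → (∀ t, Exact ch (mvel ch φ t)) → sdist ch (wMan χ s p) (φ 0) (φ 1) = 0) ∧
    ((∀ X, DivFree ch X → Exact ch X) →
      ∀ f g, MG ch f → MG ch g → sdist ch (wMan χ s p) f g = 0) := by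
  have hN : MWeak ch (wMan χ s p) p := by
    rw [wMan_neg χ s p hs]
    exact wmWeak wrKit piola pushKit n M ι ch hV χ hχ s p (by omega) hs hp
  have F := mFamKit
  refine ⟨?_, ?_⟩
  · intro φ hφ hex
    rw [sdist_eq]
    exact vanish hn ch hV _ p hN φ ((path_iff ch φ).mp hφ) fun t => exact_fld ch _ (hex t)
  · intro hall f g hf hg
    rw [mg_iff] at hf hg
    rw [sdist_eq]
    obtain ⟨φ, h1, h2, rfl⟩ := hf
    obtain ⟨ψ, h3, h4, rfl⟩ := hg
    -- the path from `φ 1` to `ψ 1`
    have hA : MFam ch (fun t x => ψ t (Function.invFun (φ t) (φ 1 x))) := by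
      have h5 : MFam ch (fun _ : ℝ => φ 1) := F.re n M ι ch ℝ ℝ φ (fun _ => 1) h1 contDiff_const
      exact F.comp n M ι ch hV ℝ _ _ h3 (F.comp n M ι ch hV ℝ _ _ (F.inv n M ι ch hV ℝ φ h1) h5)
    have hfld := fun t => F.velFld n M ι ch hV _ hA t
    have hdiv := fun t => mVelDiv F n M ι ch hV _ hA t
    have h6 := vanish hn ch hV _ p hN _ hA fun t => exact_fld ch _ (hall _
      ⟨(hfld t).smooth, (hfld t).out, (hfld t).compat, fun i y hy => hdiv t i y hy⟩)
    have h7 : (fun x => ψ 0 (Function.invFun (φ 0) (φ 1 x))) = φ 1 := by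
      funext x
      have h8 : Function.invFun (id : M → M) (φ 1 x) = φ 1 x :=
        Function.leftInverse_invFun Function.injective_id _
      rw [h2, h4, h8, id]
    have h9 : (fun x => ψ 1 (Function.invFun (φ 1) (φ 1 x))) = ψ 1 := by
      funext x
      rw [Function.leftInverse_invFun (h1.bij 1).1 x]
    simp only [h7, h9] at h6
    exact h6

end

end Pool.Agent.H68.GM
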