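import Pool.Agent.H68.GM.Defs

/-! # Statements of the modules of the general closed manifold -/

namespace Pool.Agent.H68.GM

open MeasureTheory Set Pool.Agent.H68.VD
open scoped ENNReal ContDiff

noncomputable section

/-! ### MFamK.lean -/

/-- Families and velocities on `M`. -/
structure MFamKit : Prop where
  inv : ∀ (n : ℕ) (M : Type) [TopologicalSpace M] [Nonempty M] (ι : Type)
    (ch : ι → OpenPartialHomeomorph M (Eu n)), VolAtlas ch → ∀ (E : Type) [NormedAddCommGroup E]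
    [NormedSpace ℝ E] [CompleteSpace E] (F : E → M → M), MFam ch F →
    MFam ch (fun e => Function.invFun (F e))
  comp : ∀ (n : ℕ) (M : Type) [TopologicalSpace M] (ι : Type)
    (ch : ι → OpenPartialHomeomorph M (Eu n)), VolAtlas ch → ∀ (E : Type) [NormedAddCommGroup E]
    [NormedSpace ℝ E] (F G : E → M → M), MFam ch F → MFam ch G → MFam ch (fun e x => F e (G e x))
  re : ∀ (n : ℕ) (M : Type) [TopologicalSpace M] (ι : Type)
    (ch : ι → OpenPartialHomeomorph M (Eu n)), ∀ (E E' : Type) [NormedAddCommGroup E]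
    [NormedSpace ℝ E] [NormedAddCommGroup E'] [NormedSpace ℝ E'] (F : E → M → M) (h : E' → E),
    MFam ch F → ContDiff ℝ ∞ h → MFam ch (fun e => F (h e))
  id : ∀ (n : ℕ) (M : Type) [TopologicalSpace M] (ι : Type)
    (ch : ι → OpenPartialHomeomorph M (Eu n)), VolAtlas ch → ∀ (E : Type) [NormedAddCommGroup E]
    [NormedSpace ℝ E], MFam ch (fun (_ : E) (x : M) => x)
  velEq : ∀ (n : ℕ) (M : Type) [TopologicalSpace M] [Nonempty M] (ι : Type)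
    (ch : ι → OpenPartialHomeomorph M (Eu n)), VolAtlas ch → ∀ φ : ℝ → M → M, MFam ch φ →
    ∀ t x i, φ t x ∈ (ch i).source →
    HasDerivAt (fun τ => ch i (φ τ x)) (mvel ch φ t i (ch i (φ t x))) t
  velFld : ∀ (n : ℕ) (M : Type) [TopologicalSpace M] [Nonempty M] (ι : Type)
    (ch : ι → OpenPartialHomeomorph M (Eu n)), VolAtlas ch → ∀ φ : ℝ → M → M, MFam ch φ →
    ∀ t, IsFld ch (mvel ch φ t)
  velFam : ∀ (n : ℕ) (M : Type) [TopologicalSpace M] [Nonempty M] (ι : Type)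
    (ch : ι → OpenPartialHomeomorph M (Eu n)), VolAtlas ch → ∀ H : ℝ × ℝ → M → M, MFam ch H →
    ∀ i, ContinuousOn (fun q : (ℝ × ℝ) × Eu n => mvel ch (fun θ => H (q.1.1, θ)) q.1.2 i q.2)
      {q | q.2 ∈ (ch i).target}
  velComp : ∀ (n : ℕ) (M : Type) [TopologicalSpace M] [Nonempty M] (ι : Type)
    (ch : ι → OpenPartialHomeomorph M (Eu n)), VolAtlas ch → ∀ φ ψ : ℝ → M → M, MFam ch φ →
    MFam ch ψ → ∀ t x i j, ψ t x ∈ (ch i).source → φ t (ψ t x) ∈ (ch j).source →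
    mvel ch (fun t x => φ t (ψ t x)) t j (ch j (φ t (ψ t x))) =
      mvel ch φ t j (ch j (φ t (ψ t x))) +
        fderiv ℝ (fun y => ch j (φ t ((ch i).symm y))) (ch i (ψ t x))
          (mvel ch ψ t i (ch i (ψ t x)))
  velRe : ∀ (n : ℕ) (M : Type) [TopologicalSpace M] [Nonempty M] (ι : Type)
    (ch : ι → OpenPartialHomeomorph M (Eu n)), VolAtlas ch → ∀ (φ : ℝ → M → M) (h : ℝ → ℝ),
    MFam ch φ → ∀ t, DifferentiableAt ℝ h t → ∀ i y,
    mvel ch (fun t => φ (h t)) t i y = deriv h t • mvel ch φ (h t) i y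
  velConst : ∀ (n : ℕ) (M : Type) [TopologicalSpace M] [Nonempty M] (ι : Type)
    (ch : ι → OpenPartialHomeomorph M (Eu n)) (φ : ℝ → M → M) (f : M → M),
    (∀ t, Function.Bijective (φ t)) → Function.Bijective f → ∀ t i y,
    mvel ch (fun t x => φ t (f x)) t i y = mvel ch φ t i y

/-! ### MVelDiv.lean -/

/-- The velocity of a volume preserving path is divergence free. -/
def MVelDiv : Prop := ∀ (n : ℕ) (M : Type) [TopologicalSpace M] [Nonempty M] (ι : Type)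
    (ch : ι → OpenPartialHomeomorph M (Eu n)), VolAtlas ch → ∀ φ : ℝ → M → M, MFam ch φ →
    ∀ t i, ∀ y ∈ (ch i).target, ∑ j, (fderiv ℝ (mvel ch φ t i) y (ev j)) j = 0

/-! ### MCostK.lean -/

/-- The calculus of costs on `M`. -/
structure MCostKit : Prop where
  comp : ∀ (n : ℕ) (M : Type) [TopologicalSpace M] [Nonempty M] (ι : Type)
    (ch : ι → OpenPartialHomeomorph M (Eu n)), VolAtlas ch → ∀ (N : (ι → Eu n → Eu n) → ℝ≥0∞)
    (p : ℝ), MWeak ch N p → ∀ f g a b, MCost ch N f a → MCost ch N g b →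
    MCost ch N (fun x => f (g x)) (a + b)
  inv : ∀ (n : ℕ) (M : Type) [TopologicalSpace M] [Nonempty M] (ι : Type)
    (ch : ι → OpenPartialHomeomorph M (Eu n)), VolAtlas ch → ∀ (N : (ι → Eu n → Eu n) → ℝ≥0∞)
    (p : ℝ), MWeak ch N p → ∀ f a, MCost ch N f a → MCost ch N (Function.invFun f) a
  path : ∀ (n : ℕ) (M : Type) [TopologicalSpace M] [Nonempty M] (ι : Type)
    (ch : ι → OpenPartialHomeomorph M (Eu n)), VolAtlas ch → ∀ (N : (ι → Eu n → Eu n) → ℝ≥0∞)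
    (p : ℝ), MWeak ch N p → ∀ φ, MFam ch φ → φ 0 = id → ∀ T C : ℝ, 0 ≤ T → 0 ≤ C →
    (∀ t ∈ Set.Icc (0 : ℝ) T, N (mvel ch φ t) ≤ ENNReal.ofReal C) → MCost ch N (φ T) (C * T)
  dist : ∀ (n : ℕ) (M : Type) [TopologicalSpace M] [Nonempty M] (ι : Type)
    (ch : ι → OpenPartialHomeomorph M (Eu n)), VolAtlas ch → ∀ (N : (ι → Eu n → Eu n) → ℝ≥0∞)
    (h f g : M → M) (a : ℝ), MCost ch N h a → InGM ch f → (∀ x, h (f x) = g x) →
    mdist ch N f g ≤ ENNReal.ofReal a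

/-! ### MExtK.lean -/

/-- Extension of maps from a ball in a chart. -/
structure MExtKit : Prop where
  fam : ∀ (n : ℕ) (M : Type) [TopologicalSpace M] [T2Space M] (ι : Type)
    (ch : ι → OpenPartialHomeomorph M (Eu n)), VolAtlas ch → ∀ (i : ι) (c : Eu n) (r : ℝ), 0 < r →
    Metric.closedBall c r ⊆ (ch i).target → ∀ (E : Type) [NormedAddCommGroup E] [NormedSpace ℝ E]
    (T : E → Eu n → Eu n), BallFam c r T → MFam ch (fun e => extM ch i (T e))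
  comp : ∀ (n : ℕ) (M : Type) [TopologicalSpace M] (ι : Type)
    (ch : ι → OpenPartialHomeomorph M (Eu n)) (i : ι) (c : Eu n) (r : ℝ), 0 < r →
    Metric.closedBall c r ⊆ (ch i).target → ∀ (E : Type) [NormedAddCommGroup E] [NormedSpace ℝ E]
    (S T : E → Eu n → Eu n), BallFam c r S → BallFam c r T → ∀ e x,
    extM ch i (fun y => S e (T e y)) x = extM ch i (S e) (extM ch i (T e) x)
  velExt : ∀ (n : ℕ) (M : Type) [TopologicalSpace M] [T2Space M] [Nonempty M] (ι : Type)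
    (ch : ι → OpenPartialHomeomorph M (Eu n)), VolAtlas ch → ∀ (i : ι) (c : Eu n) (r : ℝ), 0 < r →
    Metric.closedBall c r ⊆ (ch i).target → ∀ (T : ℝ → Eu n → Eu n), BallFam c r T →
    ∀ t j y, mvel ch (fun t => extM ch i (T t)) t j y = push ch i (vel T t) j y
  velOut : ∀ (n : ℕ) (c : Eu n) (r : ℝ) (T : ℝ → Eu n → Eu n), BallFam c r T → ∀ t x,
    r ≤ dist x c → vel T t x = 0
  velSmooth : ∀ (n : ℕ) (c : Eu n) (r : ℝ) (T : ℝ → Eu n → Eu n), BallFam c r T → ∀ t,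
    ContDiff ℝ ∞ (vel T t)

/-! ### PushK.lean -/

/-- Fields supported in a chart. -/
structure PushKit : Prop where
  fld : ∀ (n : ℕ) (M : Type) [TopologicalSpace M] [T2Space M] (ι : Type)
    (ch : ι → OpenPartialHomeomorph M (Eu n)), VolAtlas ch → ∀ (i : ι) (K : Set (Eu n)),
    IsCompact K → K ⊆ (ch i).target → ∀ u : Eu n → Eu n, ContDiff ℝ ∞ u → (∀ y ∉ K, u y = 0) →
    IsFld ch (push ch i u)
  bound : ∀ (n : ℕ) (M : Type) [TopologicalSpace M] [T2Space M] (ι : Type)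
    (ch : ι → OpenPartialHomeomorph M (Eu n)), VolAtlas ch → ∀ (i : ι) (K : Set (Eu n)),
    IsCompact K → K ⊆ (ch i).target → ∀ (j : ι) (K' : Set (Eu n)), IsCompact K' →
    K' ⊆ (ch j).target → ∃ C : ℝ, 0 ≤ C ∧ ∀ u : Eu n → Eu n, (∀ y ∉ K, u y = 0) → ∀ b : ℝ,
    (∀ y, ‖u y‖ ≤ b) → ∀ y ∈ K', ‖push ch i u j y‖ ≤ C * b
  self : ∀ (n : ℕ) (M : Type) [TopologicalSpace M] (ι : Type)
    (ch : ι → OpenPartialHomeomorph M (Eu n)) (i : ι) (u : Eu n → Eu n), ∀ y ∈ (ch i).target,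
    push ch i u i y = u y
  sum : ∀ (n : ℕ) (M : Type) [TopologicalSpace M] (ι : Type)
    (ch : ι → OpenPartialHomeomorph M (Eu n)) (i : ι) (m : ℕ) (u : Fin m → Eu n → Eu n) (j : ι)
    (y : Eu n), push ch i (fun y => ∑ k, u k y) j y = ∑ k, push ch i (u k) j y
  sub : ∀ (n : ℕ) (M : Type) [TopologicalSpace M] (ι : Type)
    (ch : ι → OpenPartialHomeomorph M (Eu n)) (i : ι) (u v : Eu n → Eu n) (j : ι)
    (y : Eu n), push ch i (fun y => u y - v y) j y = push ch i u j y - push ch i v j y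

/-! ### MSwirl.lean -/

/-- Twists in a chart have cost zero. -/
def MSwirl : Prop := ∀ (n : ℕ), 3 ≤ n → ∀ (M : Type) [TopologicalSpace M] [T2Space M]
  [Nonempty M] (ι : Type) (ch : ι → OpenPartialHomeomorph M (Eu n)), VolAtlas ch →
  ∀ (N : (ι → Eu n → Eu n) → ℝ≥0∞) (p : ℝ), MWeak ch N p → ∀ (i : ι) (c : Eu n) (r : ℝ), 0 < r →
  Metric.closedBall c r ⊆ (ch i).target → ∀ a b : Fin n, a ≠ b → ∀ β : ℝ → ℝ, ContDiff ℝ ∞ β →
  (∀ ρ, r ^ 2 ≤ ρ → β ρ = 0) → ∀ ε : ℝ, 0 < ε →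
  MCost ch N (extM ch i (twist c (fun ρ => rotR a b (β ρ)))) ε

/-! ### MDens.lean -/

/-- Divergences of antisymmetric matrix fields with compact support are uniform limits of sums of
swirls. -/
def MDens : Prop := ∀ (n : ℕ) (U : Set (Eu n)), IsOpen U → ∀ A : Eu n → (Eu n →L[ℝ] Eu n),
  SkewIn U A → ∃ K : Set (Eu n), IsCompact K ∧ K ⊆ U ∧ ∀ η : ℝ, 0 < η →
  ∃ (m : ℕ) (c : Fin m → Eu n) (r : Fin m → ℝ) (a b : Fin m → Fin n) (β : Fin m → ℝ → ℝ),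
    (∀ k, 0 < r k) ∧ (∀ k, Metric.closedBall (c k) (r k) ⊆ K) ∧ (∀ k, a k ≠ b k) ∧
    (∀ k, ContDiff ℝ ∞ (β k)) ∧ (∀ k ρ, (r k) ^ 2 ≤ ρ → β k ρ = 0) ∧
    (∀ y ∉ K, dv A y = 0) ∧
    ∀ x, ‖dv A x - ∑ k, swirl (c k) (a k) (b k) (β k) x‖ ≤ η

/-! ### MMain.lean -/

/-- Exact paths have cost zero. -/
def MMainCost : Prop := ∀ (n : ℕ), 3 ≤ n → ∀ (M : Type) [TopologicalSpace M] [T2Space M]
  [CompactSpace M] [Nonempty M] (ι : Type) [Fintype ι] (ch : ι → OpenPartialHomeomorph M (Eu n)),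
  VolAtlas ch → ∀ (N : (ι → Eu n → Eu n) → ℝ≥0∞) (p : ℝ), MWeak ch N p → ∀ φ : ℝ → M → M,
  MFam ch φ → φ 0 = id → (∀ t, ExactFld ch (mvel ch φ t)) → ∀ ε : ℝ, 0 < ε → MCost ch N (φ 1) ε

/-! ### Piola.lean -/

/-- The divergence of antisymmetric matrix fields is natural under volume preserving maps. -/
def Piola : Prop := ∀ (n : ℕ) (U V : Set (Eu n)), IsOpen U → IsOpen V → ∀ κ μ : Eu n → Eu n,
  ContDiffOn ℝ ∞ κ U → ContDiffOn ℝ ∞ μ V → (∀ y ∈ V, μ y ∈ U) → (∀ y ∈ V, κ (μ y) = y) →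
  (∀ x ∈ U, |(fderiv ℝ κ x).det| = 1) → ∀ T : Eu n → (Eu n →L[ℝ] Eu n), ContDiff ℝ ∞ T →
  (∀ y a b, inner ℝ (T y a) b = - inner ℝ a (T y b)) → ∀ y ∈ V,
  dv (fun y => (fderiv ℝ κ (μ y)) ∘L T (μ y) ∘L
    (ContinuousLinearMap.adjoint (fderiv ℝ κ (μ y)))) y = fderiv ℝ κ (μ y) (dv T (μ y))

/-! ### WR.lean -/

/-- The dual norms on Euclidean space. -/
structure WRKit : Prop where
  lp : ∀ (n : ℕ) (s p : ℝ), s < 0 → 1 < p → ∀ u : Eu n → Eu n, Continuous u →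
    wR s p u ≤ (∫⁻ x, ‖u x‖ₑ ^ p) ^ (1 / p)
  add : ∀ (n : ℕ) (s p : ℝ), s < 0 → ∀ u v : Eu n → Eu n, Continuous u → Continuous v →
    HasCompactSupport u → HasCompactSupport v → wR s p (fun x => u x + v x) ≤ wR s p u + wR s p v
  smul : ∀ (n : ℕ) (s p : ℝ), s < 0 → ∀ (c : ℝ) (u : Eu n → Eu n),
    wR s p (fun x => c • u x) = ENNReal.ofReal |c| * wR s p u
  weak : ∀ (n : ℕ) (s p : ℝ), 1 ≤ n → s < 0 → 1 < p → ∀ K : Set (Eu n), IsCompact K →
    ∀ B ε : ℝ, 0 < ε → ∃ δ : ℝ, 0 < δ ∧ ∀ T : Eu n → (Eu n →L[ℝ] Eu n), ContDiff ℝ ∞ T →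
    (∀ y ∉ K, T y = 0) → (∀ y, ‖dv T y‖ ≤ B) → (∀ y, ‖T y‖ ≤ δ) →
    wR s p (dv T) ≤ ENNReal.ofReal ε

/-! ### WMW.lean -/

/-- The negative Sobolev norms on `M` are weak norms. -/
def WMWeak : Prop := ∀ (n : ℕ) (M : Type) [TopologicalSpace M] [T2Space M] [CompactSpace M]
  (ι : Type) [Fintype ι] (ch : ι → OpenPartialHomeomorph M (Eu n)), VolAtlas ch →
  ∀ χ : ι → Eu n → ℝ, PartUnity ch χ → ∀ s p : ℝ, 1 ≤ n → s < 0 → 1 < p →
  MWeak ch (wM χ s p) p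

end

end Pool.Agent.H68.GM
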