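import Pool.Agent.H68.GM.Defs
import Pool.Agent.H68.VD.S

/-! # The definitions of the statement of VanishNegative

A closed manifold with a volume form is a compact Hausdorff space `M` with a finite family of charts
`ch i` with `VolAtlas ch`: the transition maps are smooth and their Jacobian determinant has modulus
one (every volume form has such coordinates). A vector field `X` is given by its representatives
`X i` in the charts. -/

namespace Pool.Agent.H68.GM

open MeasureTheory Set Pool.Agent.H68.VD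
open scoped ENNReal ContDiff

noncomputable section

variable {n : ℕ} {M : Type} [TopologicalSpace M] {ι : Type}

/-- The map `f` in the charts `i` and `j`. -/
def rep (ch : ι → OpenPartialHomeomorph M (Eu n)) (i j : ι) (f : M → M) (y : Eu n) : Eu n :=
  ch j (f ((ch i).symm y))

/-- The set where the map `f` can be read in the charts `i` and `j`. -/
def rdom (ch : ι → OpenPartialHomeomorph M (Eu n)) (i j : ι) (f : M → M) : Set (Eu n) :=
  {y | y ∈ (ch i).target ∧ f ((ch i).symm y) ∈ (ch j).source}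

/-- A smooth path of volume preserving diffeomorphisms of `M`. -/
structure MPath (ch : ι → OpenPartialHomeomorph M (Eu n)) (φ : ℝ → M → M) : Prop where
  cont : Continuous (fun q : ℝ × M => φ q.1 q.2)
  smooth : ∀ i j, ContDiffOn ℝ ∞ (fun q : ℝ × Eu n => rep ch i j (φ q.1) q.2)
    {q | q.2 ∈ rdom ch i j (φ q.1)}
  bij : ∀ t, Function.Bijective (φ t)
  det : ∀ t i j, ∀ y ∈ rdom ch i j (φ t), |(fderiv ℝ (rep ch i j (φ t)) y).det| = 1

/-- The identity component of the group of volume preserving diffeomorphisms. -/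
def MG (ch : ι → OpenPartialHomeomorph M (Eu n)) (f : M → M) : Prop :=
  ∃ φ : ℝ → M → M, MPath ch φ ∧ φ 0 = id ∧ φ 1 = f

/-- The geodesic distance for the norm `N` on velocity fields. -/
def sdist [Nonempty M] (ch : ι → OpenPartialHomeomorph M (Eu n)) (N : (ι → Eu n → Eu n) → ℝ≥0∞)
    (f g : M → M) : ℝ≥0∞ :=
  ⨅ (φ : ℝ → M → M) (_ : MPath ch φ ∧ φ 0 = f ∧ φ 1 = g), mlen ch N φ

/-- The representatives of a vector field are compatible with the transition maps. -/
def Compat (ch : ι → OpenPartialHomeomorph M (Eu n)) (X : ι → Eu n → Eu n) : Prop :=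
  ∀ i j, ∀ y ∈ dom ch i j, X j (tr ch i j y) = fderiv ℝ (tr ch i j) y (X i y)

/-- The divergence of a field on Euclidean space. -/
def divg (u : Eu n → Eu n) (y : Eu n) : ℝ := ∑ j, (fderiv ℝ u y (ev j)) j

/-- A smooth divergence free vector field. -/
structure DivFree (ch : ι → OpenPartialHomeomorph M (Eu n)) (X : ι → Eu n → Eu n) : Prop where
  smooth : ∀ i, ContDiffOn ℝ ∞ (X i) (ch i).target
  out : ∀ i, ∀ y ∉ (ch i).target, X i y = 0
  compat : Compat ch X
  div : ∀ i, ∀ y ∈ (ch i).target, divg (X i) y = 0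

/-- `f` is a smooth function with compact support in `U`. -/
def TestIn (U : Set (Eu n)) (f : Eu n → ℝ) : Prop :=
  ContDiff ℝ ∞ f ∧ ∃ K : Set (Eu n), IsCompact K ∧ K ⊆ U ∧ ∀ y ∉ K, f y = 0

/-- A vector field is exact if its contraction with the volume form is the exterior derivative of a
form: it is a sum of fields which are, in a chart, sums of skew gradients
`∂_b f e_a - ∂_a f e_b` of functions `f` with compact support in the chart. -/
def Exact [Fintype ι] (ch : ι → OpenPartialHomeomorph M (Eu n)) (X : ι → Eu n → Eu n) : Prop :=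
  ∃ f : ι → Fin n → Fin n → Eu n → ℝ, (∀ i a b, TestIn (ch i).target (f i a b)) ∧
    ∀ j y, X j y = ∑ i, push ch i (fun z => ∑ a, ∑ b, jgrad a b (f i a b) z) j y

/-- The `q`-th power of the fractional seminorm of order `m + θ`, `0 < θ < 1`, on Euclidean space. -/
def gagE (m : ℕ) (θ q : ℝ) (v : Eu n → Eu n) : ℝ≥0∞ :=
  ∫⁻ x : Eu n, ∫⁻ h in Metric.ball (0 : Eu n) 1,
    dnorm m (fun y => v (y + h) - v y) x ^ q / ‖h‖ₑ ^ ((n : ℝ) + θ * q)

/-- The `q`-th power of the Sobolev-Slobodeckij norm of order `r ≥ 0` and exponent `q` of a smooth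
field with compact support on Euclidean space. -/
def slobE (r q : ℝ) (v : Eu n → Eu n) : ℝ≥0∞ :=
  (∑ k ∈ Finset.range (⌊r⌋₊ + 1), ∫⁻ x, dnorm k v x ^ q) +
    (if (⌊r⌋₊ : ℝ) < r then gagE ⌊r⌋₊ (r - ⌊r⌋₊) q v else 0)

/-- The norm of `W^{s,p}` of Euclidean space, `s` real and `1 < p`: for `s < 0` the dual norm of
`W^{-s,q}` with `q = p / (p - 1)`. -/
def wE (s p : ℝ) (u : Eu n → Eu n) : ℝ≥0∞ :=
  if 0 ≤ s then (slobE s p u) ^ (1 / p)
  else ⨆ (v : Eu n → Eu n) (_ : ContDiff ℝ ∞ v ∧ HasCompactSupport v ∧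
    slobE (-s) (p / (p - 1)) v ≤ 1), ENNReal.ofReal |∫ x, inner ℝ (u x) (v x)|

/-- The norm of `W^{s,p}` of vector fields on `M`, defined with a partition of unity `χ`. -/
def wMan [Fintype ι] (χ : ι → Eu n → ℝ) (s p : ℝ) (X : ι → Eu n → Eu n) : ℝ≥0∞ :=
  ∑ i, wE s p (fun y => χ i y • X i y)

end

end Pool.Agent.H68.GM
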