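import Pool.Agent.H68.VD.St

/-! # Volumorphism groups of closed manifolds: definitions

A closed manifold with a volume form is a compact Hausdorff space `M` with a finite family of charts
`ch i` into Euclidean space whose transition maps are smooth with Jacobian determinant of modulus one
(coordinates in which the volume form is the standard one always exist locally). A vector field `X` is
given by its representatives `X i` in the charts. -/

namespace Pool.Agent.H68.GM

open MeasureTheory Set Pool.Agent.H68.VD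
open scoped ENNReal ContDiff

noncomputable section

variable {n : ℕ} {M : Type} [TopologicalSpace M] {ι : Type}

/-- The transition map from the chart `i` to the chart `j`. -/
def tr (ch : ι → OpenPartialHomeomorph M (Eu n)) (i j : ι) (y : Eu n) : Eu n :=
  ch j ((ch i).symm y)

/-- The domain of the transition map from the chart `i` to the chart `j`. -/
def dom (ch : ι → OpenPartialHomeomorph M (Eu n)) (i j : ι) : Set (Eu n) :=
  {y | y ∈ (ch i).target ∧ (ch i).symm y ∈ (ch j).source}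

/-- The charts cover `M` and the transition maps are smooth and volume preserving. -/
structure VolAtlas (ch : ι → OpenPartialHomeomorph M (Eu n)) : Prop where
  cover : ∀ x : M, ∃ i, x ∈ (ch i).source
  smooth : ∀ i j, ContDiffOn ℝ ∞ (tr ch i j) (dom ch i j)
  det : ∀ i j, ∀ y ∈ dom ch i j, |(fderiv ℝ (tr ch i j) y).det| = 1

/-- A smooth family (parameter space `E`) of volume preserving diffeomorphisms of `M`. -/
structure MFam (ch : ι → OpenPartialHomeomorph M (Eu n)) {E : Type*} [NormedAddCommGroup E]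
    [NormedSpace ℝ E] (F : E → M → M) : Prop where
  cont : Continuous (fun q : E × M => F q.1 q.2)
  smooth : ∀ i j, ContDiffOn ℝ ∞ (fun q : E × Eu n => ch j (F q.1 ((ch i).symm q.2)))
    {q | q.2 ∈ (ch i).target ∧ F q.1 ((ch i).symm q.2) ∈ (ch j).source}
  bij : ∀ e, Function.Bijective (F e)
  det : ∀ e i j y, y ∈ (ch i).target → F e ((ch i).symm y) ∈ (ch j).source →
    |(fderiv ℝ (fun y => ch j (F e ((ch i).symm y))) y).det| = 1

/-- A smooth vector field, given by its representatives in the charts (zero outside of the images of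
the charts). -/
structure IsFld (ch : ι → OpenPartialHomeomorph M (Eu n)) (X : ι → Eu n → Eu n) : Prop where
  smooth : ∀ i, ContDiffOn ℝ ∞ (X i) (ch i).target
  out : ∀ i, ∀ y ∉ (ch i).target, X i y = 0
  compat : ∀ i j, ∀ y ∈ dom ch i j, X j (tr ch i j y) = fderiv ℝ (tr ch i j) y (X i y)

open Classical in
/-- The (Eulerian) velocity field `(∂_t φ_t) ∘ φ_t⁻¹` of a path at time `t`. -/
def mvel [Nonempty M] (ch : ι → OpenPartialHomeomorph M (Eu n)) (φ : ℝ → M → M) (t : ℝ) (i : ι)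
    (y : Eu n) : Eu n :=
  if y ∈ (ch i).target then
    deriv (fun τ => ch i (φ τ (Function.invFun (φ t) ((ch i).symm y)))) t
  else 0

open Classical in
/-- The vector field on `M` which is `u` in the chart `i` and zero outside of this chart. -/
def push (ch : ι → OpenPartialHomeomorph M (Eu n)) (i : ι) (u : Eu n → Eu n) (j : ι) (y : Eu n) :
    Eu n :=
  if y ∈ dom ch j i then fderiv ℝ (tr ch i j) (tr ch j i y) (u (tr ch j i y)) else 0

/-- The length of a path. -/
def mlen [Nonempty M] (ch : ι → OpenPartialHomeomorph M (Eu n)) (N : (ι → Eu n → Eu n) → ℝ≥0∞)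
    (φ : ℝ → M → M) : ℝ≥0∞ :=
  ∫⁻ t in Set.Icc (0 : ℝ) 1, N (mvel ch φ t)

/-- The geodesic distance. -/
def mdist [Nonempty M] (ch : ι → OpenPartialHomeomorph M (Eu n)) (N : (ι → Eu n → Eu n) → ℝ≥0∞)
    (f g : M → M) : ℝ≥0∞ :=
  ⨅ (φ : ℝ → M → M) (_ : MFam ch φ ∧ φ 0 = f ∧ φ 1 = g), mlen ch N φ

/-- The identity component of the group of volume preserving diffeomorphisms. -/
def InGM (ch : ι → OpenPartialHomeomorph M (Eu n)) (f : M → M) : Prop :=
  ∃ φ : ℝ → M → M, MFam ch φ ∧ φ 0 = id ∧ φ 1 = f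

/-- A matrix field with compact support in the set `U` and antisymmetric values. -/
structure SkewIn (U : Set (Eu n)) (A : Eu n → (Eu n →L[ℝ] Eu n)) : Prop where
  smooth : ContDiff ℝ ∞ A
  supp : ∃ K : Set (Eu n), IsCompact K ∧ K ⊆ U ∧ ∀ y ∉ K, A y = 0
  skew : ∀ y a b, inner ℝ (A y a) b = - inner ℝ a (A y b)

/-- A vector field is exact if its contraction with the volume form is an exact form: it is a sum of
fields which are, in a chart, the divergence of an antisymmetric matrix field with compact support. -/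
def ExactFld [Fintype ι] (ch : ι → OpenPartialHomeomorph M (Eu n)) (X : ι → Eu n → Eu n) : Prop :=
  ∃ A : ι → Eu n → (Eu n →L[ℝ] Eu n), (∀ i, SkewIn (ch i).target (A i)) ∧
    ∀ j y, X j y = ∑ i, push ch i (dv (A i)) j y

/-- `N` is a weak norm on the vector fields of `M`: homogeneous, bounded by sup norms, locally bounded
by the `L^p` norm, and small on divergences of uniformly small antisymmetric matrix fields. -/
structure MWeak (ch : ι → OpenPartialHomeomorph M (Eu n)) (N : (ι → Eu n → Eu n) → ℝ≥0∞) (p : ℝ) :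
    Prop where
  hp : 1 ≤ p
  smul : ∀ (c : ℝ) (X : ι → Eu n → Eu n), N (fun i y => c • X i y) = ENNReal.ofReal |c| * N X
  sup : ∃ (K : ι → Set (Eu n)) (C : ℝ), 0 ≤ C ∧ (∀ i, IsCompact (K i) ∧ K i ⊆ (ch i).target) ∧
    ∀ X : ι → Eu n → Eu n, IsFld ch X → ∀ b : ℝ, 0 ≤ b → (∀ i, ∀ y ∈ K i, ‖X i y‖ ≤ b) →
    N X ≤ ENNReal.ofReal (C * b)
  loc : ∀ (i : ι) (K : Set (Eu n)), IsCompact K → K ⊆ (ch i).target → ∃ C : ℝ, 0 ≤ C ∧
    ∀ u : Eu n → Eu n, ContDiff ℝ ∞ u → (∀ y ∉ K, u y = 0) →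
    N (push ch i u) ≤ ENNReal.ofReal C * (∫⁻ y, ‖u y‖ₑ ^ p) ^ (1 / p)
  weak : ∀ (i : ι) (K : Set (Eu n)), IsCompact K → K ⊆ (ch i).target → ∀ B ε : ℝ, 0 < ε →
    ∃ δ : ℝ, 0 < δ ∧ ∀ T : Eu n → (Eu n →L[ℝ] Eu n), ContDiff ℝ ∞ T → (∀ y ∉ K, T y = 0) →
    (∀ y a b, inner ℝ (T y a) b = - inner ℝ a (T y b)) → (∀ y, ‖dv T y‖ ≤ B) →
    (∀ y, ‖T y‖ ≤ δ) → N (push ch i (dv T)) ≤ ENNReal.ofReal ε

/-- `f` can be joined to the identity by a path of length at most `a` (with a continuous bound of the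
speed). -/
def MCost [Nonempty M] (ch : ι → OpenPartialHomeomorph M (Eu n)) (N : (ι → Eu n → Eu n) → ℝ≥0∞)
    (f : M → M) (a : ℝ) : Prop :=
  ∃ (φ : ℝ → M → M) (l : ℝ → ℝ), MFam ch φ ∧ φ 0 = id ∧ φ 1 = f ∧ Continuous l ∧
    (∀ t, 0 ≤ l t) ∧ (∀ t ∈ Set.Icc (0 : ℝ) 1, N (mvel ch φ t) ≤ ENNReal.ofReal (l t)) ∧
    ∫ t in (0 : ℝ)..1, l t ≤ a

open Classical in
/-- The extension by the identity of a map of the chart `i`. -/
def extM (ch : ι → OpenPartialHomeomorph M (Eu n)) (i : ι) (T : Eu n → Eu n) (x : M) : M :=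
  if x ∈ (ch i).source then (ch i).symm (T (ch i x)) else x

/-! ### Sobolev norms on `M` -/

/-- The `q`-th power of the Sobolev-Slobodeckij norm of order `r ≥ 0` and exponent `q` of a smooth
field with compact support on Euclidean space. -/
def slobR (r q : ℝ) (v : Eu n → Eu n) : ℝ≥0∞ :=
  (∑ k ∈ Finset.range (⌊r⌋₊ + 1), ∫⁻ x, ‖iteratedFDeriv ℝ k v x‖ₑ ^ q) +
    (if (⌊r⌋₊ : ℝ) < r then
      ∫⁻ x : Eu n, ∫⁻ h in Metric.ball (0 : Eu n) 1,
        ‖iteratedFDeriv ℝ ⌊r⌋₊ v (x + h) - iteratedFDeriv ℝ ⌊r⌋₊ v x‖ₑ ^ q /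
          ‖h‖ₑ ^ ((n : ℝ) + (r - ⌊r⌋₊) * q)
    else 0)

/-- The norm of `W^{s,p}` of Euclidean space, `s` real and `1 < p`: for `s < 0` the dual norm of
`W^{-s,q}` with `q = p / (p - 1)`. -/
def wR (s p : ℝ) (u : Eu n → Eu n) : ℝ≥0∞ :=
  if 0 ≤ s then (slobR s p u) ^ (1 / p)
  else ⨆ (v : Eu n → Eu n) (_ : ContDiff ℝ ∞ v ∧ HasCompactSupport v ∧
    slobR (-s) (p / (p - 1)) v ≤ 1), ENNReal.ofReal |∫ x, inner ℝ (u x) (v x)|

open Classical in
/-- `χ` is a smooth partition of unity subordinate to the charts. -/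
structure PartUnity [Fintype ι] (ch : ι → OpenPartialHomeomorph M (Eu n)) (χ : ι → Eu n → ℝ) :
    Prop where
  smooth : ∀ i, ContDiff ℝ ∞ (χ i)
  supp : ∀ i, ∃ K : Set (Eu n), IsCompact K ∧ K ⊆ (ch i).target ∧ ∀ y ∉ K, χ i y = 0
  nonneg : ∀ i y, 0 ≤ χ i y
  sum : ∀ x : M, ∑ i, (if x ∈ (ch i).source then χ i (ch i x) else 0) = 1

/-- The norm of `W^{s,p}` of vector fields on `M`, defined by a partition of unity. -/
def wM [Fintype ι] (χ : ι → Eu n → ℝ) (s p : ℝ) (X : ι → Eu n → Eu n) : ℝ≥0∞ :=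
  ∑ i, wR s p (fun y => χ i y • X i y)

end

end Pool.Agent.H68.GM
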